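import Pool.Agent.Lib.MP_d9512b_co.T3.Count

set_option autoImplicit false
set_option linter.unusedSectionVars false

/-!
A junction near which all degrees are equal gives a good set.
-/

namespace Pool.Agent.Lib.MP_d9512b_co

open Set

namespace T3

variable {V : Type*} {G : SimpleGraph V} {W S T F E K O L R S' : Set V} {c o x y z w : V} {n d : ℕ}

/-- Two sets of numbers in `[1, n]` with more than `n` elements together. -/
theorem pig2 {A B : Finset ℕ} (hA : ∀ x ∈ A, 1 ≤ x ∧ x ≤ n) (hB : ∀ x ∈ B, 1 ≤ x ∧ x ≤ n)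
    (h : n + 1 ≤ A.card + B.card) : ∃ x ∈ A, ∃ y ∈ B, x + y = n + 1 := by
  classical
  have hB' : (B.image fun y => n + 1 - y).card = B.card := by
    refine Finset.card_image_of_injOn ?_
    intro x hx y hy hxy
    have h1 := hB x hx
    have h2 := hB y hy
    simp only at hxy
    omega
  by_contra hcon
  push Not at hcon
  have hd : Disjoint A (B.image fun y => n + 1 - y) := by
    rw [Finset.disjoint_left]
    intro x hx hx'
    obtain ⟨y, hy, hxy⟩ := Finset.mem_image.1 hx'
    have h1 := hB y hy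
    have h2 := hcon x hx y hy
    omega
  have h1 : A ∪ (B.image fun y => n + 1 - y) ⊆ Finset.Icc 1 n := by
    intro x hx
    rcases Finset.mem_union.1 hx with hx | hx
    · exact Finset.mem_Icc.2 (hA x hx)
    · obtain ⟨y, hy, hxy⟩ := Finset.mem_image.1 hx
      have h1 := hB y hy
      exact Finset.mem_Icc.2 (by omega)
  have h2 := Finset.card_le_card h1
  rw [Finset.card_union_of_disjoint hd, hB', Nat.card_Icc] at h2
  omega

theorem Jn.symm (h : Jn G L R w n) : Jn G R L w n :=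
  ⟨h.rR, h.rL, h.dis.symm, fun x hx y hy hxy => h.nad y hy x hx hxy.symm, h.cR, h.cL,
    fun S S' hS hS' h1 h2 => by
      rw [union_comm]
      exact h.glue S' S hS' hS h2 h1⟩

theorem Jn.exists_adj [Finite V] (h : Jn G L R w n) (hn : 1 ≤ n) : ∃ o ∈ R, G.Adj w o := by
  have hne : R.Nonempty := by
    rw [← ncard_pos (toFinite _)]
    exact hn.trans h.cR
  obtain ⟨r, hr⟩ := hne
  obtain ⟨a, ha, b, hb, -, hbR, hab⟩ := h.rR.con.exists_edge (X := {w}) rfl (mem_insert _ _)
    (y := r) (fun h' => h.rR.cW (h' ▸ hr)) (mem_insert_of_mem _ hr)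
  rw [mem_singleton_iff] at ha
  subst ha
  exact ⟨b, hbR.resolve_left hb, hab⟩

/-- States of complementary sizes give a good set. -/
theorem Jn.good [Finite V] (h : Jn G L R w n) (hS : St G L w S) (hS' : St G R w S')
    (hc : S.ncard + S'.ncard = n + 1) : Good G n (S ∪ S') := by
  have h1 : 1 ≤ S.ncard := (ncard_pos (toFinite _)).2 ⟨w, hS.mem⟩
  have h2 : 1 ≤ S'.ncard := (ncard_pos (toFinite _)).2 ⟨w, hS'.mem⟩
  obtain ⟨h3, h4⟩ := h.glue S S' hS hS' (by omega) (by omega)
  refine ⟨?_, hS.con.union hS'.con hS.mem hS'.mem, h3, h4⟩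
  have h5 : S ∩ S' = {w} := by
    ext z
    constructor
    · rintro ⟨hz, hz'⟩
      rcases hS.sub hz with h6 | h6
      · exact h6
      · rcases hS'.sub hz' with h7 | h7
        · exact h7
        · exact absurd h7 (disjoint_left.1 h.dis h6)
    · rintro rfl
      exact ⟨hS.mem, hS'.mem⟩
  have h6 := ncard_union_add_ncard_inter S S' (toFinite _) (toFinite _)
  rw [h5, ncard_singleton] at h6
  omega

/-- (A3) -/
theorem stJn : StJn := by
  intro V _ G L R w n d h hn hd hdeg
  obtain ⟨o, ho, hwo⟩ := h.exists_adj hn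
  obtain ⟨o', ho', hwo'⟩ := h.symm.exists_adj hn
  obtain ⟨A, hA, hAc⟩ := stCount V G L R w o n d h.rL h.rR.cW h.dis h.nad ho hwo hd hdeg hn h.cL
  obtain ⟨B, hB, hBc⟩ := stCount V G R L w o' n d h.rR h.rL.cW h.dis.symm h.symm.nad ho' hwo' hd
    hdeg hn h.cR
  have hw : ec G {w} L + ec G {w} R ≤ ec G {w} univ := by
    rw [← ec_union_right h.dis]
    exact ec_mono_right (subset_univ _)
  have hwd : ec G {w} univ = d :=
    hdeg {w} (con_singleton w) rfl (by rw [ncard_singleton]; omega) w rfl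
  have h1 : 1 ≤ ec G {w} L := ec_pos_of_adj rfl ho' hwo'
  have h2 : 1 ≤ ec G {w} R := ec_pos_of_adj rfl ho hwo
  have h3 : n + 1 ≤ A.card + B.card := by
    by_cases hd3 : d = 3
    · rw [if_pos hd3] at hAc hBc
      omega
    · rw [if_neg hd3] at hAc hBc
      omega
  obtain ⟨x, hx, y, hy, hxy⟩ := pig2 (fun x hx => ⟨(hA x hx).1, (hA x hx).2.1⟩)
    (fun x hx => ⟨(hB x hx).1, (hB x hx).2.1⟩) h3
  obtain ⟨-, -, S, hS, hSx⟩ := hA x hx
  obtain ⟨-, -, S', hS', hSy⟩ := hB y hy
  exact ⟨S ∪ S', h.good hS hS' (by omega)⟩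

end T3

end Pool.Agent.Lib.MP_d9512b_co
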