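import Pool.Agent.Lib.MP_d9512b_co.T3.SL
import Pool.Agent.Lib.MP_d9512b_co.T3.JnGood

set_option autoImplicit false

/-!
(D1) The local theorem from the structure lemma.
-/

namespace Pool.Agent.Lib.MP_d9512b_co.T3

open Set

/-- (D1) from (C1). -/
theorem stLoc_of (hSL : StSL) : StLoc := by
  intro n hn
  obtain ⟨r, hr⟩ := hSL n hn
  refine ⟨r + n + 1, fun V _ G u b d hG hreg hb => ?_⟩
  obtain ⟨w, L, R, hw, hJ⟩ := hr V G u b hG fun h' => hb (h'.mono (by omega))
  have huu : Nr G u u (r + n + 1) :=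
    ⟨{u}, con_singleton u, rfl, rfl, by rw [ncard_singleton]; omega⟩
  have hd : 3 ≤ d := by
    have h1 : 3 ≤ (Nb G {u}).ncard := by
      refine hG.three_le ⟨u, rfl⟩ ?_
      have h1 := ncard_add_ncard_compl ({u} : Set V)
      rw [ncard_singleton] at h1
      have := hG.1
      omega
    have h2 : (Nb G {u} \ ∅).ncard ≤ ec G {u} (∅ ∪ {u})ᶜ := ncard_nb_le_ec {u}
    rw [sdiff_empty] at h2
    have h3 : ec G {u} (∅ ∪ {u})ᶜ ≤ ec G {u} univ := ec_mono_right (subset_univ _)
    rw [hreg u huu] at h3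
    omega
  exact stJn V G L R w n d hJ hn hd fun C hC hwC hCn x hx =>
    hreg x ((hw.ext hC hwC hx hCn).mono (by omega))

theorem stLoc_of_second (hSec : StSecond) : StLoc :=
  stLoc_of (stSL_of (stFar0 stStep) hSec)

end Pool.Agent.Lib.MP_d9512b_co.T3
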