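import Pool.Agent.Lib.MP_d9512b_co.T3.Defs

set_option autoImplicit false

/-!
The rooted `K_{2,3}` lemma without a condition on the numbers of neighbours: monotone version of
the induction of `CC/LemR.lean`.
-/

namespace Pool.Agent.Lib.MP_d9512b_co.T3

open Set Wb

variable {V : Type*} {H : SimpleGraph V} {t : Fin 4 → V} {W B Y D : Set V} {P : Fin 3 → Set V}
  {x y z v : V}

/-- Vertices of `P i` adjacent to `B ∪ Y`: at most one, or a smaller configuration. -/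
theorem kc_step [Finite V] (h : Kc H W t B Y P)
    (hWN : ∀ x ∈ W, ∀ y, H.Adj x y → y ∈ W ∨ ∃ j, t j = y) (hX : XF H t)
    (ih : ∀ (B' Y' : Set V) (P' : Fin 3 → Set V), kms B' Y' P' < kms B Y P → B ∪ Y ⊆ B' ∪ Y' →
      (∀ j, P' j ⊆ P j) → ¬ Kc H W t B' Y' P')
    (i : Fin 3) : ∃ w, ∀ v ∈ P i, v ∈ Nb H B ∨ v ∈ Nb H Y → v = w := by
  by_cases h2 : 2 ≤ (P i).ncard
  swap
  · obtain ⟨w, hw⟩ := (h.cP i).1
    refine ⟨w, fun v hv _ => ?_⟩
    by_contra hne
    have h3 : ({v, w} : Set V) ⊆ P i := by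
      rintro u (rfl | rfl)
      · exact hv
      · exact hw
    have h4 := ncard_le_ncard h3
    rw [ncard_pair hne] at h4
    exact h2 h4
  -- neighbours in `P i`
  have hin : ∀ {C : Set V} {v : V}, (∀ x ∈ P i, x ∉ C) → v ∈ P i → (∃ b ∈ C, H.Adj b v) →
      v ∈ Nb H C := fun {C v} hd hv hb => ⟨hd v hv, hb⟩
  -- a vertex which does not separate and is no terminal
  have keyA : ∀ z ∈ P i, Con H (P i \ {z}) → (∀ j, t j ≠ z) →
      ∀ v ∈ P i, v ∈ Nb H B ∨ v ∈ Nb H Y → v = z := by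
    intro z hz hc hzt
    have hdel : ¬ ((∃ b ∈ B, ∃ x ∈ P i \ {z}, H.Adj b x) ∧
        (∃ b ∈ Y, ∃ x ∈ P i \ {z}, H.Adj b x)) := by
      rintro ⟨hB, hY⟩
      obtain ⟨j, hj⟩ := h.tP i
      refine ih _ _ _ ?_ subset_rfl (upd_sub i z) (h.del i hc ⟨j, hj, hzt j⟩ hB hY)
      have := sum_upd (P := P) i hz
      unfold kms
      omega
    have hsum := sum_upd (P := P) i hz
    have hzB := h.BP i z hz
    have hzY := h.YP i z hz
    have hmB : z ∈ Nb H B → ¬ (∃ b ∈ Y, ∃ x ∈ P i \ {z}, H.Adj b x) := by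
      intro hB hY
      refine ih _ _ _ ?_ (union_subset_union_left _ (subset_insert z B)) (upd_sub i z)
        (h.mov i hz hc (mem_of_nb hWN h.BW hB hzt) hB hY)
      have h5 := ncard_compl_insert hzB
      unfold kms
      omega
    have hmY : z ∈ Nb H Y → ¬ (∃ b ∈ B, ∃ x ∈ P i \ {z}, H.Adj b x) := by
      intro hY hB
      refine ih _ _ _ ?_ (union_subset subset_union_right
        ((subset_insert z Y).trans subset_union_left)) (upd_sub i z)
        (h.swap.mov i hz hc (mem_of_nb hWN h.YW hY hzt) hY hB)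
      have h5 := ncard_compl_insert hzY
      unfold kms
      omega
    obtain ⟨b, hb, x, hx, hbx⟩ := h.aB i
    obtain ⟨y, hy, x', hx', hyx⟩ := h.aY i
    intro v hv hv'
    by_contra hvz
    rcases hv' with ⟨-, p, hp, hpv⟩ | ⟨-, p, hp, hpv⟩
    · -- `v` is adjacent to `B`
      have h6 : ∃ b ∈ B, ∃ x ∈ P i \ {z}, H.Adj b x := ⟨p, hp, v, ⟨hv, hvz⟩, hpv⟩
      have h7 : x' = z := by
        by_contra e
        exact hdel ⟨h6, y, hy, x', ⟨hx', e⟩, hyx⟩
      subst h7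
      exact hmY (hin (h.YP i) hx' ⟨y, hy, hyx⟩) h6
    · have h6 : ∃ b ∈ Y, ∃ x ∈ P i \ {z}, H.Adj b x := ⟨p, hp, v, ⟨hv, hvz⟩, hpv⟩
      have h7 : x = z := by
        by_contra e
        exact hdel ⟨⟨b, hb, x, ⟨hx, e⟩, hbx⟩, h6⟩
      subst h7
      exact hmB (hin (h.BP i) hx ⟨b, hb, hbx⟩) h6
  -- a terminal which does not separate
  have keyB : ∀ j, t j ∈ P i → Con H (P i \ {t j}) → (∃ k, t k ∈ P i ∧ t k ≠ t j) →
      (t j ∈ Nb H B ∧ ∀ v ∈ P i, v ∈ Nb H B → v = t j) ∨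
      (t j ∈ Nb H Y ∧ ∀ v ∈ P i, v ∈ Nb H Y → v = t j) := by
    intro j hj hc hk
    obtain ⟨k, hk, hkj⟩ := hk
    by_contra hcon
    push Not at hcon
    have h3 : ∃ b ∈ B, ∃ x ∈ P i \ {t j}, H.Adj b x := by
      by_contra h4
      push Not at h4
      obtain ⟨b, hb, x, hx, hbx⟩ := h.aB i
      have hxj : x = t j := by
        by_contra e
        exact h4 b hb x ⟨hx, e⟩ hbx
      subst hxj
      obtain ⟨v, hv, ⟨-, p, hp, hpv⟩, hvj⟩ := hcon.1 (hin (h.BP i) hx ⟨b, hb, hbx⟩)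
      exact h4 p hp v ⟨hv, hvj⟩ hpv
    have h3' : ∃ b ∈ Y, ∃ x ∈ P i \ {t j}, H.Adj b x := by
      by_contra h4
      push Not at h4
      obtain ⟨b, hb, x, hx, hbx⟩ := h.aY i
      have hxj : x = t j := by
        by_contra e
        exact h4 b hb x ⟨hx, e⟩ hbx
      subst hxj
      obtain ⟨v, hv, ⟨-, p, hp, hpv⟩, hvj⟩ := hcon.2 (hin (h.YP i) hx ⟨b, hb, hbx⟩)
      exact h4 p hp v ⟨hv, hvj⟩ hpv
    refine ih _ _ _ ?_ subset_rfl (upd_sub i (t j)) (h.del i hc ⟨k, hk, hkj⟩ h3 h3')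
    have := sum_upd (P := P) i hj
    unfold kms
    omega
  obtain ⟨x0, hx0⟩ := (h.cP i).1
  obtain ⟨z1, hz1, -, hc1⟩ := exists_noncut_ne (h.cP i) h2 hx0
  obtain ⟨z2, hz2, h21, hc2⟩ := exists_noncut_ne (h.cP i) h2 hz1
  by_cases ht1 : ∀ j, t j ≠ z1
  · exact ⟨z1, keyA z1 hz1 hc1 ht1⟩
  by_cases ht2 : ∀ j, t j ≠ z2
  · exact ⟨z2, keyA z2 hz2 hc2 ht2⟩
  push Not at ht1 ht2
  obtain ⟨j1, rfl⟩ := ht1
  obtain ⟨j2, rfl⟩ := ht2
  exfalso
  have h12 : j1 ≠ j2 := fun e => h21 (by rw [e])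
  rcases keyB j1 hz1 hc1 ⟨j2, hz2, h21⟩ with ⟨a1, b1⟩ | ⟨a1, b1⟩ <;>
    rcases keyB j2 hz2 hc2 ⟨j1, hz1, h21.symm⟩ with ⟨a2, b2⟩ | ⟨a2, b2⟩
  · exact h21 (b1 _ hz2 a2)
  · exact h.cross2 hX i h12 hz1 hz2 a1 a2 h21.symm
  · exact h.cross2 hX i h12.symm hz2 hz1 a2 a1 h21
  · exact h21 (b1 _ hz2 a2)

theorem stK23 : StK23 := by
  intro V _ H W t B Y P hX hWN h
  have main : ∀ n, ∀ (B Y : Set V) (P : Fin 3 → Set V), kms B Y P = n → Kc H W t B Y P →
      ∃ E ⊆ W, B ∪ Y ⊆ E ∧ ∃ w : Fin 3 → V, (∀ i, w i ∈ P i) ∧ Nb H E ⊆ {w 0, w 1, w 2} := by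
    intro n
    induction n using Nat.strong_induction_on with
    | _ n ih =>
      intro B Y P hn h
      by_contra hG
      have ih' : ∀ (B' Y' : Set V) (P' : Fin 3 → Set V), kms B' Y' P' < kms B Y P →
          B ∪ Y ⊆ B' ∪ Y' → (∀ j, P' j ⊆ P j) → ¬ Kc H W t B' Y' P' := by
        intro B' Y' P' hlt hBY hP hK
        obtain ⟨E, hEW, hE, w, hw, hN⟩ := ih _ (hn ▸ hlt) B' Y' P' rfl hK
        exact hG ⟨E, hEW, hBY.trans hE, w, fun i => hP i (hw i), hN⟩
      -- no neighbours outside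
      have h1 : ∀ v, v ∈ Nb H B ∨ v ∈ Nb H Y → v ∉ B → v ∉ Y → ∃ i, v ∈ P i := by
        intro v hv hvB hvY
        by_contra hcon
        push Not at hcon
        by_cases hvt : ∀ j, t j ≠ v
        · rcases hv with hv | hv
          · refine ih' _ _ _ ?_ (union_subset_union_left _ (subset_insert v B))
              (fun _ => subset_rfl) (h.addB hv hvY hcon (mem_of_nb hWN h.BW hv hvt))
            have := ncard_compl_insert hvB
            unfold kms
            omega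
          · refine ih' _ _ _ ?_ (union_subset subset_union_right
              ((subset_insert v Y).trans subset_union_left))
              (fun _ => subset_rfl) (h.swap.addB hv hvB hcon (mem_of_nb hWN h.YW hv hvt))
            have := ncard_compl_insert hvY
            unfold kms
            omega
        · push Not at hvt
          obtain ⟨k, rfl⟩ := hvt
          rcases hv with hv | hv
          · exact h.swap.cross1 hX hcon hv
          · exact h.cross1 hX hcon hv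
      choose w hw using kc_step h hWN hX ih'
      refine hG ⟨B ∪ Y, union_subset h.BW h.YW, subset_rfl, w, ?_, ?_⟩
      · intro i
        obtain ⟨b, hb, x, hx, hbx⟩ := h.aB i
        have h2 := hw i x hx (Or.inl ⟨h.BP i x hx, b, hb, hbx⟩)
        rw [← h2]
        exact hx
      · rintro v ⟨hv, c, hc, hcv⟩
        have hvB : v ∉ B := fun e => hv (Or.inl e)
        have hvY : v ∉ Y := fun e => hv (Or.inr e)
        have h3 : v ∈ Nb H B ∨ v ∈ Nb H Y := by
          rcases hc with hc | hc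
          · exact Or.inl ⟨hvB, c, hc, hcv⟩
          · exact Or.inr ⟨hvY, c, hc, hcv⟩
        obtain ⟨i, hi⟩ := h1 v h3 hvB hvY
        have h4 := hw i v hi h3
        fin_cases i
        · exact Or.inl h4
        · exact Or.inr (Or.inl h4)
        · exact Or.inr (Or.inr h4)
  exact main _ B Y P rfl h

end Pool.Agent.Lib.MP_d9512b_co.T3
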