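import Pool.Agent.Lib.MP_d9512b_co.T3.Max
import Pool.Agent.Lib.MP_d9512b_co.T3.K23

set_option autoImplicit false

/-!
(B6) The webs of the second chain, which lies inside of a web of the first chain.
-/

namespace Pool.Agent.Lib.MP_d9512b_co.T3.Sec

open Set

variable {V : Type*} {G H : SimpleGraph V} {A B E F K Q R S T W X Y : Set V}
  {a b c c' c1 d m1 m2 p q u v x y z : V}

/-! ### The two halves of a web -/

theorem cover [Finite V] (h : FarG G B u v) (hW : WL3 G B u v W c c1 m1 m2) (hz : z ∉ B) :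
    z ∈ insert c (Sd G B u c) ∨ z ∈ W ∨ z ∈ insert c1 (Sd G B v c1) := by
  rcases h.side_cov hW.hc hz with h1 | h1 | h1
  · exact Or.inl (Or.inl h1)
  · exact Or.inl (Or.inr h1)
  · rw [hW.right] at h1
    exact Or.inr h1

theorem con_side' (h : FarG G B u v) (hc : c ∈ Cut G Bᶜ u v) :
    Con G (insert c (Sd G B v c)) ∧ v ∈ insert c (Sd G B v c) :=
  h.symm.con_side (cut_comm (u := u) ▸ hc)

/-- If the removal of `F` does not separate, then a component of `W \ F` is adjacent to both. -/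
theorem through [Finite V] (h : FarG G B u v) (hW : WL3 G B u v W c c1 m1 m2)
    (hr : Rc G (Bᶜ \ F) u v) :
    ∃ z ∈ W \ F, c ∈ Nb G (cmp G (W \ F) z) ∧ c1 ∈ Nb G (cmp G (W \ F) z) := by
  by_contra hcon
  push Not at hcon
  have hWL : ∀ z ∈ W, z ∈ Sd G B u c1 := fun z hz => by
    rw [hW.left]
    exact Or.inl hz
  have hWR : ∀ z ∈ W, z ∈ Sd G B v c := fun z hz => by
    rw [hW.right]
    exact Or.inl hz
  have hLL : ∀ z ∈ insert c (Sd G B u c), z ∈ Sd G B u c1 := fun z hz => by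
    rw [hW.left]
    exact Or.inr hz
  have hc1R : c1 ∈ Sd G B v c := by
    rw [hW.right]
    exact Or.inr (Or.inl rfl)
  have hcW : c ∉ W := fun h' => (hW.WH h').2 hW.hc
  have hc1W : c1 ∉ W := fun h' => (hW.WH h').2 hW.hc1
  have h1 : v ∈ insert c (Sd G B u c) ∪ {z | z ∈ W \ F ∧ c ∈ Nb G (cmp G (W \ F) z)} := by
    refine hr.mem_closed (Or.inl (h.con_side hW.hc).2) ?_
    rintro p hp q hq hpq
    rcases cover h hW hq.1 with h1 | h1 | h1
    · exact Or.inl h1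
    · right
      have hqm : q ∈ W \ F := ⟨h1, hq.2⟩
      refine ⟨hqm, ?_⟩
      rcases hp with (rfl | hp) | ⟨hp, hpc⟩
      · exact ⟨fun h' => hcW (cmp_subset h').1, q, mem_cmp_self hqm, hpq.symm⟩
      · exact absurd hpq (sd_nadj hW.hc hp (hWR q h1))
      · have h2 : q ∈ cmp G (W \ F) p := cmp_closed (mem_cmp_self hp) hqm hpq
        rw [cmp_eq h2]
        exact hpc
    · exfalso
      have hpL : p ∈ Sd G B u c1 := by
        rcases hp with hp | hp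
        · exact hLL p hp
        · exact hWL p hp.1.1
      rcases h1 with rfl | h1
      · rcases hp with (rfl | hp) | ⟨hp, hpc⟩
        · exact hW.nadj hpq
        · exact sd_nadj hW.hc hp hc1R hpq
        · exact hcon p hp hpc ⟨fun h' => hc1W (cmp_subset h').1, p, mem_cmp_self hp, hpq⟩
      · exact sd_nadj hW.hc1 hpL h1 hpq
  rcases h1 with h1 | h1
  · have h2 := hLL v h1
    rcases (con_side' h hW.hc1).2 with h3 | h3
    · exact ne_of_sd h2 h3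
    · exact sd_disj hW.hc1 h2 h3
  · exact (hW.WH h1.1.1).2 (right_mem_cut h.hv)

theorem split [Finite V] (h : FarG G B u v) (hW : WL3 G B u v W c c1 m1 m2) :
    ∃ X Y, Con G X ∧ Con G Y ∧ (∀ z ∈ X, z ∉ Y) ∧ X ∪ Y = W ∧ c ∈ Nb G X ∧ c1 ∈ Nb G X ∧
      c ∈ Nb G Y ∧ c1 ∈ Nb G Y := by
  have hcW : c ∉ W := fun h' => (hW.WH h').2 hW.hc
  have hc1W : c1 ∉ W := fun h' => (hW.WH h').2 hW.hc1
  have hno : ¬ Rc G (Bᶜ \ W) u v := by
    intro hr
    obtain ⟨z, hz, -⟩ := through h hW hr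
    exact hz.2 hz.1
  have hN : Nb G W ∩ Bᶜ ⊆ Cut G Bᶜ u v := by
    rintro z ⟨hz, hzB⟩
    rw [hW.web.nb] at hz
    rcases hz with rfl | rfl | rfl | hz
    · exact hW.hc
    · exact hW.hc1
    · exact absurd hW.m1B hzB
    · rw [mem_singleton_iff] at hz
      exact absurd (hz ▸ hW.m2B) hzB
  obtain ⟨F1, F2, hcov, hF1, hF2, hc1, hc2, hr1, hr2⟩ :=
    split_comp h.con h.hu h.hv hW.web.con hW.WH hN hno
  obtain ⟨z, hz, hz1, hz2⟩ := through h hW hr1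
  obtain ⟨w, hw, hw1, hw2⟩ := through h hW hr2
  set Y := cmp G (W \ F1) z with hYdef
  have hYW : Y ⊆ W := fun y hy => (cmp_subset hy).1
  have hYF : ∀ y ∈ Y, y ∉ F1 := fun y hy => (cmp_subset hy).2
  have hKF : cmp G (W \ F2) w ⊆ F1 := fun y hy => by
    rcases hcov (cmp_subset hy).1 with h1 | h1
    · exact h1
    · exact absurd h1 (cmp_subset hy).2
  have hF1X : F1 ⊆ W \ Y := fun y hy => ⟨hF1 hy, fun h' => hYF y h' hy⟩
  refine ⟨W \ Y, Y, ?_, con_cmp hz, fun y hy => hy.2, sdiff_union_of_subset hYW, ?_, ?_, hz1,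
    hz2⟩
  · obtain ⟨f, hf⟩ := hc1.1
    have key : ∀ y ∈ W \ Y, Rc G (W \ Y) y f := by
      intro y hy
      by_cases hyF : y ∈ F1
      · exact hc1.rc hF1X hyF hf
      · have hy' : y ∈ W \ F1 := ⟨hy.1, hyF⟩
        obtain ⟨p, hp, q, hq, -, hqW, hpq⟩ := hW.web.con.exists_edge (X := cmp G (W \ F1) y)
          (mem_cmp_self hy') hy.1 (y := f) (fun h' => (cmp_subset h').2 hf) (hF1 hf)
        have hqF : q ∈ F1 := by
          by_contra e
          exact hq (cmp_closed hp ⟨hqW, e⟩ hpq)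
        have hK : cmp G (W \ F1) y ⊆ W \ Y := by
          intro k hk
          refine ⟨(cmp_subset hk).1, fun h' => hy.2 ?_⟩
          exact Rc.trans h' (Rc.symm hk)
        exact (((rc_cmp hp).mono hK).tail hpq (hF1X hqF)).trans (hc1.rc hF1X hqF hf)
    exact ⟨⟨f, hF1X hf⟩, fun a ha b hb => (key a ha).trans (key b hb).symm⟩
  · obtain ⟨-, k, hk, hkc⟩ := hw1
    exact ⟨fun h' => hcW h'.1, k, hF1X (hKF hk), hkc⟩
  · obtain ⟨-, k, hk, hkc⟩ := hw2
    exact ⟨fun h' => hc1W h'.1, k, hF1X (hKF hk), hkc⟩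

/-- Each half has at most one neighbour in `B`, as the two ends are connected through the other
half. -/
theorem one_le [Finite V] (h : FarG G B u v) (hW : WL3 G B u v W c c1 m1 m2) (hX : Con G X)
    (hXW : X ⊆ W) (hY : Con G Y) (hYW : Y ⊆ W) (hd : ∀ z ∈ X, z ∉ Y) (hc : c ∈ Nb G Y)
    (hc1 : c1 ∈ Nb G Y) : (Nb G X ∩ B).ncard ≤ 1 := by
  have hWB : W ⊆ Bᶜ := fun z hz => (hW.WH hz).1
  have s1 : insert c (Sd G B u c) ⊆ Bᶜ \ X := by
    rintro z (rfl | hz)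
    · exact ⟨hW.hc.1, fun h' => (hW.WH (hXW h')).2 hW.hc⟩
    · exact ⟨notMem_B_of_sd hz, fun h' => sd_disj hW.hc hz (by
        rw [hW.right]
        exact Or.inl (hXW h'))⟩
  have s2 : insert c1 (Sd G B v c1) ⊆ Bᶜ \ X := by
    rintro z (rfl | hz)
    · exact ⟨hW.hc1.1, fun h' => (hW.WH (hXW h')).2 hW.hc1⟩
    · exact ⟨notMem_B_of_sd hz, fun h' => sd_disj hW.hc1 (by
        rw [hW.left]
        exact Or.inl (hXW h')) hz⟩
  have h1 := h.con_side hW.hc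
  have h2 := con_side' h hW.hc1
  refine h.one X hX (hXW.trans hWB) (fun h' => (hW.WH (hXW h')).2 (left_mem_cut h.hu))
    (fun h' => (hW.WH (hXW h')).2 (right_mem_cut h.hv)) ?_
  exact ((h1.1.rc s1 h1.2 (mem_insert _ _)).trans (nb_link hY hc hc1
    (fun z hz => ⟨hWB (hYW hz), fun hz' => hd z hz' hz⟩) (s1 (mem_insert _ _))
    (s2 (mem_insert _ _)))).trans (h2.1.rc s2 (mem_insert _ _) h2.2)

/-! ### The graph of the frame -/

/-- The edges with an end in `W`, and one more edge `a b`. -/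
def fg (G : SimpleGraph V) (W : Set V) (a b : V) (hab : a ≠ b) : SimpleGraph V where
  Adj x y := (G.Adj x y ∧ (x ∈ W ∨ y ∈ W)) ∨ (x = a ∧ y = b) ∨ (x = b ∧ y = a)
  symm := ⟨fun x y h => by
    rcases h with h | h | h
    · exact Or.inl ⟨h.1.symm, h.2.symm⟩
    · exact Or.inr (Or.inr ⟨h.2, h.1⟩)
    · exact Or.inr (Or.inl ⟨h.2, h.1⟩)⟩
  loopless := ⟨fun x h => by
    rcases h with h | h | h
    · exact h.1.ne rfl
    · exact hab (h.1.symm.trans h.2)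
    · exact hab (h.2.symm.trans h.1)⟩

/-- A connection of two vertices contains a connected subset of `W` adjacent to both. -/
theorem inner (hHG : ∀ a ∈ W, ∀ b, H.Adj a b → G.Adj a b) (hA : Con H A) (hp : p ∈ A)
    (hq : q ∈ A) (hpq : p ≠ q) (hna : ¬ H.Adj p q) (hAW : A \ {p, q} ⊆ W) :
    ∃ F ⊆ A, F ⊆ W ∧ Con G F ∧ (∃ u ∈ F, G.Adj u p) ∧ (∃ u ∈ F, G.Adj u q) := by
  by_contra hcon
  push Not at hcon
  have h2 : q ∈ insert p {x | x ∈ A \ {p, q} ∧ ∃ u ∈ cmp G (A \ {p, q}) x, G.Adj u p} := by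
    refine (hA.2 p hp q hq).mem_closed (mem_insert p _) ?_
    rintro a ha b hb hab
    by_cases hbp : b = p
    · exact Or.inl hbp
    right
    by_cases hbq : b = q
    · exfalso
      subst hbq
      rcases ha with rfl | ⟨ha, u, hu, hup⟩
      · exact hna hab
      · exact hcon (cmp G (A \ {p, b}) a) (fun x hx => (cmp_subset hx).1)
          (fun x hx => hAW (cmp_subset hx)) (con_cmp ha) ⟨u, hu, hup⟩ a
          (mem_cmp_self ha) (hHG a (hAW ha) b hab)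
    · have hbA : b ∈ A \ {p, q} := ⟨hb, fun e => e.elim hbp hbq⟩
      rcases ha with rfl | ⟨ha, u, hu, hup⟩
      · exact ⟨hbA, b, mem_cmp_self hbA, hHG b (hAW hbA) _ hab.symm⟩
      · refine ⟨hbA, u, ?_, hup⟩
        have h3 : b ∈ cmp G (A \ {p, q}) a := cmp_closed (mem_cmp_self ha) hbA
          (hHG a (hAW ha) b hab)
        rw [cmp_eq h3]
        exact hu
  rcases h2 with h2 | h2
  · exact hpq h2.symm
  · exact h2.1.2 (Or.inr rfl)

theorem fg_HG (hab : a ≠ b) (ha : a ∉ W) (hb : b ∉ W) :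
    ∀ x ∈ W, ∀ y, (fg G W a b hab).Adj x y → G.Adj x y := by
  rintro x hx y (h | h | h)
  · exact h.1
  · exact absurd (h.1 ▸ hx) ha
  · exact absurd (h.1 ▸ hx) hb

theorem xf_fg (h : Web3 G W c c' m1 m2) (hcc' : c ≠ c') (hcm2 : c ≠ m2) (hc'm1 : c' ≠ m1)
    (hc'm2 : c' ≠ m2) (hmm : m1 ≠ m2) : Wb.XF (fg G W c' m2 hc'm2) ![c, c', m1, m2] := by
  intro A B hA hB h0 h1 h2 h3 hd
  simp only [Matrix.cons_val] at h0 h1 h2 h3
  rw [Set.disjoint_left] at hd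
  have hcN : c ∈ Nb G W := by rw [h.nb]; exact Or.inl rfl
  have hc'N : c' ∈ Nb G W := by rw [h.nb]; exact Or.inr (Or.inl rfl)
  have hm1N : m1 ∈ Nb G W := by rw [h.nb]; exact Or.inr (Or.inr (Or.inl rfl))
  have hm2N : m2 ∈ Nb G W := by rw [h.nb]; exact Or.inr (Or.inr (Or.inr rfl))
  have hmem : ∀ x y, (fg G W c' m2 hc'm2).Adj x y → x ∈ W ∨ x = c ∨ x = c' ∨ x = m1 ∨ x = m2 := by
    rintro x y (h4 | h4 | h4)
    · by_cases hx : x ∈ W
      · exact Or.inl hx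
      · right
        have h5 : x ∈ Nb G W := ⟨hx, y, h4.2.resolve_left hx, h4.1.symm⟩
        rw [h.nb] at h5
        exact h5
    · exact Or.inr (Or.inr (Or.inl h4.1))
    · exact Or.inr (Or.inr (Or.inr (Or.inr h4.1)))
  have hin : ∀ {A : Set V} {p : V}, Con (fg G W c' m2 hc'm2) A → p ∈ A → ∀ x ∈ A, x ≠ p →
      x ∈ W ∨ x = c ∨ x = c' ∨ x = m1 ∨ x = m2 := by
    intro A p hA hp x hx hxp
    have hxp' : p ∉ ({x} : Set V) := fun e => hxp (mem_singleton_iff.1 e).symm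
    obtain ⟨a, ha, b, -, -, -, hab⟩ := hA.exists_edge (X := {x}) (x := x) rfl hx (y := p) hxp' hp
    rw [mem_singleton_iff] at ha
    subst ha
    exact hmem _ _ hab
  have hHG := fg_HG (G := G) hc'm2 hc'N.1 hm2N.1
  obtain ⟨F, hFA, hFW, hF, ⟨u, hu, hu0⟩, v, hv, hv1⟩ := inner hHG hA h0 h1 hcc' (by
    rintro (h4 | h4 | h4)
    · exact h4.2.elim hcN.1 hc'N.1
    · exact hcc' h4.1
    · exact hcm2 h4.1) (by
    rintro z ⟨hz, hz'⟩
    rcases hin hA h0 z hz (fun e => hz' (Or.inl e)) with h4 | h4 | h4 | h4 | h4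
    · exact h4
    · exact absurd (Or.inl h4) hz'
    · exact absurd (Or.inr h4) hz'
    · exact absurd (h4 ▸ h2) (hd hz)
    · exact absurd (h4 ▸ h3) (hd hz))
  obtain ⟨F', hFB, hFW', hF', ⟨u', hu', hu2⟩, v', hv', hv3⟩ := inner hHG hB h2 h3 hmm (by
    rintro (h4 | h4 | h4)
    · exact h4.2.elim hm1N.1 hm2N.1
    · exact hc'm1 h4.1.symm
    · exact hmm h4.1) (by
    rintro z ⟨hz, hz'⟩
    rcases hin hB h2 z hz (fun e => hz' (Or.inl e)) with h4 | h4 | h4 | h4 | h4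
    · exact h4
    · exact absurd hz (h4 ▸ hd h0)
    · exact absurd hz (h4 ▸ hd h1)
    · exact absurd (Or.inl h4) hz'
    · exact absurd (Or.inr h4) hz')
  refine h.nox F F' hFW hFW' hF hF' ?_ ⟨fun e => hcN.1 (hFW e), u, hu, hu0⟩
    ⟨fun e => hc'N.1 (hFW e), v, hv, hv1⟩ ⟨fun e => hm1N.1 (hFW' e), u', hu', hu2⟩
    ⟨fun e => hm2N.1 (hFW' e), v', hv', hv3⟩
  rw [Set.disjoint_left]
  exact fun x hx hx' => hd (hFA hx) (hFB hx')

/-- Connected sets in `W ∪ {c}`. -/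
theorem con_fg (hab : a ≠ b) (hA : Con G A) (hAW : A ⊆ insert c W) : Con (fg G W a b hab) A := by
  refine ⟨hA.1, fun x hx y hy => ?_⟩
  refine (hA.2 x hx y hy).induct (P := fun y => Rc (fg G W a b hab) A x y) (Rc.refl hx) ?_
  intro p q hp h1 hq hpq
  refine h1.tail (Or.inl ⟨hpq, ?_⟩) hq
  rcases hAW hp.right_mem with h2 | h2
  · rcases hAW hq with h3 | h3
    · exact absurd (h2.trans h3.symm) hpq.ne
    · exact Or.inr h3
  · exact Or.inl h2

/-- In the maximal situation the neighbour of a half in `Q` is not `m1`. -/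
theorem ne_m1 [Finite V] {Q : Set V} {W1 : Set V} {d d1 k1 k2 : V} (hF : FarG G Q c x)
    (hmax : ∀ F : Set V, Con G F → F ⊆ Qᶜ → c ∉ F →
      (∃ x' ∈ {x | x ∈ W ∧ G.Adj x m1}, Rc G (Qᶜ \ F) c x') → (Nb G F ∩ Q).ncard ≤ 1)
    (hxm : G.Adj x m1) (hm1Q : m1 ∈ Q) (hW1 : WL3 G Q c x W1 d d1 k1 k2) (hW1W : W1 ⊆ W)
    (hX : Con G X) (hXW : X ⊆ W1) (hY : Con G Y) (hYW : Y ⊆ W1) (hd : ∀ z ∈ X, z ∉ Y)
    (hXd : d ∈ Nb G X) (hYd1 : d1 ∈ Nb G Y) {kX kY : V} (hkX : kX ∈ Nb G X) (hkY : kY ∈ Nb G Y)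
    (hkYQ : kY ∈ Q) (hne : kX ≠ kY) : kX ≠ m1 := by
  rintro rfl
  have hWQ : ∀ z ∈ W1, z ∉ Q := fun z hz => (hW1.WH hz).1
  have hR := con_side' hF hW1.hc1
  have hL := hF.con_side hW1.hc
  have hLL : ∀ z ∈ insert d (Sd G Q c d), z ∈ Sd G Q c d1 := fun z hz => by
    rw [hW1.left]
    exact Or.inr hz
  have hWL : ∀ z ∈ W1, z ∈ Sd G Q c d1 := fun z hz => by
    rw [hW1.left]
    exact Or.inl hz
  have hWR : ∀ z ∈ W1, z ∈ Sd G Q x d := fun z hz => by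
    rw [hW1.right]
    exact Or.inl hz
  -- the set `F`
  obtain ⟨hd1Y, y, hy, hyd1⟩ := hYd1
  have hF' : Con G (insert d1 (Sd G Q x d1) ∪ Y) :=
    hR.1.union_adj hY (mem_insert _ _) hy hyd1.symm
  have hnotL : ∀ z ∈ insert d1 (Sd G Q x d1), z ∉ Sd G Q c d1 := by
    rintro z (rfl | hz) hz'
    · exact notMem_sd_self hz'
    · exact sd_disj hW1.hc1 hz' hz
  have hFQ : insert d1 (Sd G Q x d1) ∪ Y ⊆ Qᶜ := by
    rintro z ((rfl | hz) | hz)
    · exact hW1.hc1.1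
    · exact notMem_B_of_sd hz
    · exact hWQ z (hYW hz)
  have hcF : c ∉ insert d1 (Sd G Q x d1) ∪ Y := by
    rintro (h1 | h1)
    · exact hnotL c h1 (hLL c hL.2)
    · exact (hW1.WH (hYW h1)).2 (left_mem_cut hF.hu)
  obtain ⟨hkX', x', hx', hx'k⟩ := hkX
  have hdisj : ∀ z ∈ insert d (Sd G Q c d), z ∉ insert d1 (Sd G Q x d1) ∪ Y := by
    rintro z hz (h1 | h1)
    · exact hnotL z h1 (hLL z hz)
    · rcases hz with rfl | hz
      · exact (hW1.WH (hYW h1)).2 hW1.hc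
      · exact sd_disj hW1.hc hz (hWR z (hYW h1))
  have hdQ : ∀ z ∈ insert d (Sd G Q c d), z ∉ Q := by
    rintro z (rfl | hz)
    · exact hW1.hc.1
    · exact notMem_B_of_sd hz
  have hXs : X ⊆ Qᶜ \ (insert d1 (Sd G Q x d1) ∪ Y) := by
    intro z hz
    refine ⟨hWQ z (hXW hz), ?_⟩
    rintro (h1 | h1)
    · exact hnotL z h1 (hWL z (hXW hz))
    · exact hd z hz h1
  obtain ⟨hdX, w, hw, hwd⟩ := hXd
  have hr : Rc G (Qᶜ \ (insert d1 (Sd G Q x d1) ∪ Y)) c x' := by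
    have h1 : Rc G (Qᶜ \ (insert d1 (Sd G Q x d1) ∪ Y)) c d :=
      hL.1.rc (fun z hz => ⟨hdQ z hz, hdisj z hz⟩) hL.2 (mem_insert _ _)
    exact (h1.tail hwd.symm (hXs hw)).trans (hX.rc hXs hw hx')
  have h1 := hmax _ hF' hFQ hcF ⟨x', ⟨hW1W (hXW hx'), hx'k⟩, hr⟩
  have h2 : ({kX, kY} : Set V) ⊆ Nb G (insert d1 (Sd G Q x d1) ∪ Y) ∩ Q := by
    rintro z (rfl | hz)
    · exact ⟨⟨fun h3 => hFQ h3 hm1Q, x, Or.inl hR.2, hxm⟩, hm1Q⟩
    · rw [mem_singleton_iff] at hz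
      subst hz
      obtain ⟨-, y', hy', hy'k⟩ := hkY
      exact ⟨⟨fun h3 => hFQ h3 hkYQ, y', Or.inr hy', hy'k⟩, hkYQ⟩
  have h3 := ncard_le_ncard h2 (toFinite _)
  rw [ncard_pair hne] at h3
  omega

/-- The three neighbours. -/
theorem main {V : Type} [Finite V] {G : SimpleGraph V} {Q W W1 : Set V}
    {c c' m1 m2 x d d1 k1 k2 : V} (h : Cn3 G) (hW : Web3 G W c c' m1 m2) (hcc' : c ≠ c')
    (hcm1 : c ≠ m1) (hcm2 : c ≠ m2) (hc'm1 : c' ≠ m1) (hc'm2 : c' ≠ m2) (hmm : m1 ≠ m2)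
    (hQ : (insert c W)ᶜ ⊆ Q) (hF : FarG G Q c x)
    (hmax : ∀ F : Set V, Con G F → F ⊆ Qᶜ → c ∉ F →
      (∃ x' ∈ {x | x ∈ W ∧ G.Adj x m1}, Rc G (Qᶜ \ F) c x') → (Nb G F ∩ Q).ncard ≤ 1)
    (hxm : G.Adj x m1) (hW1 : WL3 G Q c x W1 d d1 k1 k2) :
    ∃ E ⊆ W, W1 ⊆ E ∧ ∃ p0 ∈ insert d (Sd G Q c d), ∃ p1 ∈ insert m1 (insert d1 (Sd G Q x d1)),
      ∃ p2, p2 ≠ m1 ∧ p0 ≠ p1 ∧ p0 ≠ p2 ∧ p1 ≠ p2 ∧ Nb G E = {p0, p1, p2} := by
  have hcN : c ∈ Nb G W := by rw [hW.nb]; exact Or.inl rfl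
  have hc'N : c' ∈ Nb G W := by rw [hW.nb]; exact Or.inr (Or.inl rfl)
  have hm1N : m1 ∈ Nb G W := by rw [hW.nb]; exact Or.inr (Or.inr (Or.inl rfl))
  have hm2N : m2 ∈ Nb G W := by rw [hW.nb]; exact Or.inr (Or.inr (Or.inr rfl))
  have hout : ∀ z ∈ Nb G W, z ≠ c → z ∈ Q := fun z hz hne =>
    hQ fun h' => h'.elim hne hz.1
  have hc'Q : c' ∈ Q := hout c' hc'N hcc'.symm
  have hm1Q : m1 ∈ Q := hout m1 hm1N hcm1.symm
  have hm2Q : m2 ∈ Q := hout m2 hm2N hcm2.symm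
  have hcQ : c ∉ Q := hF.hu
  have hQW : Qᶜ ⊆ insert c W := compl_subset_comm.1 hQ
  have hcut : c ∈ Cut G Qᶜ c x := left_mem_cut hcQ
  have hW1W : W1 ⊆ W := fun z hz => (hQW (hW1.WH hz).1).resolve_left
    (fun e => (hW1.WH hz).2 (e ▸ hcut))
  have hW1Q : ∀ z ∈ W1, z ∉ Q := fun z hz => (hW1.WH hz).1
  obtain ⟨X, Y, hX, hY, hXY, hun, hXd, hXd1, hYd, hYd1⟩ := split hF hW1
  have hXW1 : X ⊆ W1 := by
    rw [← hun]
    exact subset_union_left
  have hYW1 : Y ⊆ W1 := by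
    rw [← hun]
    exact subset_union_right
  have hYX : ∀ z ∈ Y, z ∉ X := fun z hz hz' => hXY z hz' hz
  have hX1 := one_le hF hW1 hX hXW1 hY hYW1 hXY hYd hYd1
  have hY1 := one_le hF hW1 hY hYW1 hX hXW1 hYX hXd hXd1
  -- the two neighbours in `Q`
  have hk : ∀ k, k ∈ Nb G W1 → k ∈ Nb G X ∨ k ∈ Nb G Y ∨ k ∈ W1 := by
    rintro k ⟨hk, w, hw, hwk⟩
    rw [← hun] at hw
    rcases hw with hw | hw
    · exact Or.inl ⟨fun h' => hk (hXW1 h'), w, hw, hwk⟩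
    · exact Or.inr (Or.inl ⟨fun h' => hk (hYW1 h'), w, hw, hwk⟩)
  have hk1N : k1 ∈ Nb G W1 := by rw [hW1.web.nb]; exact Or.inr (Or.inr (Or.inl rfl))
  have hk2N : k2 ∈ Nb G W1 := by rw [hW1.web.nb]; exact Or.inr (Or.inr (Or.inr rfl))
  obtain ⟨kX, kY, hkX, hkY, hkXQ, hkYQ, hkne⟩ : ∃ kX kY, kX ∈ Nb G X ∧ kY ∈ Nb G Y ∧ kX ∈ Q ∧
      kY ∈ Q ∧ kX ≠ kY := by
    have hle : ∀ Z : Set V, (Nb G Z ∩ Q).ncard ≤ 1 → k1 ∈ Nb G Z → k2 ∈ Nb G Z → False := by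
      intro Z hZ h1 h2
      have h3 : ({k1, k2} : Set V) ⊆ Nb G Z ∩ Q := by
        rintro z (rfl | hz)
        · exact ⟨h1, hW1.m1B⟩
        · rw [mem_singleton_iff] at hz
          exact hz ▸ ⟨h2, hW1.m2B⟩
      have h4 := ncard_le_ncard h3 (toFinite _)
      rw [ncard_pair hW1.mne] at h4
      omega
    rcases hk k1 hk1N with h1 | h1 | h1
    · rcases hk k2 hk2N with h2 | h2 | h2
      · exact absurd h2 (hle X hX1 h1)
      · exact ⟨k1, k2, h1, h2, hW1.m1B, hW1.m2B, hW1.mne⟩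
      · exact absurd h2 hk2N.1
    · rcases hk k2 hk2N with h2 | h2 | h2
      · exact ⟨k2, k1, h2, h1, hW1.m2B, hW1.m1B, hW1.mne.symm⟩
      · exact absurd h2 (hle Y hY1 h1)
      · exact absurd h2 hk2N.1
    · exact absurd h1 hk1N.1
  have hkXm := ne_m1 hF hmax hxm hm1Q hW1 hW1W hX hXW1 hY hYW1 hXY hXd hYd1 hkX hkY hkYQ hkne
  have hkYm := ne_m1 hF hmax hxm hm1Q hW1 hW1W hY hYW1 hX hXW1 hYX hYd hXd1 hkY hkX hkXQ
    hkne.symm
  -- the frame graph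
  set H : SimpleGraph V := fg G W c' m2 hc'm2 with hHdef
  have hadj : ∀ {p q : V}, p ∈ W → G.Adj p q → H.Adj p q := fun hp hpq => Or.inl ⟨hpq, Or.inl hp⟩
  have hHG := fg_HG (G := G) hc'm2 hc'N.1 hm2N.1
  set P2 : Set V := (Q \ {m1}) ∩ (W ∪ {c', m2}) with hP2
  have hm2P : m2 ∈ P2 := ⟨⟨hm2Q, fun e => hmm (mem_singleton_iff.1 e).symm⟩, Or.inr (Or.inr rfl)⟩
  have hc'P : c' ∈ P2 := ⟨⟨hc'Q, fun e => hc'm1 (mem_singleton_iff.1 e)⟩, Or.inr (Or.inl rfl)⟩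
  have hP2c : Con H P2 := by
    have key : ∀ z ∈ P2, Rc H P2 z m2 := by
      intro z hz
      by_contra hcon
      have hK : ∀ k ∈ cmp H P2 z, k ∈ W := by
        intro k hk
        rcases (cmp_subset hk).2 with h1 | h1 | h1
        · exact h1
        · exfalso
          refine hcon (Rc.tail hk (Or.inr (Or.inl ⟨h1, rfl⟩)) hm2P)
        · rw [mem_singleton_iff] at h1
          exact absurd (h1 ▸ hk) hcon
      have h1 : Rc G (Q \ {m1}) z m2 := hF.sol.rc m1 hz.1.1 hm2Q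
        (fun e => hz.1.2 e) hmm.symm
      have h2 : m2 ∈ cmp H P2 z := by
        refine h1.mem_closed (mem_cmp_self hz) ?_
        intro p hp q hq hpq
        have hpW := hK p hp
        refine cmp_closed hp ⟨hq, ?_⟩ (hadj hpW hpq)
        by_cases hqW : q ∈ W
        · exact Or.inl hqW
        · right
          have h3 : q ∈ Nb G W := ⟨hqW, p, hpW, hpq⟩
          rw [hW.nb] at h3
          rcases h3 with h3 | h3 | h3 | h3
          · exact absurd (h3 ▸ hq.1) hcQ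
          · exact Or.inl h3
          · exact absurd h3 hq.2
          · exact Or.inr h3
      exact hcon h2
    exact ⟨⟨m2, hm2P⟩, fun p hp q hq => (key p hp).trans (key q hq).symm⟩
  have hL := hF.con_side hW1.hc
  have hR := con_side' hF hW1.hc1
  have hLQ : ∀ z ∈ insert d (Sd G Q c d), z ∉ Q := by
    rintro z (rfl | hz)
    · exact hW1.hc.1
    · exact notMem_B_of_sd hz
  have hRQ : ∀ z ∈ insert d1 (Sd G Q x d1), z ∉ Q := by
    rintro z (rfl | hz)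
    · exact hW1.hc1.1
    · exact notMem_B_of_sd hz
  have hLL : ∀ z ∈ insert d (Sd G Q c d), z ∈ Sd G Q c d1 := fun z hz => by
    rw [hW1.left]
    exact Or.inr hz
  have hnotL : ∀ z ∈ insert d1 (Sd G Q x d1), z ∉ Sd G Q c d1 := by
    rintro z (rfl | hz) hz'
    · exact notMem_sd_self hz'
    · exact sd_disj hW1.hc1 hz' hz
  have hWL : ∀ z ∈ W1, z ∈ Sd G Q c d1 := fun z hz => by
    rw [hW1.left]
    exact Or.inl hz
  have hWR : ∀ z ∈ W1, z ∈ Sd G Q x d := fun z hz => by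
    rw [hW1.right]
    exact Or.inl hz
  have hLW : ∀ z ∈ insert d (Sd G Q c d), z ∉ W1 := by
    rintro z (rfl | hz) hz'
    · exact (hW1.WH hz').2 hW1.hc
    · exact sd_disj hW1.hc hz (hWR z hz')
  have hRW : ∀ z ∈ insert d1 (Sd G Q x d1), z ∉ W1 := fun z hz hz' => hnotL z hz (hWL z hz')
  have hP0c : Con H (insert d (Sd G Q c d)) :=
    con_fg hc'm2 hL.1 fun z hz => hQW (hLQ z hz)
  have hP1c : Con H (insert m1 (insert d1 (Sd G Q x d1))) := by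
    refine (con_fg hc'm2 hR.1 fun z hz => hQW (hRQ z hz)).ins hR.2 (hadj ?_ hxm)
    refine (hQW (hRQ x hR.2)).resolve_left fun e => ?_
    exact hnotL x hR.2 (e ▸ hLL c hL.2)
  have hKc : Wb.Kc H W ![c, c', m1, m2] X Y
      ![insert d (Sd G Q c d), insert m1 (insert d1 (Sd G Q x d1)), P2] := by
    have hkP : ∀ k ∈ Nb G W1, k ∈ Q → k ≠ m1 → k ∈ P2 := by
      rintro k ⟨-, w, hw, hwk⟩ hkQ hkm
      refine ⟨⟨hkQ, hkm⟩, ?_⟩
      by_cases hkW : k ∈ W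
      · exact Or.inl hkW
      · right
        have h3 : k ∈ Nb G W := ⟨hkW, w, hW1W hw, hwk⟩
        rw [hW.nb] at h3
        rcases h3 with h3 | h3 | h3 | h3
        · exact absurd (h3 ▸ hkQ) hcQ
        · exact Or.inl h3
        · exact absurd h3 hkm
        · exact Or.inr h3
    have hup : ∀ Z ⊆ W1, ∀ k ∈ Nb G Z, k ∈ Q → k ∈ Nb G W1 := by
      rintro Z hZ k ⟨-, w, hw, hwk⟩ hkQ
      exact ⟨fun h' => hW1Q k h' hkQ, w, hZ hw, hwk⟩
    have hconG : ∀ {Z : Set V}, Con G Z → Z ⊆ W1 → Con H Z := fun hZ hZW =>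
      con_fg (c := c) hc'm2 hZ fun z hz => Or.inr (hW1W (hZW hz))
    have hatt : ∀ Z ⊆ W1, d ∈ Nb G Z → d1 ∈ Nb G Z → (∃ k, k ∈ Nb G Z ∧ k ∈ Q ∧ k ≠ m1) →
        ∀ i : Fin 3, ∃ b ∈ Z, ∃ x' ∈ (![insert d (Sd G Q c d),
          insert m1 (insert d1 (Sd G Q x d1)), P2] : Fin 3 → Set V) i, H.Adj b x' := by
      rintro Z hZ ⟨-, w, hw, hwd⟩ ⟨-, w', hw', hwd'⟩ ⟨k, hkN, hkQ, hkm⟩ i
      obtain ⟨-, w'', hw'', hwd''⟩ := id hkN
      fin_cases i
      · exact ⟨w, hw, d, Or.inl rfl, hadj (hW1W (hZ hw)) hwd⟩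
      · exact ⟨w', hw', d1, Or.inr (Or.inl rfl), hadj (hW1W (hZ hw')) hwd'⟩
      · exact ⟨w'', hw'', k, hkP k (hup Z hZ k hkN hkQ) hkQ hkm, hadj (hW1W (hZ hw'')) hwd''⟩
    have hdis : ∀ Z ⊆ W1, ∀ i : Fin 3, ∀ x' ∈ (![insert d (Sd G Q c d),
          insert m1 (insert d1 (Sd G Q x d1)), P2] : Fin 3 → Set V) i, x' ∉ Z := by
      intro Z hZ i x' hx' hx'Z
      fin_cases i
      · exact hLW x' hx' (hZ hx'Z)
      · rcases hx' with hx' | hx'
        · exact hW1Q x' (hZ hx'Z) (hx' ▸ hm1Q)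
        · exact hRW x' hx' (hZ hx'Z)
      · exact hW1Q x' (hZ hx'Z) hx'.1.1
    exact {
      cB := hconG hX hXW1
      cY := hconG hY hYW1
      cP := fun i => by
        fin_cases i
        · exact hP0c
        · exact hP1c
        · exact hP2c
      tW := fun j => by
        fin_cases j
        · exact hcN.1
        · exact hc'N.1
        · exact hm1N.1
        · exact hm2N.1
      BW := hXW1.trans hW1W
      YW := hYW1.trans hW1W
      tP := fun i => by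
        fin_cases i
        · exact ⟨0, hL.2⟩
        · exact ⟨2, Or.inl rfl⟩
        · exact ⟨3, hm2P⟩
      BY := hXY
      BP := hdis X hXW1
      YP := hdis Y hYW1
      PP := fun i j hij x' hx' hx'' => by
        have h01 : ∀ z ∈ insert d (Sd G Q c d), z ∉ insert m1 (insert d1 (Sd G Q x d1)) := by
          rintro z hz (h1 | h1)
          · exact hLQ z hz (h1 ▸ hm1Q)
          · exact hnotL z h1 (hLL z hz)
        have h02 : ∀ z ∈ insert d (Sd G Q c d), z ∉ P2 := fun z hz h1 => hLQ z hz h1.1.1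
        have h12 : ∀ z ∈ insert m1 (insert d1 (Sd G Q x d1)), z ∉ P2 := by
          rintro z (hz | hz) h1
          · exact h1.1.2 hz
          · exact hRQ z hz h1.1.1
        fin_cases i <;> fin_cases j
        · exact hij rfl
        · exact h01 x' hx' hx''
        · exact h02 x' hx' hx''
        · exact h01 x' hx'' hx'
        · exact hij rfl
        · exact h12 x' hx' hx''
        · exact h02 x' hx'' hx'
        · exact h12 x' hx'' hx'
        · exact hij rfl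
      aB := hatt X hXW1 hXd hXd1 ⟨kX, hkX, hkXQ, hkXm⟩
      aY := hatt Y hYW1 hYd hYd1 ⟨kY, hkY, hkYQ, hkYm⟩ }
  have hWN : ∀ x ∈ W, ∀ y, H.Adj x y → y ∈ W ∨ ∃ j, (![c, c', m1, m2] : Fin 4 → V) j = y := by
    intro p hp q hpq
    by_cases hqW : q ∈ W
    · exact Or.inl hqW
    · right
      have h3 : q ∈ Nb G W := ⟨hqW, p, hp, hHG p hp q hpq⟩
      rw [hW.nb] at h3
      rcases h3 with h3 | h3 | h3 | h3
      · exact ⟨0, h3.symm⟩
      · exact ⟨1, h3.symm⟩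
      · exact ⟨2, h3.symm⟩
      · exact ⟨3, (mem_singleton_iff.1 h3).symm⟩
  obtain ⟨E, hEW, hXYE, w, hw, hN⟩ := stK23 V H W ![c, c', m1, m2] X Y _
    (xf_fg hW hcc' hcm2 hc'm1 hc'm2 hmm) hWN hKc
  have hNE : Nb G E ⊆ {w 0, w 1, w 2} := by
    rintro z ⟨hz, e, he, hez⟩
    exact hN ⟨hz, e, he, hadj (hEW he) hez⟩
  obtain ⟨e0, he0⟩ := hX.1
  have h3 : 3 ≤ (Nb G E).ncard := by
    refine h.three_le ⟨e0, hXYE (Or.inl he0)⟩ ?_
    rw [← ncard_three hc'm1 hc'm2 hmm]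
    refine ncard_le_ncard ?_ (toFinite _)
    rintro z (rfl | rfl | hz) hzE
    · exact hc'N.1 (hEW hzE)
    · exact hm1N.1 (hEW hzE)
    · rw [mem_singleton_iff] at hz
      exact hm2N.1 (hEW (hz ▸ hzE))
  have hNE' := mem_of_three hNE h3
  have hne : w 0 ≠ w 1 ∧ w 0 ≠ w 2 ∧ w 1 ≠ w 2 := by
    rw [hNE'] at h3
    refine ⟨fun e => ?_, fun e => ?_, fun e => ?_⟩
    · have h4 : ({w 0, w 1, w 2} : Set V) ⊆ {w 1, w 2} := by
        rintro z (rfl | hz)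
        · exact Or.inl e
        · exact hz
      have h5 := ncard_le_ncard h4 (toFinite _)
      have h6 := ncard_insert_le (w 1) ({w 2} : Set V)
      rw [ncard_singleton] at h6
      omega
    · have h4 : ({w 0, w 1, w 2} : Set V) ⊆ {w 1, w 2} := by
        rintro z (rfl | hz)
        · exact Or.inr e
        · exact hz
      have h5 := ncard_le_ncard h4 (toFinite _)
      have h6 := ncard_insert_le (w 1) ({w 2} : Set V)
      rw [ncard_singleton] at h6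
      omega
    · have h4 : ({w 0, w 1, w 2} : Set V) ⊆ {w 0, w 2} := by
        rintro z (rfl | rfl | hz)
        · exact Or.inl rfl
        · exact Or.inr e
        · exact Or.inr hz
      have h5 := ncard_le_ncard h4 (toFinite _)
      have h6 := ncard_insert_le (w 0) ({w 2} : Set V)
      rw [ncard_singleton] at h6
      omega
  refine ⟨E, hEW, ?_, w 0, hw 0, w 1, hw 1, w 2, ?_, hne.1, hne.2.1, hne.2.2, hNE'⟩
  · rw [← hun]
    exact hXYE
  · have h4 : w 2 ∈ P2 := hw 2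
    exact fun e => h4.1.2 e

end Pool.Agent.Lib.MP_d9512b_co.T3.Sec

namespace Pool.Agent.Lib.MP_d9512b_co.T3

open Set

/-- (B6) -/
theorem stSecond : StSecond := by
  classical
  intro V _ G W c c' m1 m2 h hW hcc' hcm1 hcm2 hc'm1 hc'm2 hmm hsol
  have hcN : c ∈ Nb G W := by rw [hW.nb]; exact Or.inl rfl
  have hc'N : c' ∈ Nb G W := by rw [hW.nb]; exact Or.inr (Or.inl rfl)
  have hm1N : m1 ∈ Nb G W := by rw [hW.nb]; exact Or.inr (Or.inr (Or.inl rfl))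
  have hm2N : m2 ∈ Nb G W := by rw [hW.nb]; exact Or.inr (Or.inr (Or.inr rfl))
  obtain ⟨-, x0, hx0, hx0m⟩ := id hm1N
  have hB3 : 3 ≤ ((insert c W)ᶜ).ncard := by
    rw [← ncard_three hc'm1 hc'm2 hmm]
    refine ncard_le_ncard ?_ (toFinite _)
    rintro z (rfl | rfl | hz) (h1 | h1)
    · exact hcc' h1.symm
    · exact hc'N.1 h1
    · exact hcm1 h1.symm
    · exact hm1N.1 h1
    · rw [mem_singleton_iff] at hz
      exact hcm2 (h1.symm.trans hz)
    · rw [mem_singleton_iff] at hz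
      exact hm2N.1 (hz ▸ h1)
  obtain ⟨Q, x, hQ, hx, hF, hmax⟩ := stMax V G (insert c W)ᶜ {x | x ∈ W ∧ G.Adj x m1} c x0 h
    hsol hB3 (fun h' => h' (Or.inl rfl)) (fun h' => h' (Or.inr hx0)) ⟨hx0, hx0m⟩ (by
      rw [compl_compl]
      exact (hW.con.nb_ins hcN).2 c (Or.inl rfl) x0 (Or.inr hx0))
  refine ⟨Q, x, hQ, hx.1, hx.2, hF, fun W1 d d1 k1 k2 hW1 => ?_⟩
  exact Sec.main h hW hcc' hcm1 hcm2 hc'm1 hc'm2 hmm hQ hF hmax hx.2 hW1

end Pool.Agent.Lib.MP_d9512b_co.T3
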