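import Pool.Agent.Lib.MP_d9512b_co.T3.Link

set_option autoImplicit false

/-!
(B4) Anchoring of the web at the side of `v`.
-/

namespace Pool.Agent.Lib.MP_d9512b_co.T3

open Set

variable {V : Type*} {G : SimpleGraph V} {B E F K S S' U W X : Set V} {a b c c1 d m1 m2 u v x y z : V}

/-- A web whose vertex `c1` has only one neighbour outside can be extended. -/
theorem Web3.ext [Finite V] (h : Web3 G W c c1 m1 m2) (hcc1 : c ≠ c1) (hm1 : m1 ≠ c1)
    (hm2 : m2 ≠ c1) (hyW : y ∉ W) (hyN : y ∉ Nb G W) (hadj : G.Adj c1 y)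
    (hN : ∀ z, G.Adj c1 z → z ∈ W ∨ z = y)
    (hthree : ∀ E ⊆ insert c1 W, E.Nonempty → 3 ≤ (Nb G E).ncard) :
    Web3 G (insert c1 W) c y m1 m2 := by
  have hc : c ∈ Nb G W := by rw [h.nb]; exact Or.inl rfl
  have hc1 : c1 ∈ Nb G W := by rw [h.nb]; exact Or.inr (Or.inl rfl)
  have hm1' : m1 ∈ Nb G W := by rw [h.nb]; exact Or.inr (Or.inr (Or.inl rfl))
  have hm2' : m2 ∈ Nb G W := by rw [h.nb]; exact Or.inr (Or.inr (Or.inr rfl))
  have hup : ∀ z ∈ Nb G W, z ≠ c1 → z ∈ Nb G (insert c1 W) := by
    rintro z ⟨hz, w, hw, hwz⟩ hne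
    exact ⟨fun h' => h'.elim hne hz, w, Or.inr hw, hwz⟩
  have hyc1 : y ≠ c1 := fun e => G.loopless.irrefl c1 (e ▸ hadj)
  have hcy : ¬ G.Adj c1 c := by
    intro h'
    rcases hN c h' with h1 | h1
    · exact hc.1 h1
    · exact hyN (h1 ▸ hc)
  refine ⟨h.con.nb_ins hc1, ?_, hthree, ?_⟩
  · ext z
    constructor
    · rintro ⟨hz, w, hw, hwz⟩
      rcases hw with rfl | hw
      · rcases hN z hwz with h1 | h1
        · exact absurd (Or.inr h1) hz
        · exact Or.inr (Or.inl h1)
      · have h1 : z ∈ Nb G W := ⟨fun h' => hz (Or.inr h'), w, hw, hwz⟩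
        rw [h.nb] at h1
        rcases h1 with h1 | h1 | h1
        · exact Or.inl h1
        · exact absurd (Or.inl h1) hz
        · exact Or.inr (Or.inr h1)
    · rintro (rfl | rfl | rfl | rfl)
      · exact hup _ hc hcc1
      · exact ⟨fun h' => h'.elim hyc1 hyW, c1, Or.inl rfl, hadj⟩
      · exact hup _ hm1' hm1
      · exact hup _ hm2' hm2
  · intro F F' hF hF' hFc hFc' hd h1 h2 h3 h4
    have hc1F : c1 ∈ F := by
      obtain ⟨-, f, hf, hfy⟩ := h2
      rcases hF hf with h5 | h5
      · exact h5 ▸ hf
      · exact absurd ⟨hyW, f, h5, hfy⟩ hyN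
    have hF'W : F' ⊆ W := by
      intro z hz
      rcases hF' hz with h5 | h5
      · exact absurd hz (fun h' => disjoint_left.1 hd hc1F (h5 ▸ h'))
      · exact h5
    obtain ⟨hcF, f, hf, hfc⟩ := h1
    have hfc1 : f ≠ c1 := by
      rintro rfl
      exact hcy hfc
    have hfm : f ∈ F \ {c1} := ⟨hf, hfc1⟩
    have hFW : cmp G (F \ {c1}) f ⊆ W := by
      intro z hz
      rcases hF (cmp_subset hz).1 with h5 | h5
      · exact absurd h5 (cmp_subset hz).2
      · exact h5
    obtain ⟨p, hp, q, hq, -, hqF, hpq⟩ := hFc.exists_edge (X := cmp G (F \ {c1}) f)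
      (mem_cmp_self hfm) hf (y := c1) (fun h' => (cmp_subset h').2 rfl) hc1F
    have hqc : q = c1 := by
      by_contra e
      exact hq (cmp_closed hp ⟨hqF, e⟩ hpq)
    subst hqc
    exact h.nox _ F' hFW hF'W (con_cmp hfm) hFc'
      (disjoint_left.2 fun z hz hz' => disjoint_left.1 hd (cmp_subset hz).1 hz')
      ⟨fun h' => hcF (cmp_subset h').1, f, mem_cmp_self hfm, hfc⟩ ⟨hq, p, hp, hpq⟩ h3 h4

/-- Webs which may contain cutvertices. -/
structure AW (G : SimpleGraph V) (B : Set V) (u v : V) (W : Set V) (c c1 m1 m2 : V) : Prop where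
  web : Web3 G W c c1 m1 m2
  hc : c ∈ Cut G Bᶜ u v
  hc1 : c1 ∈ Cut G Bᶜ u v
  ne : c1 ≠ c
  WB : W ⊆ Bᶜ
  m1B : m1 ∈ B
  m2B : m2 ∈ B
  mne : m1 ≠ m2
  nadj : ¬ G.Adj c c1
  right : Sd G B v c = W ∪ insert c1 (Sd G B v c1)
  left : Sd G B u c1 = W ∪ insert c (Sd G B u c)

/-- The outside of `W ∪ {c}` is solid. -/
theorem sol_out [Finite V] (h : FarG G B u v) (hc : c ∈ Cut G Bᶜ u v) (X : Set V)
    (hX : X ⊆ Sd G B v c)
    (h2 : ∀ E ⊆ X, E.Nonempty → 2 ≤ (Nb G E ∩ (B ∪ X)).ncard) :
    Sol G (B ∪ (Sd G B u c ∪ X)) := by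
  have hc' : c ∈ Cut G Bᶜ v u := by rw [cut_comm]; exact hc
  refine Sol.union_of h.sol fun E hE hne => ?_
  by_cases h1 : (E ∩ Sd G B u c).Nonempty
  · have h3 := h.two_le h1 (fun z hz => notMem_B_of_sd hz.2) c
    refine h3.trans (ncard_le_ncard ?_ (toFinite _))
    rintro z ⟨hz, hzc⟩
    have h4 := h.symm.nb_side hc' (E := E ∩ Sd G B u c) (fun w hw => hw.2) hz
    obtain ⟨hzE, e, he, hez⟩ := hz
    rcases h4 with h4 | h4 | h4
    · refine ⟨⟨fun h5 => ?_, e, he.1, hez⟩, Or.inl h4⟩
      rcases hE h5 with h6 | h6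
      · exact notMem_B_of_sd h6 h4
      · exact notMem_B_of_sd (hX h6) h4
    · exact absurd h4 hzc
    · exact ⟨⟨fun h5 => hzE ⟨h5, h4⟩, e, he.1, hez⟩, Or.inr (Or.inl h4)⟩
  · have hEX : E ⊆ X := by
      intro z hz
      rcases hE hz with h6 | h6
      · exact absurd ⟨z, hz, h6⟩ h1
      · exact h6
    refine (h2 E hEX hne).trans (ncard_le_ncard (fun z hz => ⟨hz.1, ?_⟩) (toFinite _))
    rcases hz.2 with h3 | h3
    · exact Or.inl h3
    · exact Or.inr (Or.inr h3)

theorem anch_aux {V : Type} [Finite V] {G : SimpleGraph V} {B : Set V} {u v c m1 m2 : V}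
    (h : FarG G B u v) : ∀ n : ℕ, ∀ (W : Set V) (c1 : V), (Sd G B v c1).ncard = n →
    AW G B u v W c c1 m1 m2 →
    ∃ W', W ⊆ W' ∧ W' ⊆ Bᶜ \ insert c (Sd G B u c) ∧
      ((∃ c', Web3 G W' c c' m1 m2 ∧ c' ≠ c ∧ c' ≠ m1 ∧ c' ≠ m2 ∧ Sol G (insert c W')ᶜ) ∨
        (Con G W' ∧ Nb G W' = {c, m1, m2})) := by
  classical
  intro n
  induction n using Nat.strong_induction_on with
  | _ n ih =>
  intro W c1 hn hW
  have hcN : c ∈ Nb G W := by rw [hW.web.nb]; exact Or.inl rfl
  have hc1N : c1 ∈ Nb G W := by rw [hW.web.nb]; exact Or.inr (Or.inl rfl)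
  have hcW : insert c W ⊆ Sd G B u c1 := by
    rw [hW.left]
    rintro z (rfl | hz)
    · exact Or.inr (Or.inl rfl)
    · exact Or.inl hz
  have hcB : c ∉ B := hW.hc.1
  have hc1B : c1 ∉ B := hW.hc1.1
  have hm1c1 : m1 ≠ c1 := fun e => hc1B (e ▸ hW.m1B)
  have hm2c1 : m2 ≠ c1 := fun e => hc1B (e ▸ hW.m2B)
  have hWB : ∀ z ∈ W, z ∉ B := fun z hz => hW.WB hz
  have hWR : W ⊆ Sd G B v c := by
    rw [hW.right]
    exact subset_union_left
  have hc1R : c1 ∈ Sd G B v c := by
    rw [hW.right]
    exact Or.inr (Or.inl rfl)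
  have hWs : insert c1 W ⊆ Bᶜ \ insert c (Sd G B u c) := by
    have h1 : insert c1 W ⊆ Sd G B v c := insert_subset hc1R hWR
    intro z hz
    refine ⟨notMem_B_of_sd (h1 hz), ?_⟩
    rintro (h2 | h2)
    · exact ne_of_sd (h1 hz) h2
    · exact sd_disj hW.hc h2 (h1 hz)
  have hNc1 : ∀ z, G.Adj c1 z → z ∉ W → z ∈ Nb G {c1} \ insert c W := by
    intro z hz hzW
    refine ⟨⟨fun e => ?_, c1, rfl, hz⟩, fun h' => h'.elim (fun e => ?_) hzW⟩
    · rw [mem_singleton_iff] at e
      subst e
      exact G.loopless.irrefl _ hz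
    · exact hW.nadj (e ▸ hz).symm
  by_cases h2 : 2 ≤ (Nb G {c1} \ insert c W).ncard
  · -- anchored
    refine ⟨W, Subset.rfl, (subset_insert _ _).trans hWs, Or.inl ⟨c1, hW.web, hW.ne, hm1c1.symm,
      hm2c1.symm, ?_⟩⟩
    have hc1' : c1 ∈ Cut G Bᶜ u v := hW.hc1
    have hcompl : (insert c W)ᶜ = B ∪ (Sd G B u c ∪ insert c1 (Sd G B v c1)) := by
      ext z
      constructor
      · intro hz
        have hzc : z ≠ c := fun e => hz (Or.inl e)
        have hzW : z ∉ W := fun e => hz (Or.inr e)
        by_cases hzB : z ∈ B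
        · exact Or.inl hzB
        · rcases third h hW.hc hzB hzc with h3 | h3
          · exact Or.inr (Or.inl h3)
          · rw [hW.right] at h3
            exact Or.inr (Or.inr (h3.resolve_left hzW))
      · rintro (hz | hz | hz) hz'
        · exact hz'.elim (fun e => hcB (e ▸ hz)) (fun e => hWB z e hz)
        · rcases hz' with hz' | hz'
          · exact ne_of_sd hz hz'
          · exact sd_disj hW.hc hz (hWR hz')
        · have h3 : z ∈ Sd G B u c1 := hcW hz'
          rcases hz with rfl | hz
          · exact notMem_sd_self h3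
          · exact sd_disj hW.hc1 h3 hz
    rw [hcompl]
    refine sol_out h hW.hc _ ?_ ?_
    · rw [hW.right]
      exact subset_union_right
    · intro E hE hne
      by_cases h1 : (E ∩ Sd G B v c1).Nonempty
      · have h3 := h.two_le h1 (fun z hz => notMem_B_of_sd hz.2) c1
        refine h3.trans (ncard_le_ncard ?_ (toFinite _))
        rintro z ⟨hz, hzc⟩
        have h4 := h.nb_side hW.hc1 (E := E ∩ Sd G B v c1) (fun w hw => hw.2) hz
        obtain ⟨hzE, e, he, hez⟩ := hz
        rcases h4 with h4 | h4 | h4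
        · refine ⟨⟨fun h5 => ?_, e, he.1, hez⟩, Or.inl h4⟩
          rcases hE h5 with h6 | h6
          · exact hc1B (h6 ▸ h4)
          · exact notMem_B_of_sd h6 h4
        · exact absurd h4 hzc
        · exact ⟨⟨fun h5 => hzE ⟨h5, h4⟩, e, he.1, hez⟩, Or.inr (Or.inr h4)⟩
      · obtain ⟨e, he⟩ := hne
        have hE1 : ∀ z ∈ E, z = c1 := by
          intro z hz
          rcases hE hz with h6 | h6
          · exact h6
          · exact absurd ⟨z, hz, h6⟩ h1
        have hEe : E = {c1} := by
          ext z
          constructor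
          · exact fun hz => hE1 z hz
          · intro hz
            rw [mem_singleton_iff] at hz
            rw [hz, ← hE1 e he]
            exact he
        rw [hEe]
        refine h2.trans (ncard_le_ncard ?_ (toFinite _))
        rintro z ⟨hz, hzW⟩
        refine ⟨hz, ?_⟩
        have h3 : z ∈ (insert c W)ᶜ := hzW
        rw [hcompl] at h3
        rcases h3 with h3 | h3 | h3
        · exact Or.inl h3
        · exfalso
          obtain ⟨-, k, hk, hkz⟩ := hz
          rw [mem_singleton_iff] at hk
          subst hk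
          exact sd_nadj hW.hc h3 hc1R hkz.symm
        · exact Or.inr h3
  · push Not at h2
    have hthree : ∀ E ⊆ insert c1 W, E.Nonempty → 3 ≤ (Nb G E).ncard := fun E hE hne =>
      h.three_le hne fun z hz => (hWs (hE hz)).1
    by_cases hv : c1 = v
    · -- the end of the chain
      have hR1 : Sd G B v c1 = ∅ := by
        rw [hv]
        exact sd_self_empty
      have hRc : Sd G B v c = insert c1 W := by
        rw [hW.right, hR1]
        ext z
        simp only [mem_union, mem_insert_iff, mem_empty_iff_false, or_false]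
        tauto
      have hsub : insert c1 W ⊆ Bᶜ := fun z hz => (hWs hz).1
      have hNout : ∀ z ∈ Nb G (insert c1 W), z ∈ B ∨ z = c := by
        rintro z ⟨hz, w, hw, hwz⟩
        by_cases hzB : z ∈ B
        · exact Or.inl hzB
        · right
          by_contra hzc
          rcases third h hW.hc hzB hzc with h3 | h3
          · exact sd_nadj hW.hc h3 (hRc ▸ hw) hwz.symm
          · rw [hRc] at h3
            exact hz h3
      have hcN' : c ∈ Nb G (insert c1 W) := by
        obtain ⟨h3, w, hw, hwz⟩ := hcN
        exact ⟨fun h' => h'.elim (fun e => hW.ne e.symm) h3, w, Or.inr hw, hwz⟩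
      have hm' : ∀ m ∈ B, m ∈ Nb G W → m ∈ Nb G (insert c1 W) := by
        rintro m hm ⟨h3, w, hw, hwz⟩
        exact ⟨fun h' => hsub h' hm, w, Or.inr hw, hwz⟩
      have hm1' : m1 ∈ Nb G W := by rw [hW.web.nb]; exact Or.inr (Or.inr (Or.inl rfl))
      have hm2' : m2 ∈ Nb G W := by rw [hW.web.nb]; exact Or.inr (Or.inr (Or.inr rfl))
      by_cases hex : ∃ b ∈ Nb G (insert c1 W) ∩ B, b ≠ m1 ∧ b ≠ m2
      · obtain ⟨b, ⟨hbN, hbB⟩, hb1, hb2⟩ := hex
        have hbNW : b ∉ Nb G W := by
          rw [hW.web.nb]
          rintro (h3 | h3 | h3 | h3)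
          · exact hcB (h3 ▸ hbB)
          · exact hc1B (h3 ▸ hbB)
          · exact hb1 h3
          · exact hb2 h3
        have hbW : b ∉ W := fun h' => hWB b h' hbB
        have hadj : G.Adj c1 b := by
          obtain ⟨-, w, hw, hwb⟩ := hbN
          rcases hw with rfl | hw
          · exact hwb
          · exact absurd ⟨hbW, w, hw, hwb⟩ hbNW
        have hbY := hNc1 b hadj hbW
        have hY : ∀ z ∈ Nb G {c1} \ insert c W, z = b := by
          intro z hz
          by_contra hne
          have h3 : ({z, b} : Set V) ⊆ Nb G {c1} \ insert c W := by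
            rintro w (rfl | rfl)
            · exact hz
            · exact hbY
          have h4 := ncard_le_ncard h3 (toFinite _)
          rw [ncard_pair hne] at h4
          omega
        have hN : ∀ z, G.Adj c1 z → z ∈ W ∨ z = b := by
          intro z hz
          by_cases hzW : z ∈ W
          · exact Or.inl hzW
          · exact Or.inr (hY z (hNc1 z hz hzW))
        refine ⟨insert c1 W, subset_insert _ _, hWs, Or.inl ⟨b,
          hW.web.ext hW.ne.symm hm1c1 hm2c1 hbW hbNW hadj hN hthree, fun e => hcB (e ▸ hbB), hb1,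
          hb2, ?_⟩⟩
        have hcompl : (insert c (insert c1 W))ᶜ = B ∪ (Sd G B u c ∪ ∅) := by
          ext z
          constructor
          · intro hz
            have hzc : z ≠ c := fun e => hz (Or.inl e)
            by_cases hzB : z ∈ B
            · exact Or.inl hzB
            · rcases third h hW.hc hzB hzc with h3 | h3
              · exact Or.inr (Or.inl h3)
              · rw [hRc] at h3
                exact absurd (Or.inr h3) hz
          · rintro (hz | hz | hz) hz'
            · exact hz'.elim (fun e => hcB (e ▸ hz)) (fun e => hsub e hz)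
            · rcases hz' with hz' | hz'
              · exact ne_of_sd hz hz'
              · exact sd_disj hW.hc hz (hRc ▸ hz')
            · exact hz
        rw [hcompl]
        refine sol_out h hW.hc ∅ (empty_subset _) fun E hE hne => ?_
        obtain ⟨e, he⟩ := hne
        exact absurd (hE he) (notMem_empty e)
      · push Not at hex
        refine ⟨insert c1 W, subset_insert _ _, hWs, Or.inr ⟨hW.web.con.nb_ins hc1N, ?_⟩⟩
        ext z
        constructor
        · intro hz
          rcases hNout z hz with h3 | h3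
          · by_cases h4 : z = m1
            · exact Or.inr (Or.inl h4)
            · exact Or.inr (Or.inr (hex z ⟨hz, h3⟩ h4))
          · exact Or.inl h3
        · rintro (rfl | rfl | hz)
          · exact hcN'
          · exact hm' _ hW.m1B hm1'
          · rw [mem_singleton_iff] at hz
            subst hz
            exact hm' _ hW.m2B hm2'
    · -- the next cutvertex
      have hvR : v ∈ Sd G B v c1 := mem_cmp_self ⟨h.hv, fun e => hv e.symm⟩
      obtain ⟨y, hy, q, hq, -, hqH, hyq⟩ := h.con.exists_edge (X := Sd G B v c1)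
        hvR h.hv (y := c1) notMem_sd_self hc1B
      have hqc : q = c1 := by
        by_contra e
        exact hq (cmp_closed hy ⟨hqH, e⟩ hyq)
      subst hqc
      have hyW : y ∉ W := fun h' => sd_disj hW.hc1 (hcW (Or.inr h')) hy
      have hyB : y ∉ B := notMem_B_of_sd hy
      have hyc1 : y ≠ q := ne_of_sd hy
      have hyY := hNc1 y hyq.symm hyW
      have hY : ∀ z ∈ Nb G {q} \ insert c W, z = y := by
        intro z hz
        by_contra hne
        have h3 : ({z, y} : Set V) ⊆ Nb G {q} \ insert c W := by
          rintro w (rfl | rfl)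
          · exact hz
          · exact hyY
        have h4 := ncard_le_ncard h3 (toFinite _)
        rw [ncard_pair hne] at h4
        omega
      have hN : ∀ z, G.Adj q z → z ∈ W ∨ z = y := by
        intro z hz
        by_cases hzW : z ∈ W
        · exact Or.inl hzW
        · exact Or.inr (hY z (hNc1 z hz hzW))
      have hyNW : y ∉ Nb G W := by
        rintro ⟨-, w, hw, hwy⟩
        exact sd_nadj hW.hc1 (hcW (Or.inr hw)) hy hwy
      -- the set `L ∪ {q}` is closed in `Bᶜ \ {y}`
      have hclosed : ∀ p, p ∈ insert q (Sd G B u q) → ∀ r ∈ Bᶜ \ {y}, G.Adj p r →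
          r ∈ insert q (Sd G B u q) := by
        rintro p hp r ⟨hrB, hry⟩ hpr
        by_cases hrq : r = q
        · exact Or.inl hrq
        · right
          rcases hp with rfl | hp
          · rcases hN r hpr with h3 | h3
            · exact hcW (Or.inr h3)
            · exact absurd h3 hry
          · exact cmp_closed hp ⟨hrB, hrq⟩ hpr
      have huL : u ∈ insert q (Sd G B u q) := by
        by_cases huq : u = q
        · exact Or.inl huq
        · exact Or.inr (mem_cmp_self ⟨h.hu, huq⟩)
      have hreach : ∀ z, Rc G (Bᶜ \ {y}) u z → z ∈ insert q (Sd G B u q) := by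
        intro z hz
        exact hz.mem_closed huL fun a ha b hb hab => hclosed a ha b hb hab
      have hyC : y ∈ Cut G Bᶜ u v := by
        refine ⟨hyB, fun h3 => ?_⟩
        rcases hreach v h3 with h4 | h4
        · exact hv h4.symm
        · exact sd_disj hW.hc1 h4 hvR
      have hsubR : Sd G B v y ⊆ Sd G B v q := nest h hyC hW.hc1 hyc1 hy
      have hR1 : Sd G B v q = insert y (Sd G B v y) := by
        ext z
        constructor
        · intro hz
          by_cases hzy : z = y
          · exact Or.inl hzy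
          · right
            rcases third h hyC (notMem_B_of_sd hz) hzy with h3 | h3
            · exfalso
              rcases hreach z h3 with h4 | h4
              · exact ne_of_sd hz h4
              · exact sd_disj hW.hc1 h4 hz
            · exact h3
        · rintro (rfl | hz)
          · exact hy
          · exact hsubR hz
      have hRc : Sd G B v c = insert q W ∪ insert y (Sd G B v y) := by
        rw [hW.right, hR1]
        ext z
        simp only [mem_union, mem_insert_iff]
        tauto
      have hnotR : ∀ x ∈ insert c (insert q W), x ∉ Sd G B v q := by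
        rintro x (rfl | rfl | hx) hx'
        · exact sd_disj hW.hc1 (hcW (Or.inl rfl)) hx'
        · exact notMem_sd_self hx'
        · exact sd_disj hW.hc1 (hcW (Or.inr hx)) hx'
      have hXB : ∀ x ∈ insert c (insert q W), x ∉ B := by
        rintro x (rfl | rfl | hx)
        · exact hcB
        · exact hc1B
        · exact hWB x hx
      have hyc : y ≠ c := by
        rintro rfl
        exact hnotR _ (Or.inl rfl) hy
      have hL1 : Sd G B u y = insert q W ∪ insert c (Sd G B u c) := by
        ext z
        constructor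
        · intro hz
          rcases hreach z (by
            exact hz) with h3 | h3
          · exact Or.inl (Or.inl h3)
          · rw [hW.left] at h3
            rcases h3 with h3 | h3
            · exact Or.inl (Or.inr h3)
            · exact Or.inr h3
        · intro hz
          have h3 : z ∈ insert q (Sd G B u q) := by
            rcases hz with (h3 | h3) | h3
            · exact Or.inl h3
            · exact Or.inr (hcW (Or.inr h3))
            · right
              rw [hW.left]
              exact Or.inr h3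
          have hzB : z ∉ B := by
            rcases h3 with rfl | h3
            · exact hc1B
            · exact notMem_B_of_sd h3
          have hzR : z ∉ Sd G B v q := by
            rcases h3 with rfl | h3
            · exact notMem_sd_self
            · exact fun h' => sd_disj hW.hc1 h3 h'
          have hzy : z ≠ y := fun e => hzR (e ▸ hy)
          rcases third h hyC hzB hzy with h4 | h4
          · exact h4
          · exact absurd (hsubR h4) hzR
      have hlt : (Sd G B v y).ncard < n := by
        rw [← hn, hR1, ncard_insert_of_notMem notMem_sd_self (toFinite _)]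
        omega
      have hnadj : ¬ G.Adj c y := fun hadj => sd_nadj hW.hc1 (hcW (Or.inl rfl)) hy hadj
      obtain ⟨W', h3, h4, h5⟩ := ih _ hlt (insert q W) y rfl ⟨
        hW.web.ext hW.ne.symm hm1c1 hm2c1 hyW hyNW hyq.symm hN hthree, hW.hc, hyC, hyc,
        fun z hz => hXB z (Or.inr hz), hW.m1B, hW.m2B, hW.mne, hnadj, hRc, hL1⟩
      exact ⟨W', (subset_insert _ _).trans h3, h4, h5⟩

theorem stAnch : StAnch := by
  intro V _ G B u v W c c1 m1 m2 h hW
  exact anch_aux h _ W c1 rfl ⟨hW.web, hW.hc, hW.hc1, hW.ne, fun z hz => (hW.WH hz).1, hW.m1B,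
    hW.m2B, hW.mne, hW.nadj, hW.right, hW.left⟩

end Pool.Agent.Lib.MP_d9512b_co.T3
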