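import Pool.Agent.Lib.MP_d9512b_co.T3.Defs
import Pool.Agent.Lib.MP_d9512b_co.CC.GlueF

set_option autoImplicit false

/-!
Basic facts on 3-connected graphs, regions and solid sets.
-/

namespace Pool.Agent.Lib.MP_d9512b_co.T3

open Set

variable {V : Type*} {G : SimpleGraph V} {B C E F K L O Q R S S' U W : Set V}
  {a b c p u v w x y z : V} {n k : ℕ}

theorem Cn3.le_nb [Finite V] (h : Cn3 G) (hx : x ∈ C) (hz : z ∉ C) (hz' : z ∉ Nb G C) :
    3 ≤ (Nb G C).ncard := by
  by_contra hcon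
  push Not at hcon
  have h1 := h.2 (Nb G C) (by omega) x z (fun h2 => h2.1 hx) hz'
  have h2 : z ∈ C := by
    refine h1.mem_closed hx fun a ha b hb hab => ?_
    by_contra hbC
    exact hb ⟨hbC, a, ha, hab⟩
  exact hz h2

/-- Sets whose complement has at least three vertices have three neighbours. -/
theorem Cn3.three_le [Finite V] (h : Cn3 G) (hne : E.Nonempty) (h3 : 3 ≤ Eᶜ.ncard) :
    3 ≤ (Nb G E).ncard := by
  obtain ⟨x, hx⟩ := hne
  by_cases h1 : ∃ z, z ∉ E ∧ z ∉ Nb G E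
  · obtain ⟨z, hz, hz'⟩ := h1
    exact h.le_nb hx hz hz'
  · push Not at h1
    exact h3.trans (ncard_le_ncard (fun z hz => h1 z hz) (toFinite _))

theorem Cn3.three_le_of [Finite V] (h : Cn3 G) (hne : E.Nonempty) (hEB : E ⊆ Bᶜ)
    (h3 : 3 ≤ B.ncard) : 3 ≤ (Nb G E).ncard :=
  h.three_le hne (h3.trans (ncard_le_ncard (fun _ hb hbE => hEB hbE hb) (toFinite _)))

theorem Cn3.rc_univ (h : Cn3 G) (a b : V) : Rc G univ a b := by
  have := h.2 ∅ (by simp) a b (by simp) (by simp)
  rwa [compl_empty] at this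

/-- Three pairwise different vertices. -/
theorem ncard_three [Finite V] (h1 : a ≠ b) (h2 : a ≠ c) (h3 : b ≠ c) :
    ({a, b, c} : Set V).ncard = 3 := by
  rw [ncard_insert_of_notMem _ (toFinite _), ncard_pair h3]
  rintro (h | h)
  · exact h1 h
  · exact h2 h

theorem ncard_three_le [Finite V] (a b c : V) : ({a, b, c} : Set V).ncard ≤ 3 := by
  have h1 := ncard_insert_le a ({b, c} : Set V)
  have h2 := ncard_insert_le b ({c} : Set V)
  have h3 := ncard_singleton c
  omega

/-- All neighbours of degree three vertices are in each large subset. -/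
theorem mem_of_three [Finite V] {N : Set V} (hN : N ⊆ {a, b, c}) (h3 : 3 ≤ N.ncard) :
    N = {a, b, c} :=
  eq_of_subset_of_ncard_le hN ((ncard_three_le a b c).trans h3) (toFinite _)

/-- The vertices of a set are connected to `w` if `w` is adjacent to each component. -/
theorem con_insert (h : ∀ x ∈ E, w ∈ Nb G (cmp G E x)) : Con G (insert w E) := by
  have h1 : ∀ x ∈ insert w E, Rc G (insert w E) x w := by
    rintro x (rfl | hx)
    · exact Rc.refl (mem_insert _ _)
    · obtain ⟨-, k, hk, hkw⟩ := h x hx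
      exact (Rc.mono hk (subset_insert _ _)).tail hkw (mem_insert _ _)
  exact ⟨⟨w, mem_insert _ _⟩, fun a ha b hb => (h1 a ha).trans (h1 b hb).symm⟩

theorem nb_cmp_sub : Nb G (cmp G E x) ⊆ Nb G E := by
  rintro z ⟨hz, k, hk, hkz⟩
  refine ⟨fun hzE => hz (cmp_closed hk hzE hkz), k, cmp_subset hk, hkz⟩

/-- A set with the neighbours `w`, `a`, `b` is a region with the root `w`. -/
theorem rgn_of_nb [Finite V] (h : Cn3 G) (hN : Nb G E ⊆ {w, a, b}) (hw : w ∉ E)
    (h3 : 3 ≤ Eᶜ.ncard) : Rgn G E w where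
  cW := hw
  con := con_insert fun x hx => by
    have h1 : 3 ≤ (Nb G (cmp G E x)).ncard := h.three_le ⟨x, mem_cmp_self hx⟩
      (h3.trans (ncard_le_ncard (fun z hz hz' => hz (cmp_subset hz')) (toFinite _)))
    rw [mem_of_three (nb_cmp_sub.trans hN) h1]
    exact Or.inl rfl
  three := fun E' hE' hne => h.three_le hne
    (h3.trans (ncard_le_ncard (fun z hz hz' => hz (hE' hz')) (toFinite _)))

/-- States of a region smaller than the region leave something. -/
theorem St.diff_nonempty [Finite V] (h : St G W c S) (hc : c ∉ W) (hS : S.ncard ≤ n)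
    (hn : n ≤ W.ncard) : (W \ S).Nonempty := by
  rw [nonempty_iff_ne_empty]
  intro h1
  rw [sdiff_eq_empty] at h1
  have h2 : insert c W ⊆ S := insert_subset h.mem h1
  have h3 := ncard_le_ncard h2 (toFinite _)
  rw [ncard_insert_of_notMem hc (toFinite _)] at h3
  omega

theorem Rgn.st_singleton [Finite V] (h : Rgn G W c) : St G W c {c} where
  mem := rfl
  sub := fun x hx => Or.inl hx
  con := con_singleton c
  two := fun E hE hne => by
    have h1 := h.three E (fun x hx => (hE hx).1) hne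
    have h2 := ncard_le_ncard_sdiff_add_ncard (Nb G E) {c}
    rw [ncard_singleton] at h2
    omega

/-- Adding vertices to a solid set. -/
theorem Sol.union_of [Finite V] (hB : Sol G B)
    (hU : ∀ E ⊆ U, E.Nonempty → 2 ≤ (Nb G E ∩ (B ∪ U)).ncard) : Sol G (B ∪ U) := by
  have key : ∀ y, ∀ a ∈ B ∪ U, a ≠ y → ∃ d ∈ B, d ≠ y ∧ Rc G ((B ∪ U) \ {y}) a d := by
    intro y a ha hay
    by_contra hcon
    push Not at hcon
    have haU : ∀ e ∈ cmp G ((B ∪ U) \ {y}) a, e ∈ U := by
      intro e he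
      rcases (cmp_subset he).1 with h1 | h1
      · exact absurd he (hcon e h1 (cmp_subset he).2)
      · exact h1
    have h1 := hU (cmp G ((B ∪ U) \ {y}) a) haU ⟨a, mem_cmp_self ⟨ha, hay⟩⟩
    have h2 : Nb G (cmp G ((B ∪ U) \ {y}) a) ∩ (B ∪ U) ⊆ {y} := by
      rintro z ⟨hz, hzB⟩
      by_contra hzy
      exact notMem_of_mem_nb_cmp hz ⟨hzB, hzy⟩
    have h3 := ncard_le_ncard h2 (toFinite _)
    rw [ncard_singleton] at h3
    omega
  obtain ⟨b0, hb0⟩ := hB.1.1
  refine ⟨?_, ?_⟩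
  · by_cases h0 : ∃ y, y ∉ B ∪ U
    · obtain ⟨y, hy⟩ := h0
      refine ⟨⟨b0, Or.inl hb0⟩, fun p hp q hq => ?_⟩
      obtain ⟨p', hp', -, h1⟩ := key y p hp (fun e => hy (e ▸ hp))
      obtain ⟨q', hq', -, h2⟩ := key y q hq (fun e => hy (e ▸ hq))
      rw [sdiff_singleton_eq_self hy] at h1 h2
      exact (h1.trans (hB.con.rc subset_union_left hp' hq')).trans h2.symm
    · push Not at h0
      refine ⟨⟨b0, Or.inl hb0⟩, fun p hp q hq => ?_⟩
      have h1 : ∀ p, p ∈ B ∪ U → Rc G (B ∪ U) p b0 := by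
        intro p hp
        by_cases hpB : p ∈ B
        · exact hB.con.rc subset_union_left hpB hb0
        have hpb : p ≠ b0 := fun e => hpB (e ▸ hb0)
        by_cases h2 : ∃ b1 ∈ B, b1 ≠ b0
        · obtain ⟨b1, hb1, hne⟩ := h2
          obtain ⟨d, hd, -, h3⟩ := key b0 p hp hpb
          exact (h3.mono sdiff_subset).trans (hB.con.rc subset_union_left hd hb0)
        · push Not at h2
          have h3 := hU (cmp G U p) cmp_subset ⟨p, mem_cmp_self (hp.resolve_left hpB)⟩
          obtain ⟨z, hz, hzne⟩ : ∃ z, z ∈ Nb G (cmp G U p) := by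
            obtain ⟨z, hz⟩ := (ncard_pos (toFinite _)).1 (by omega : 0 <
              (Nb G (cmp G U p) ∩ (B ∪ U)).ncard)
            exact ⟨z, hz.1⟩
          have hzU : z ∉ U := notMem_of_mem_nb_cmp ⟨hz, hzne⟩
          have hzB : z ∈ B := (h0 z).resolve_right hzU
          obtain ⟨k, hk, hkz⟩ := hzne
          have h4 : Rc G (B ∪ U) p z :=
            ((Rc.mono hk subset_union_right).tail hkz (Or.inl hzB))
          exact h4.trans (hB.con.rc subset_union_left hzB hb0)
      exact (h1 p hp).trans (h1 q hq).symm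
  · intro y _ p hp q hq hpy hqy
    obtain ⟨p', hp', hpy', h1⟩ := key y p hp hpy
    obtain ⟨q', hq', hqy', h2⟩ := key y q hq hqy
    exact (h1.trans ((hB.rc y hp' hq' hpy' hqy').mono
      (sdiff_subset_sdiff_left subset_union_left))).trans h2.symm

/-! ### Near vertices -/

theorem Nr.mono (h : Nr G u x k) (hk : k ≤ n) : Nr G u x n := by
  obtain ⟨C, h1, h2, h3, h4⟩ := h
  exact ⟨C, h1, h2, h3, h4.trans hk⟩

theorem Nr.ext [Finite V] (h : Nr G u x k) (hC : Con G C) (hx : x ∈ C) (hy : y ∈ C)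
    (hc : C.ncard ≤ n) : Nr G u y (k + n) := by
  obtain ⟨D, h1, h2, h3, h4⟩ := h
  exact ⟨D ∪ C, h1.union hC h3 hx, Or.inl h2, Or.inr hy, by
    have := ncard_union_le D C
    omega⟩

theorem Nr.adj [Finite V] (h : Nr G u x k) (hxy : G.Adj x y) : Nr G u y (k + 1) := by
  obtain ⟨D, h1, h2, h3, h4⟩ := h
  exact ⟨insert y D, h1.ins h3 hxy, Or.inr h2, Or.inl rfl, by
    have := ncard_insert_le y D
    omega⟩

/-! ### The far situation -/

theorem FarG.symm (h : FarG G B u v) : FarG G B v u where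
  cn := h.cn
  sol := h.sol
  three := h.three
  hu := h.hv
  hv := h.hu
  con := h.con
  one := fun F hF hFB hv hu hr => h.one F hF hFB hu hv hr.symm

theorem FarG.three_le [Finite V] (h : FarG G B u v) (hE : E.Nonempty) (hEB : E ⊆ Bᶜ) :
    3 ≤ (Nb G E).ncard := h.cn.three_le_of hE hEB h.three

theorem FarG.two_le [Finite V] (h : FarG G B u v) (hE : E.Nonempty) (hEB : E ⊆ Bᶜ) (x : V) :
    2 ≤ (Nb G E \ {x}).ncard := by
  have h1 := h.three_le hE hEB
  have h2 := ncard_le_ncard_sdiff_add_ncard (Nb G E) {x}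
  rw [ncard_singleton] at h2
  omega

theorem nb_split [Finite V] (E : Set V) :
    (Nb G E).ncard ≤ (Nb G E ∩ B).ncard + (Nb G E ∩ Bᶜ).ncard := by
  have h5 : Nb G E ⊆ (Nb G E ∩ B) ∪ (Nb G E ∩ Bᶜ) := by
    intro z hz
    by_cases hzB : z ∈ B
    · exact Or.inl ⟨hz, hzB⟩
    · exact Or.inr ⟨hz, hzB⟩
  exact (ncard_le_ncard h5 (toFinite _)).trans (ncard_union_le _ _)

/-- Connected sets with at most one neighbour in the chain separate. -/
theorem FarG.sep [Finite V] (h : FarG G B u v) (hK : Con G K) (hKB : K ⊆ Bᶜ) (huK : u ∉ K)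
    (hvK : v ∉ K) (hN : (Nb G K ∩ Bᶜ).ncard ≤ 1) : ¬ Rc G (Bᶜ \ K) u v := by
  intro hr
  have h1 := h.one K hK hKB huK hvK hr
  have h2 := h.three_le hK.1 hKB
  have h3 := nb_split (G := G) (B := B) K
  omega

/-- Each vertex outside of `B` is `c` or is on one of the two sides of the cutvertex `c`. -/
theorem FarG.side_cov [Finite V] (h : FarG G B u v) (hc : c ∈ Cut G Bᶜ u v) (hz : z ∉ B) :
    z = c ∨ z ∈ Sd G B u c ∨ z ∈ Sd G B v c := by
  by_contra hcon
  push Not at hcon
  obtain ⟨hzc, hzu, hzv⟩ := hcon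
  have hzm : z ∈ Bᶜ \ {c} := ⟨hz, hzc⟩
  set K := cmp G (Bᶜ \ {c}) z with hK
  have huK : u ∉ K := fun h' => hzu (Rc.symm h')
  have hvK : v ∉ K := fun h' => hzv (Rc.symm h')
  have hKB : K ⊆ Bᶜ := fun w hw => (cmp_subset hw).1
  have hr : Rc G (Bᶜ \ K) u v := (rc_to_cut h.con hc.1 h.hu huK).trans
    (rc_to_cut h.con hc.1 h.hv hvK).symm
  refine h.sep (con_cmp hzm) hKB huK hvK ?_ hr
  have h2 : Nb G K ∩ Bᶜ ⊆ {c} := by
    rintro w ⟨hw, hwB⟩
    by_contra hwc
    exact notMem_of_mem_nb_cmp hw ⟨hwB, hwc⟩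
  have h3 := ncard_le_ncard h2 (toFinite _)
  rwa [ncard_singleton] at h3

/-- The neighbours of a subset of a side. -/
theorem FarG.nb_side [Finite V] (h : FarG G B u v) (hc : c ∈ Cut G Bᶜ u v)
    (hE : E ⊆ Sd G B v c) : Nb G E ⊆ B ∪ insert c (Sd G B v c) := by
  rintro w ⟨-, e, he, hew⟩
  by_cases hwB : w ∈ B
  · exact Or.inl hwB
  · right
    rcases h.side_cov hc hwB with h1 | h1 | h1
    · exact Or.inl h1
    · exact absurd hew.symm (sd_nadj hc h1 (hE he))
    · exact Or.inr h1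

theorem sd_self_empty : Sd G B u u = ∅ := by
  rw [eq_empty_iff_forall_notMem]
  exact fun z hz => (Rc.left_mem hz).2 rfl

/-- The side of `u` together with the cutvertex is connected. -/
theorem FarG.con_side (h : FarG G B u v) (hc : c ∈ Cut G Bᶜ u v) :
    Con G (insert c (Sd G B u c)) ∧ u ∈ insert c (Sd G B u c) := by
  by_cases huc : u = c
  · subst huc
    rw [sd_self_empty]
    refine ⟨?_, Or.inl rfl⟩
    have h2 : insert u (∅ : Set V) = {u} := by simp
    rw [h2]
    exact con_singleton u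
  · have hum : u ∈ Bᶜ \ {c} := ⟨h.hu, huc⟩
    have hus : u ∈ Sd G B u c := mem_cmp_self hum
    obtain ⟨p, hp, q, hq, -, hqH, hpq⟩ := h.con.exists_edge (X := Sd G B u c)
      hus h.hu (y := c) notMem_sd_self hc.1
    have hqc : q = c := by
      by_contra e
      exact hq (cmp_closed hp ⟨hqH, e⟩ hpq)
    subst hqc
    exact ⟨(con_cmp hum).ins hp hpq, Or.inr hus⟩

/-- The sides are regions. -/
theorem FarG.rgn [Finite V] (h : FarG G B u v) (hc : c ∈ Cut G Bᶜ u v) :
    Rgn G (Sd G B u c) c where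
  cW := notMem_sd_self
  con := (h.con_side hc).1
  three := fun _ hE hne => h.three_le hne fun _ hz => notMem_B_of_sd (hE hz)

end Pool.Agent.Lib.MP_d9512b_co.T3
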