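import Pool.Agent.Lib.MP_d9512b_co.T3.Step

set_option autoImplicit false
set_option linter.unusedSectionVars false

/-!
At least half of the sizes occur as sizes of states if all degrees near the root are equal.
-/

namespace Pool.Agent.Lib.MP_d9512b_co

open Set

namespace T3

variable {V : Type*} {G : SimpleGraph V} {W S T F E K O : Set V} {c o x y z t u v p q r : V}

/-- The number of edges which leave a state (edges at the root are counted only if they end in
the region). -/
noncomputable def bd (G : SimpleGraph V) (W : Set V) (c : V) (S : Set V) : ℕ :=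
  ec G (S \ {c}) Sᶜ + ec G {c} (W \ S)

theorem bd_step [Finite V] (_hc : c ∉ W) (hS : St G W c S) (hT : T ⊆ W \ S) :
    bd G W c (S ∪ T) + ec G S T = bd G W c S + ec G T (S ∪ T)ᶜ := by
  have hcT : c ∉ T := fun h => (hT h).2 hS.mem
  have e1 : (S ∪ T) \ {c} = (S \ {c}) ∪ T := by
    ext z
    constructor
    · rintro ⟨hz | hz, hzc⟩
      · exact Or.inl ⟨hz, hzc⟩
      · exact Or.inr hz
    · rintro (hz | hz)
      · exact ⟨Or.inl hz.1, hz.2⟩
      · exact ⟨Or.inr hz, fun h => hcT (h ▸ hz)⟩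
  have d1 : Disjoint (S \ {c}) T := disjoint_left.2 fun z hz hz' => (hT hz').2 hz.1
  have e2 : ec G ((S ∪ T) \ {c}) (S ∪ T)ᶜ = ec G (S \ {c}) (S ∪ T)ᶜ + ec G T (S ∪ T)ᶜ := by
    rw [e1, ec_union_left d1]
  have e3 : ec G (S \ {c}) Sᶜ = ec G (S \ {c}) T + ec G (S \ {c}) (S ∪ T)ᶜ :=
    ec_compl_split hT _
  have e4 : ec G {c} (W \ S) = ec G {c} T + ec G {c} (W \ (S ∪ T)) := by
    have h1 : W \ S = T ∪ (W \ (S ∪ T)) := by
      ext z
      constructor
      · intro hz
        by_cases hzT : z ∈ T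
        · exact Or.inl hzT
        · exact Or.inr ⟨hz.1, fun h => h.elim hz.2 hzT⟩
      · rintro (hz | hz)
        · exact hT hz
        · exact ⟨hz.1, fun h => hz.2 (Or.inl h)⟩
    have h2 : Disjoint T (W \ (S ∪ T)) := disjoint_left.2 fun z hz hz' => hz'.2 (Or.inr hz)
    rw [h1, ec_union_right h2]
  have e5 : ec G S T = ec G (S \ {c}) T + ec G {c} T := by
    have h1 : S = (S \ {c}) ∪ {c} := by
      rw [sdiff_union_self, union_eq_self_of_subset_right (singleton_subset_iff.2 hS.mem)]
    conv_lhs => rw [h1]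
    exact ec_union_left disjoint_sdiff_left
  unfold bd
  omega

/-- A state with at least two vertices has at least two outgoing edges. -/
theorem two_le_bd [Finite V] (h3 : ∀ E ⊆ W, E.Nonempty → 3 ≤ (Nb G E).ncard) (hS : St G W c S)
    (h2 : 2 ≤ S.ncard) : 2 ≤ bd G W c S := by
  have hne : (S \ {c}).Nonempty := by
    rw [← ncard_pos (toFinite _), ncard_sdiff_singleton_of_mem hS.mem]
    omega
  have hsub : S \ {c} ⊆ W := fun z hz => (hS.sub hz.1).resolve_left hz.2
  have h4 := h3 _ hsub hne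
  have h5 : Nb G (S \ {c}) ⊆ insert c (Nb G (S \ {c}) \ S) := by
    rintro y hy
    by_cases hyc : y = c
    · exact Or.inl hyc
    · exact Or.inr ⟨hy, fun h => hy.1 ⟨h, hyc⟩⟩
  have h6 := (ncard_le_ncard h5 (toFinite _)).trans (ncard_insert_le _ _)
  have h7 : (Nb G (S \ {c}) \ S).ncard ≤ ec G (S \ {c}) Sᶜ := by
    refine (ncard_nb_le_ec (S := S) (S \ {c})).trans (ec_mono_right ?_)
    exact compl_subset_compl.2 subset_union_left
  unfold bd
  omega

/-- The growth of the number of outgoing edges, all degrees are `d`. -/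
theorem bd_le [Finite V] {d : ℕ} (hc : c ∉ W) (hS : St G W c S) (hT : T ⊆ W \ S)
    (hne : T.Nonempty) (hact : T ⊆ Nb G S) (h1 : ec G T T + 2 ≤ 2 * T.ncard)
    (h2 : 2 ≤ T.ncard → ec G T (S ∪ T)ᶜ ≤ 2) (hd : ∀ t ∈ T, ec G {t} univ = d) :
    bd G W c (S ∪ T) + d * T.ncard + 2 ≤
      bd G W c S + 2 * T.ncard + if T.ncard = 1 then 2 * (d - 1) else 4 := by
  have h3 := bd_step hc hS hT
  have h4 : ec G T univ = ec G T S + (ec G T T + ec G T (S ∪ T)ᶜ) := by
    rw [← ec_compl_split hT T, ← ec_union_right disjoint_compl_right, union_compl_self]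
  have h5 := ec_sum_eq (G := G) (X := T) (B := univ) (m := d) hd
  have h6 := ec_symm G S T
  have h7 : 0 < T.ncard := (ncard_pos (toFinite _)).2 hne
  split_ifs with hT1
  · obtain ⟨t, rfl⟩ := ncard_eq_one.1 hT1
    have h8 : 1 ≤ ec G {t} S := by
      obtain ⟨-, s, hs, hst⟩ := hact rfl
      exact ec_pos_of_adj rfl hs hst.symm
    have h9 := ec_sing_self (G := G) t
    rw [ncard_singleton] at h5 ⊢
    omega
  · have h8 := h2 (by omega)
    omega

/-- The arithmetic of the counting: threads. -/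
theorem arith1 {e s k q r : ℕ} (he : 2 ≤ e) (h : e * s + 2 ≤ 2 * (e * (k - q)) + 2 * q + r)
    (hqk : q ≤ k) (hq : 1 ≤ q) (hr : r ≤ e + 1) : s < 2 * k := by
  obtain ⟨p, rfl⟩ := Nat.exists_eq_add_of_le hqk
  rw [Nat.add_sub_cancel_left] at h
  by_contra hcon
  push Not at hcon
  have h1 : e * (2 * (q + p)) ≤ e * s := Nat.mul_le_mul_left e hcon
  have h2 : e * (2 * (q + p)) = 2 * (e * p) + 2 * (e * q) := by ring
  have h3 : e * 1 ≤ e * q := Nat.mul_le_mul_left e hq
  have h4 : 2 * q ≤ e * q := Nat.mul_le_mul_right q he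
  omega

/-- The induction of the counting lemma. -/
theorem grow [Finite V] {n d e : ℕ} (hR : Rgn G W c) (hde : d = e + 2) (he : 1 ≤ e)
    (hr1 : 1 ≤ ec G {c} W) (hr : ec G {c} W ≤ e + 1)
    (hdeg : ∀ C : Set V, Con G C → c ∈ C → C.ncard ≤ n + 1 → ∀ x ∈ C, ec G {x} univ = d)
    (h1 : 1 ≤ n) (hn : n ≤ W.ncard) (m : ℕ) :
    ∀ (S : Set V) (A : Finset ℕ) (p q : ℕ), St G W c S → n + 1 - S.ncard = m →
      (∀ x ∈ A, 1 ≤ x ∧ x ≤ n ∧ x < S.ncard ∧ ∃ S', St G W c S' ∧ S'.ncard = x) →
      A.card = p + q → e * (S.ncard - 1) + bd G W c S ≤ 2 * (e * p) + 2 * q + ec G {c} W →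
      (q = 0 → S.ncard = p + 1) →
      ∃ A : Finset ℕ, (∀ x ∈ A, 1 ≤ x ∧ x ≤ n ∧ ∃ S, St G W c S ∧ S.ncard = x) ∧
        n + 1 ≤ 2 * A.card + (if d = 3 then ec G {c} W - 1 else 0) := by
  induction m using Nat.strong_induction_on with
  | _ m ih =>
  intro S A p q hS hm hA hcard hinv hq0
  have hS1 : 1 ≤ S.ncard := (ncard_pos (toFinite _)).2 ⟨c, hS.mem⟩
  by_cases hbig : n + 1 ≤ S.ncard
  · refine ⟨A, fun x hx => ⟨(hA x hx).1, (hA x hx).2.1, (hA x hx).2.2.2⟩, ?_⟩
    have h2 := two_le_bd hR.three hS (by omega)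
    rcases Nat.eq_zero_or_pos q with hq | hq
    · have := hq0 hq
      omega
    · by_cases he1 : e = 1
      · have hd3 : d = 3 := by omega
        rw [if_pos hd3]
        rw [he1, Nat.one_mul, Nat.one_mul] at hinv
        omega
      · have hd3 : d ≠ 3 := by omega
        rw [if_neg hd3]
        have h3 := arith1 (e := e) (s := S.ncard - 1) (k := p + q) (q := q) (r := ec G {c} W)
          (by omega) (by
            rw [Nat.add_sub_cancel]
            omega) (by omega) hq hr
        omega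
  · have hne : (W \ S).Nonempty := by
      by_contra hcon
      rw [not_nonempty_iff_eq_empty, sdiff_eq_empty] at hcon
      have h3 : insert c W ⊆ S := insert_subset hS.mem hcon
      have h4 := ncard_le_ncard h3 (toFinite _)
      rw [ncard_insert_of_notMem hR.cW (toFinite _)] at h4
      omega
    obtain ⟨z, hz, hzN⟩ := hR.exists_nb hS hne
    obtain ⟨T, hT, hTne, hST, hact, hTT, h2⟩ := step hR.three hS hz hzN
    have hT1 : 1 ≤ T.ncard := (ncard_pos (toFinite _)).2 hTne
    have hdT : ∀ t ∈ T, ec G {t} univ = d := by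
      intro t ht
      have h3 := hact ht
      refine hdeg (insert t S) (hS.con.nb_ins h3) (Or.inr hS.mem) ?_ t (Or.inl rfl)
      exact (ncard_insert_le _ _).trans (by omega)
    have h5 := bd_le hR.cW hS hT hTne hact hTT (fun h => (h2 h).1) hdT
    have hdis : Disjoint S T := disjoint_left.2 fun x hx hx' => (hT hx').2 hx
    have hSTc : (S ∪ T).ncard = S.ncard + T.ncard := ncard_union_eq hdis (toFinite _) (toFinite _)
    have hA' : ∀ x ∈ insert S.ncard A, 1 ≤ x ∧ x ≤ n ∧ x < (S ∪ T).ncard ∧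
        ∃ S', St G W c S' ∧ S'.ncard = x := by
      intro x hx
      rcases Finset.mem_insert.1 hx with hx | hx
      · subst hx
        exact ⟨hS1, by omega, by omega, S, hS, rfl⟩
      · have h6 := hA x hx
        exact ⟨h6.1, h6.2.1, by omega, h6.2.2.2⟩
    have hAc : (insert S.ncard A).card = A.card + 1 :=
      Finset.card_insert_of_notMem fun h => by
        have := (hA _ h).2.2.1
        omega
    have hes : (S ∪ T).ncard - 1 = (S.ncard - 1) + T.ncard := by omega
    by_cases hTc : T.ncard = 1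
    · rw [if_pos hTc, hTc] at h5
      refine ih (n + 1 - (S ∪ T).ncard) (by omega) (S ∪ T) (insert S.ncard A) (p + 1) q hST rfl hA'
        (by omega) ?_ ?_
      · rw [hes, hTc, Nat.mul_add, Nat.mul_add]
        omega
      · intro h
        have := hq0 h
        omega
    · rw [if_neg hTc] at h5
      refine ih (n + 1 - (S ∪ T).ncard) (by omega) (S ∪ T) (insert S.ncard A) p (q + 1) hST rfl hA'
        (by omega) ?_ (fun h => by omega)
      rw [hes, Nat.mul_add]
      have h6 : d * T.ncard = e * T.ncard + 2 * T.ncard := by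
        rw [hde, Nat.add_mul]
      omega

/-- (A2) -/
theorem stCount : StCount := by
  intro V _ G W O c o n d hR hcO hWO hno ho hco hd hdeg h1 hn
  have hsing : ec G {c} univ = d :=
    hdeg {c} (con_singleton c) rfl (by rw [ncard_singleton]; omega) c rfl
  have hoW : o ∉ W := fun h => disjoint_left.1 hWO h ho
  have h2 : ec G {c} W + ec G {c} {o} ≤ ec G {c} univ := by
    rw [← ec_union_right (disjoint_singleton_right.2 hoW)]
    exact ec_mono_right (subset_univ _)
  have h3 : 1 ≤ ec G {c} {o} := ec_pos_of_adj rfl rfl hco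
  have hWne : W.Nonempty := by
    rw [← ncard_pos (toFinite _)]
    omega
  have h4 : 1 ≤ ec G {c} W := by
    obtain ⟨w, hw⟩ := hWne
    obtain ⟨a, ha, b, hb, -, hbW, hab⟩ := hR.con.exists_edge (X := {c}) rfl (mem_insert _ _)
      (y := w) (fun h => hR.cW (h ▸ hw)) (mem_insert_of_mem _ hw)
    rw [mem_singleton_iff] at ha
    subst ha
    exact ec_pos_of_adj rfl (hbW.resolve_left hb) hab
  have hSt : St G W c {c} := by
    refine ⟨rfl, singleton_subset_iff.2 (mem_insert _ _), con_singleton c, ?_⟩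
    intro E hE hne
    have h5 := hR.three E (hE.trans sdiff_subset) hne
    have h6 : Nb G E ⊆ insert c (Nb G E \ {c}) := fun y hy => by
      by_cases hyc : y = c
      · exact Or.inl hyc
      · exact Or.inr ⟨hy, hyc⟩
    have h7 := (ncard_le_ncard h6 (toFinite _)).trans (ncard_insert_le _ _)
    omega
  refine grow (e := d - 2) hR (by omega) (by omega) h4 (by omega) hdeg h1 hn _ {c} ∅ 0 0 hSt rfl
    (fun x hx => absurd hx (Finset.notMem_empty x)) rfl ?_ (fun _ => ncard_singleton c)
  rw [ncard_singleton]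
  have h8 : bd G W c {c} ≤ ec G {c} W := by
    unfold bd
    rw [sdiff_self, ec_empty_left, Nat.zero_add]
    exact ec_mono_right sdiff_subset
  omega

end T3

end Pool.Agent.Lib.MP_d9512b_co
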