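import Pool.Agent.Lib.MP_d9512b_co.CC.FarD
import Pool.Agent.Lib.MP_d9512b_co.CC.LemR
import Pool.Agent.Lib.MP_d9512b_co.Cub.Base

set_option autoImplicit false

/-!
Interface: contractible subgraphs of 3-connected graphs which are regular in a ball (note
mco_helper85_4). `H = Bᶜ` for a solid set `B`; for a cutvertex `c` of the chain the two sides are
`Sd G B u c` and `Sd G B v c`.
-/

namespace Pool.Agent.Lib.MP_d9512b_co.T3

open Set

/-- The connectivity of the graph is at least `3`. -/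
def Cn3 {V : Type*} (G : SimpleGraph V) : Prop :=
  4 ≤ Nat.card V ∧ ∀ X : Set V, X.ncard ≤ 2 → ∀ a b, a ∉ X → b ∉ X → Rc G Xᶜ a b

/-- `x` is near `u`: they lie in a connected set of at most `k` vertices. -/
def Nr {V : Type*} (G : SimpleGraph V) (u x : V) (k : ℕ) : Prop :=
  ∃ C : Set V, Con G C ∧ u ∈ C ∧ x ∈ C ∧ C.ncard ≤ k

/-! ### Growth and counting -/

/-- Regions with a root `c`. -/
structure Rgn {V : Type*} (G : SimpleGraph V) (W : Set V) (c : V) : Prop where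
  cW : c ∉ W
  con : Con G (insert c W)
  three : ∀ E ⊆ W, E.Nonempty → 3 ≤ (Nb G E).ncard

/-- (A1) The next state: a single vertex, or a thread of vertices which have only two edges to
the rest. -/
def StStep : Prop :=
  ∀ (V : Type) [Finite V] (G : SimpleGraph V) (W : Set V) (c : V) (S : Set V), Rgn G W c →
    St G W c S → (W \ S).Nonempty → ∃ T ⊆ W \ S, St G W c (S ∪ T) ∧
      ((∃ t, T = {t} ∧ t ∈ Nb G S) ∨
        (2 ≤ T.ncard ∧ (∀ t ∈ T, ec G {t} Sᶜ ≤ 2) ∧ ec G T (S ∪ T)ᶜ ≤ 2 ∧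
          ∀ z ∉ S ∪ T, ec G T {z} ≤ 1))

/-- (A2) At least half of the sizes `1, .., n` occur, if all degrees near the root are equal to
`d`. `O` is the other side: no vertex of `W` has a neighbour in `O`. -/
def StCount : Prop :=
  ∀ (V : Type) [Finite V] (G : SimpleGraph V) (W O : Set V) (c o : V) (n d : ℕ), Rgn G W c →
    c ∉ O → Disjoint W O → (∀ x ∈ W, ∀ y ∈ O, ¬ G.Adj x y) → o ∈ O → G.Adj c o → 3 ≤ d →
    (∀ C : Set V, Con G C → c ∈ C → C.ncard ≤ n + 1 → ∀ x ∈ C, ec G {x} univ = d) →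
    1 ≤ n → n ≤ W.ncard →
    ∃ A : Finset ℕ, (∀ x ∈ A, 1 ≤ x ∧ x ≤ n ∧ ∃ S, St G W c S ∧ S.ncard = x) ∧
      n + 1 ≤ 2 * A.card + (if d = 3 then ec G {c} W - 1 else 0)

/-- Junctions: two regions `L`, `R` with the common root `w`, no edges between them. -/
structure Jn {V : Type*} (G : SimpleGraph V) (L R : Set V) (w : V) (n : ℕ) : Prop where
  rL : Rgn G L w
  rR : Rgn G R w
  dis : Disjoint L R
  nad : ∀ x ∈ L, ∀ y ∈ R, ¬ G.Adj x y
  cL : n ≤ L.ncard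
  cR : n ≤ R.ncard
  glue : ∀ S S', St G L w S → St G R w S' → S.ncard ≤ n → S'.ncard ≤ n →
    Sol G (S ∪ S')ᶜ ∧ 3 ≤ (S ∪ S')ᶜ.ncard

/-- (A3) A junction near which all degrees are equal gives a good set. -/
def StJn : Prop :=
  ∀ (V : Type) [Finite V] (G : SimpleGraph V) (L R : Set V) (w : V) (n d : ℕ), Jn G L R w n →
    1 ≤ n → 3 ≤ d →
    (∀ C : Set V, Con G C → w ∈ C → C.ncard ≤ n + 1 → ∀ x ∈ C, ec G {x} univ = d) →
    ∃ S, Good G n S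

/-- (A4) A separation of order three. -/
def StJnI : Prop :=
  ∀ (V : Type) [Finite V] (G : SimpleGraph V) (E : Set V) (w a b : V) (n : ℕ), Cn3 G →
    Nb G E = {w, a, b} → w ≠ a → w ≠ b → a ≠ b → 1 ≤ n → n ≤ E.ncard →
    n ≤ (E ∪ {w, a, b})ᶜ.ncard → Jn G E (E ∪ {w, a, b})ᶜ w n

/-! ### The chain -/

/-- The far situation. -/
structure FarG {V : Type*} (G : SimpleGraph V) (B : Set V) (u v : V) : Prop where
  cn : Cn3 G
  sol : Sol G B
  three : 3 ≤ B.ncard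
  hu : u ∉ B
  hv : v ∉ B
  con : Con G Bᶜ
  one : ∀ F : Set V, Con G F → F ⊆ Bᶜ → u ∉ F → v ∉ F → Rc G (Bᶜ \ F) u v →
    (Nb G F ∩ B).ncard ≤ 1

/-- (A5) A cutvertex of the chain with two large sides. -/
def StJnII : Prop :=
  ∀ (V : Type) [Finite V] (G : SimpleGraph V) (B : Set V) (u v c : V) (n : ℕ), FarG G B u v →
    c ∈ Cut G Bᶜ u v → 1 ≤ n → n ≤ (Sd G B u c).ncard → n ≤ (Sd G B v c).ncard →
    Jn G (Sd G B u c) (Sd G B v c) c n

/-- (B1) Maximal solid sets. `M` is the set of the possible second ends. -/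
def StMax : Prop :=
  ∀ (V : Type) [Finite V] (G : SimpleGraph V) (B0 M : Set V) (u v : V), Cn3 G → Sol G B0 →
    3 ≤ B0.ncard → u ∉ B0 → v ∉ B0 → v ∈ M → Rc G B0ᶜ u v →
    ∃ B x, B0 ⊆ B ∧ x ∈ M ∧ FarG G B u x ∧
      ∀ F : Set V, Con G F → F ⊆ Bᶜ → u ∉ F → (∃ x' ∈ M, Rc G (Bᶜ \ F) u x') →
        (Nb G F ∩ B).ncard ≤ 1

/-- (B2) A far situation with a given far vertex `b` in `B` (nonseparating cycles from the growth
of `{u}`). -/
def StFar0 : Prop :=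
  ∀ (V : Type) [Finite V] (G : SimpleGraph V) (u b : V) (k : ℕ), Cn3 G → ¬ Nr G u b (k + 1) →
    2 ≤ k → ∃ B v, FarG G B u v ∧ b ∈ B ∧ ¬ Nr G u v k

/-- Webs of 3-connected graphs. -/
structure Web3 {V : Type*} (G : SimpleGraph V) (W : Set V) (c c' m1 m2 : V) : Prop where
  con : Con G W
  nb : Nb G W = {c, c', m1, m2}
  three : ∀ E ⊆ W, E.Nonempty → 3 ≤ (Nb G E).ncard
  nox : ∀ F F' : Set V, F ⊆ W → F' ⊆ W → Con G F → Con G F' → Disjoint F F' →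
    c ∈ Nb G F → c' ∈ Nb G F → m1 ∈ Nb G F' → m2 ∈ Nb G F' → False

/-- The web `W` between consecutive cutvertices `c` and `c1`. -/
structure WL3 {V : Type*} (G : SimpleGraph V) (B : Set V) (u v : V) (W : Set V)
    (c c1 m1 m2 : V) : Prop where
  web : Web3 G W c c1 m1 m2
  hc : c ∈ Cut G Bᶜ u v
  hc1 : c1 ∈ Cut G Bᶜ u v
  ne : c1 ≠ c
  WH : W ⊆ Bᶜ \ Cut G Bᶜ u v
  m1B : m1 ∈ B
  m2B : m2 ∈ B
  mne : m1 ≠ m2
  nadj : ¬ G.Adj c c1
  right : Sd G B v c = W ∪ insert c1 (Sd G B v c1)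
  left : Sd G B u c1 = W ∪ insert c (Sd G B u c)

/-- (B3) Link lemma: after each cutvertex of the chain comes an edge, a piece with three
neighbours, or a web. -/
def StLink3 : Prop :=
  ∀ (V : Type) [Finite V] (G : SimpleGraph V) (B : Set V) (u v c : V), FarG G B u v →
    c ∈ Cut G Bᶜ u v → c ≠ v →
    ∃ c1 ∈ Cut G Bᶜ u v, c1 ≠ c ∧ insert c (Sd G B u c) ⊆ Sd G B u c1 ∧
      (G.Adj c c1 ∨
        (∃ K m, m ∈ B ∧ Con G K ∧ K ⊆ Bᶜ \ Cut G Bᶜ u v ∧ Nb G K = {c, c1, m}) ∨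
        ∃ W m1 m2, WL3 G B u v W c c1 m1 m2)

/-- (B4) Anchoring: the web can be extended to the side of `v` such that the outside of
`W' ∪ {c}` is solid, or there is a separation of order three. -/
def StAnch : Prop :=
  ∀ (V : Type) [Finite V] (G : SimpleGraph V) (B : Set V) (u v : V) (W : Set V)
    (c c1 m1 m2 : V), FarG G B u v → WL3 G B u v W c c1 m1 m2 →
    ∃ W', W ⊆ W' ∧ W' ⊆ Bᶜ \ insert c (Sd G B u c) ∧
      ((∃ c', Web3 G W' c c' m1 m2 ∧ c' ≠ c ∧ c' ≠ m1 ∧ c' ≠ m2 ∧ Sol G (insert c W')ᶜ) ∨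
        (Con G W' ∧ Nb G W' = {c, m1, m2}))

/-- (B5) Rooted `K_{2,3}`: in a web of a 3-connected graph it lies in a set with three
neighbours. -/
def StK23 : Prop :=
  ∀ (V : Type) [Finite V] (H : SimpleGraph V) (W : Set V) (t : Fin 4 → V) (B Y : Set V)
    (P : Fin 3 → Set V), Wb.XF H t → (∀ x ∈ W, ∀ y, H.Adj x y → y ∈ W ∨ ∃ j, t j = y) →
    Wb.Kc H W t B Y P →
    ∃ E ⊆ W, B ∪ Y ⊆ E ∧ ∃ w : Fin 3 → V, (∀ i, w i ∈ P i) ∧ Nb H E ⊆ {w 0, w 1, w 2}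

/-- (B6) A web of the second chain (inside of the first web `W`, from the frame vertex `c` to a
neighbour `x` of the frame vertex `m1`) lies in a set with three neighbours. -/
def StSecond : Prop :=
  ∀ (V : Type) [Finite V] (G : SimpleGraph V) (W : Set V) (c c' m1 m2 : V), Cn3 G →
    Web3 G W c c' m1 m2 → c ≠ c' → c ≠ m1 → c ≠ m2 → c' ≠ m1 → c' ≠ m2 → m1 ≠ m2 →
    Sol G (insert c W)ᶜ →
    ∃ Q x, (insert c W)ᶜ ⊆ Q ∧ x ∈ W ∧ G.Adj x m1 ∧ FarG G Q c x ∧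
      ∀ W1 d d1 k1 k2, WL3 G Q c x W1 d d1 k1 k2 →
        ∃ E ⊆ W, W1 ⊆ E ∧ ∃ p0 ∈ insert d (Sd G Q c d), ∃ p1 ∈ insert m1 (insert d1 (Sd G Q x d1)),
          ∃ p2, p2 ≠ m1 ∧ p0 ≠ p1 ∧ p0 ≠ p2 ∧ p1 ≠ p2 ∧ Nb G E = {p0, p1, p2}

/-! ### The structure lemma -/

/-- (C1) Near each vertex there is a junction. -/
def StSL : Prop :=
  ∀ n : ℕ, 1 ≤ n → ∃ r : ℕ, ∀ (V : Type) [Finite V] (G : SimpleGraph V) (u b : V), Cn3 G →
    ¬ Nr G u b r → ∃ w L R, Nr G u w r ∧ Jn G L R w n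

/-- (D1) The local theorem. -/
def StLoc : Prop :=
  ∀ n : ℕ, 1 ≤ n → ∃ r : ℕ, ∀ (V : Type) [Finite V] (G : SimpleGraph V) (u b : V) (d : ℕ),
    Cn3 G → (∀ x, Nr G u x r → ec G {x} univ = d) → ¬ Nr G u b r → ∃ S, Good G n S

end Pool.Agent.Lib.MP_d9512b_co.T3
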