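import Pool.Agent.Lib.MP_d9512b_co.T3.JnMin
import Pool.Agent.Lib.MP_d9512b_co.T3.Base
import Pool.Agent.Lib.MP_d9512b_co.Cub.Fin

set_option autoImplicit false
set_option linter.unusedSectionVars false

/-!
The theorem for graphs which are regular in a ball, from the local theorem.
-/

namespace Pool.Agent.Lib.MP_d9512b_co

open Set

namespace T3

/-- If all degrees are large, then all sizes occur. -/
theorem exists_state_big {V : Type} [Finite V] {G : SimpleGraph V} {W : Set V} {c : V} {n : ℕ}
    (hR : Rgn G W c) (hn : n ≤ W.ncard) (hdeg : ∀ x, n + 2 ≤ ec G {x} univ)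
    (m : ℕ) (h1 : 1 ≤ m) (h3 : m ≤ n) : ∃ S, St G W c S ∧ S.ncard = m := by
  induction m with
  | zero => omega
  | succ m ih =>
    rcases Nat.eq_zero_or_pos m with hm | hm
    · subst hm
      exact ⟨{c}, hR.st_singleton, ncard_singleton c⟩
    · obtain ⟨S, hS, hSm⟩ := ih hm (by omega)
      have hne : (W \ S).Nonempty := by
        by_contra hcon
        rw [not_nonempty_iff_eq_empty, sdiff_eq_empty] at hcon
        have h3 : insert c W ⊆ S := insert_subset hS.mem hcon
        have h4 := ncard_le_ncard h3 (toFinite _)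
        rw [ncard_insert_of_notMem hR.cW (toFinite _)] at h4
        omega
      obtain ⟨T, hT, hST, hcase⟩ := stStep V G W c S hR hS hne
      rcases hcase with ⟨t, rfl, htN⟩ | ⟨hT2, hec, -, -⟩
      · refine ⟨S ∪ {t}, hST, ?_⟩
        have hdis : Disjoint S {t} := disjoint_singleton_right.2 htN.1
        rw [ncard_union_eq hdis (toFinite _) (toFinite _), ncard_singleton, hSm]
      · exfalso
        obtain ⟨z, hz⟩ : T.Nonempty := by
          rw [← ncard_pos (toFinite _)]
          omega
        have h5 := hdeg z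
        have h6 : ec G {z} univ = ec G {z} S + ec G {z} Sᶜ := by
          rw [← ec_union_right disjoint_compl_right, union_compl_self]
        have h7 := ec_singleton_le_ncard (G := G) z S
        have h8 := hec z hz
        omega

/-- Graphs of minimum degree at least `n + 2`. -/
theorem min_deg_good {V : Type} [Finite V] {G : SimpleGraph V} {n : ℕ} (h : Cn3 G) (hn : 1 ≤ n)
    (hc : n + 3 ≤ Nat.card V) (hdeg : ∀ x, n + 2 ≤ ec G {x} univ) : ∃ S, Good G n S := by
  have h4 := h.1
  have hpos : 0 < Nat.card V := by omega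
  obtain ⟨⟨b0⟩, -⟩ := Nat.card_pos_iff.1 hpos
  have h5 := hdeg b0
  obtain ⟨x, hx, b1, -, hb⟩ := ec_pos.1 (by omega : 1 ≤ ec G {b0} univ)
  rw [mem_singleton_iff] at hx
  subst hx
  obtain ⟨c, hc'⟩ : ∃ c, c ∉ ({x, b1} : Set V) := by
    by_contra hcon
    push Not at hcon
    have h6 : (univ : Set V) ⊆ {x, b1} := fun z _ => hcon z
    have h7 := ncard_le_ncard h6 (toFinite _)
    have h8 := ncard_insert_le x {b1}
    rw [ncard_univ] at h7
    rw [ncard_singleton] at h8
    omega
  have hcx : c ≠ x := fun e => hc' (Or.inl e)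
  have hcb : c ≠ b1 := fun e => hc' (Or.inr e)
  have h3 : ({c, x, b1} : Set V).ncard = 3 := ncard_three hcx hcb hb.ne
  have hR : Rgn G ({c, x, b1} : Set V)ᶜ c := by
    refine ⟨fun e => e (Or.inl rfl), ?_, fun E hE hne => h.three_le_of hne hE (by omega)⟩
    have h6 : insert c ({c, x, b1} : Set V)ᶜ = ({x, b1} : Set V)ᶜ := by
      ext z
      simp only [mem_insert_iff, mem_compl_iff, mem_singleton_iff]
      constructor
      · rintro (rfl | hz)
        · exact hc'
        · exact fun e => hz (Or.inr e)
      · intro hz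
        by_cases hzc : z = c
        · exact Or.inl hzc
        · exact Or.inr fun e => e.elim hzc hz
    rw [h6]
    refine ⟨⟨c, hc'⟩, fun p hp q hq => h.2 _ ?_ p q hp hq⟩
    exact (ncard_insert_le _ _).trans (by rw [ncard_singleton])
  have hW : ({c, x, b1} : Set V)ᶜ.ncard + 3 = Nat.card V := by
    rw [← h3, Nat.add_comm]
    exact ncard_add_ncard_compl _
  obtain ⟨S, hS, hSn⟩ := exists_state_big hR (by omega) hdeg n hn le_rfl
  refine ⟨S, hSn, hS.con, ?_, ?_⟩
  · have h6 : Sᶜ = ({x, b1} : Set V) ∪ (({c, x, b1} : Set V)ᶜ \ S) := by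
      ext z
      constructor
      · intro hz
        by_cases hzB : z ∈ ({x, b1} : Set V)
        · exact Or.inl hzB
        · refine Or.inr ⟨?_, hz⟩
          rintro (rfl | hz')
          · exact hz hS.mem
          · exact hzB hz'
      · rintro (hz | hz)
        · intro hzS
          rcases hS.sub hzS with h7 | h7
          · subst h7
            exact hc' hz
          · exact h7 (Or.inr hz)
        · exact hz.2
    rw [h6]
    refine Sol.union_of ⟨con_pair hb, ?_⟩ ?_
    · intro y hy a ha b hb' hay hby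
      have hab : a = b := by
        rcases hy with rfl | hy
        · have h7 : a = b1 := ha.resolve_left hay
          have h8 : b = b1 := hb'.resolve_left hby
          exact h7.trans h8.symm
        · rw [mem_singleton_iff] at hy
          subst hy
          have h7 : a = x := ha.elim id fun e => absurd e hay
          have h8 : b = x := hb'.elim id fun e => absurd e hby
          exact h7.trans h8.symm
      rw [← hab]
      exact Rc.refl ⟨ha, hay⟩
    · intro E hE hne
      refine (hS.two E hE hne).trans (ncard_le_ncard ?_ (toFinite _))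
      rintro z ⟨hz, hzS⟩
      refine ⟨hz, ?_⟩
      rw [← h6]
      exact hzS
  · have h6 := ncard_add_ncard_compl S
    omega

/-- Connected sets with two given vertices are not smaller than the distance. -/
theorem dist_lt_ncard {V : Type} [Finite V] {G : SimpleGraph V} {C : Set V} {u x : V}
    (hC : Con G C) (hu : u ∈ C) (hx : x ∈ C) : G.dist u x < C.ncard := by
  classical
  have := Fintype.ofFinite C
  obtain ⟨p⟩ := (connected_of_con hC).preconnected ⟨u, hu⟩ ⟨x, hx⟩
  have h1 := (p.toPath).2.length_lt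
  have h2 := SimpleGraph.dist_le ((p.toPath.1).map (SimpleGraph.Embedding.induce C).toHom)
  rw [SimpleGraph.Walk.length_map] at h2
  change G.dist u x ≤ _ at h2
  have h3 : Fintype.card C = C.ncard := by
    rw [← Nat.card_eq_fintype_card]
    exact Nat.card_coe_set_eq C
  omega

theorem ec_univ_eq_degree {V : Type} [Fintype V] {G : SimpleGraph V} [DecidableRel G.Adj]
    (x : V) : ec G {x} univ = G.degree x := by
  rw [ec_singleton_eq, ← SimpleGraph.card_neighborFinset_eq_degree,
    ← ncard_coe_finset]
  congr 1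
  ext w
  simp

/-- Graphs which are regular in a large ball. -/
theorem exists_good3 (hL : StLoc) (n : ℕ) (hn : 1 ≤ n) : ∃ N r : ℕ, ∀ (V : Type) [Finite V]
    (G : SimpleGraph V), N ≤ Nat.card V → Cn3 G →
    (∃ u, ∀ x, Nr G u x r → ec G {x} univ = ec G {u} univ) → ∃ S, Good G n S := by
  obtain ⟨r, hr⟩ := hL n hn
  refine ⟨(n + 2) ^ r + n + 4, r, fun V _ G hc h ⟨u, hu⟩ => ?_⟩
  by_cases hfar : ∃ b, ¬ Nr G u b r
  · obtain ⟨b, hb⟩ := hfar
    exact hr V G u b (ec G {u} univ) h hu hb
  · push Not at hfar
    by_cases hd : n + 2 ≤ ec G {u} univ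
    · exact min_deg_good h hn (by omega) fun x => by
        rw [hu x (hfar x)]
        exact hd
    · exfalso
      have hall : ∀ x, Rc G univ u x := fun x => h.rc_univ u x
      have hD : ∀ x, (Nb G {x}).ncard ≤ n + 1 := by
        intro x
        have h1 := hu x (hfar x)
        rw [ec_singleton_eq x] at h1
        have h2 : (Nb G {x}).ncard ≤ {w | w ∈ univ ∧ G.Adj x w}.ncard := by
          refine ncard_le_ncard ?_ (toFinite _)
          rintro w ⟨-, c, hc', hcw⟩
          rw [mem_singleton_iff] at hc'
          subst hc'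
          exact ⟨mem_univ _, hcw⟩
        omega
      have h1 := ball_card u (n + 1) hall hD r
      have h2 : {x | lv G u x ≤ r + 1} = univ := by
        refine eq_univ_of_forall fun x => ?_
        obtain ⟨C, hC, huC, hxC, hCr⟩ := hfar x
        have := lv_le hC huC hxC
        rw [mem_ofPred_eq]
        omega
      rw [h2, ncard_univ] at h1
      have h3 : (n + 1 + 1) ^ r = (n + 2) ^ r := rfl
      omega

/-- The final theorem from the local theorem. -/
theorem regular_ball_of (hL : StLoc) : ∀ n : ℕ, 1 ≤ n → ∃ N r : ℕ,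
    ∀ (V : Type) [Fintype V] [DecidableEq V] (G : SimpleGraph V) [DecidableRel G.Adj],
    N ≤ Fintype.card V →
    (4 ≤ Fintype.card V ∧
      ∀ X : Finset V, X.card ≤ 2 → (G.induce ((↑X : Set V)ᶜ)).Connected) →
    (∃ u : V, ∀ x : V, G.dist u x ≤ r → G.degree x = G.degree u) →
    ∃ S : Finset V, ∃ s0 ∈ S, S.card = n ∧ (G.induce (↑S : Set V)).Connected ∧
      (4 ≤ (insert s0 ((↑S : Set V)ᶜ)).ncard ∧
        ∀ X : Finset V, X.card ≤ 2 →
          ((SimpleGraph.fromRel (fun x y : V => ∃ a b, G.Adj a b ∧
              (if a ∈ S then s0 else a) = x ∧ (if b ∈ S then s0 else b) = y)).induce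
            (insert s0 ((↑S : Set V)ᶜ) \ (↑X : Set V))).Connected) := by
  intro n hn
  obtain ⟨N, r, hN⟩ := exists_good3 hL n hn
  refine ⟨N, r, fun V _ _ G _ hc ⟨h6, hcon⟩ ⟨u, hu⟩ => ?_⟩
  have h5 : Cn3 G := by
    refine ⟨by rwa [Nat.card_eq_fintype_card], ?_⟩
    intro X hX a b ha hb
    have h1 := hcon X.toFinite.toFinset (by rwa [← Set.ncard_eq_toFinset_card X X.toFinite])
    rw [Set.Finite.coe_toFinset] at h1
    exact rc_of_reachable ⟨a, ha⟩ ⟨b, hb⟩ (h1.preconnected _ _)
  obtain ⟨S, hS⟩ := hN V G (by rwa [Nat.card_eq_fintype_card]) h5 ⟨u, fun x hx => by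
    rw [ec_univ_eq_degree, ec_univ_eq_degree]
    obtain ⟨C, hC, huC, hxC, hCr⟩ := hx
    have := dist_lt_ncard hC huC hxC
    exact hu x (by omega)⟩
  have hSS : ((S.toFinite.toFinset : Finset V) : Set V) = S := Set.Finite.coe_toFinset _
  obtain ⟨s0, hs0⟩ := hS.con.1
  refine ⟨S.toFinite.toFinset, s0, by simpa using hs0, ?_, ?_, ?_⟩
  · rw [← Set.ncard_eq_toFinset_card S S.toFinite]
    exact hS.card
  · rw [hSS]
    exact connected_of_con hS.con
  · exact contract_of_good (fun X hX => h5.2 X (by omega)) (by rwa [hSS]) (by simpa using hs0)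

end T3

end Pool.Agent.Lib.MP_d9512b_co
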