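import Pool.Agent.Lib.MP_d9512b_co.T3.Base

set_option autoImplicit false

/-!
Junctions: the pigeonhole (A3), separations of order three (A4), cutvertices of the chain (A5).
-/

namespace Pool.Agent.Lib.MP_d9512b_co.T3

open Set

variable {V : Type*} {G : SimpleGraph V} {B C E F K L O Q R S S' U W : Set V}
  {a b c p u v w x y z : V} {n k : ℕ}

/-! ### (A4) -/

/-- One side of a separation of order three without a state. -/
structure Half (G : SimpleGraph V) (U S : Set V) (a b : V) : Prop where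
  ne : U.Nonempty
  dis : ∀ x ∈ U, x ∉ S
  ha : a ∉ U
  hb : b ∉ U
  haS : a ∉ S
  hbS : b ∉ S
  nb : ∀ x ∈ U, ∀ y, G.Adj x y → y ∈ U ∨ y ∈ S ∨ y = a ∨ y = b
  two : ∀ E ⊆ U, E.Nonempty → 2 ≤ (Nb G E \ S).ncard

theorem Half.swap (h : Half G U S a b) : Half G U S b a where
  ne := h.ne
  dis := h.dis
  ha := h.hb
  hb := h.ha
  haS := h.hbS
  hbS := h.haS
  nb := fun x hx y hxy => by
    rcases h.nb x hx y hxy with h1 | h1 | h1 | h1
    · exact Or.inl h1
    · exact Or.inr (Or.inl h1)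
    · exact Or.inr (Or.inr (Or.inr h1))
    · exact Or.inr (Or.inr (Or.inl h1))
  two := h.two

/-- Without `y` each vertex reaches `a` or `b`. -/
theorem Half.pt [Finite V] (h : Half G U S a b) (hp : p ∈ U) (hpy : p ≠ y) :
    ∃ z, (z = a ∨ z = b) ∧ z ≠ y ∧ ∀ D : Set V, U ⊆ D → a ∈ D → b ∈ D → Rc G (D \ {y}) p z := by
  have hpm : p ∈ U \ {y} := ⟨hp, hpy⟩
  have h1 := h.two (cmp G (U \ {y}) p) (fun z hz => (cmp_subset hz).1) ⟨p, mem_cmp_self hpm⟩
  obtain ⟨z, ⟨hz, hzS⟩, hzy⟩ : ∃ z ∈ Nb G (cmp G (U \ {y}) p) \ S, z ≠ y := by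
    by_contra hcon
    push Not at hcon
    have h2 := ncard_le_ncard (show Nb G (cmp G (U \ {y}) p) \ S ⊆ {y} from hcon) (toFinite _)
    rw [ncard_singleton] at h2
    omega
  have hzU : z ∉ U := fun hzU => notMem_of_mem_nb_cmp hz ⟨hzU, hzy⟩
  obtain ⟨-, k, hk, hkz⟩ := hz
  have hzab : z = a ∨ z = b := by
    rcases h.nb k (cmp_subset hk).1 z hkz with h3 | h3 | h3
    · exact absurd h3 hzU
    · exact absurd h3 hzS
    · exact h3
  refine ⟨z, hzab, hzy, fun D hD haD hbD => ?_⟩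
  have hzD : z ∈ D := by
    rcases hzab with rfl | rfl
    · exact haD
    · exact hbD
  exact (Rc.mono hk (sdiff_subset_sdiff_left hD)).tail hkz ⟨hzD, hzy⟩

/-- If `y` is not in `U`, then `a` and `b` are joined through `U`. -/
theorem Half.ab [Finite V] (h : Half G U S a b) (hy : y ∉ U) {D : Set V} (hD : U ⊆ D)
    (ha : a ∈ D \ {y}) (hb : b ∈ D \ {y}) : Rc G (D \ {y}) a b := by
  obtain ⟨p, hp⟩ := h.ne
  have h1 := h.two (cmp G U p) cmp_subset ⟨p, mem_cmp_self hp⟩
  have h2 : Nb G (cmp G U p) \ S ⊆ {a, b} := by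
    rintro z ⟨hz, hzS⟩
    have hzU : z ∉ U := notMem_of_mem_nb_cmp hz
    obtain ⟨-, k, hk, hkz⟩ := hz
    rcases h.nb k (cmp_subset hk) z hkz with h3 | h3 | h3
    · exact absurd h3 hzU
    · exact absurd h3 hzS
    · exact h3
  have h3 : ({a, b} : Set V).ncard ≤ 2 := by
    have := ncard_insert_le a ({b} : Set V)
    rw [ncard_singleton] at this
    omega
  have h4 : Nb G (cmp G U p) \ S = {a, b} :=
    eq_of_subset_of_ncard_le h2 (h3.trans h1) (toFinite _)
  have h5 : a ∈ Nb G (cmp G U p) := by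
    have : a ∈ Nb G (cmp G U p) \ S := by rw [h4]; exact Or.inl rfl
    exact this.1
  have h6 : b ∈ Nb G (cmp G U p) := by
    have : b ∈ Nb G (cmp G U p) \ S := by rw [h4]; exact Or.inr rfl
    exact this.1
  exact nb_link (con_cmp hp) h5 h6 (fun z hz => ⟨hD (cmp_subset hz), fun e => hy (by
    rw [mem_singleton_iff] at e
    exact e ▸ cmp_subset hz)⟩) ha hb

theorem Half.sol [Finite V] {U' S' : Set V} (h : Half G U S a b) (h' : Half G U' S' a b)
    (hd : Disjoint U U') (hw : w ∉ U ∪ U' ∪ {a, b}) : Sol G (U ∪ U' ∪ {a, b}) := by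
  set D := U ∪ U' ∪ {a, b} with hD
  have h1 : U ⊆ D := fun z hz => Or.inl (Or.inl hz)
  have h2 : U' ⊆ D := fun z hz => Or.inl (Or.inr hz)
  have haD : a ∈ D := Or.inr (Or.inl rfl)
  have hbD : b ∈ D := Or.inr (Or.inr rfl)
  have hab : ∀ y, a ≠ y → b ≠ y → Rc G (D \ {y}) a b := by
    intro y hay hby
    by_cases hy : y ∈ U
    · exact h'.ab (disjoint_left.1 hd hy) h2 ⟨haD, hay⟩ ⟨hbD, hby⟩
    · exact h.ab hy h1 ⟨haD, hay⟩ ⟨hbD, hby⟩
  have key : ∀ y, ∀ p ∈ D, p ≠ y → ∃ z, (z = a ∨ z = b) ∧ z ≠ y ∧ Rc G (D \ {y}) p z := by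
    rintro y p ((hp | hp) | rfl | hp) hpy
    · obtain ⟨z, h3, h4, h5⟩ := h.pt hp hpy
      exact ⟨z, h3, h4, h5 D h1 haD hbD⟩
    · obtain ⟨z, h3, h4, h5⟩ := h'.pt hp hpy
      exact ⟨z, h3, h4, h5 D h2 haD hbD⟩
    · exact ⟨p, Or.inl rfl, hpy, Rc.refl ⟨haD, hpy⟩⟩
    · rw [mem_singleton_iff] at hp
      subst hp
      exact ⟨p, Or.inr rfl, hpy, Rc.refl ⟨hbD, hpy⟩⟩
  refine sol_of_rc ⟨a, haD⟩ (fun y p hp q hq hpy hqy => ?_) ⟨w, hw⟩
  obtain ⟨z, h3, h4, h5⟩ := key y p hp hpy
  obtain ⟨z', h6, h7, h8⟩ := key y q hq hqy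
  have h9 : Rc G (D \ {y}) z z' := by
    rcases h3 with rfl | rfl <;> rcases h6 with rfl | rfl
    · exact Rc.refl ⟨haD, h4⟩
    · exact hab y h4 h7
    · exact (hab y h7 h4).symm
    · exact Rc.refl ⟨hbD, h4⟩
  exact (h5.trans h9).trans h8.symm

theorem stJnI : StJnI := by
  intro V _ G E w a b n h hN hwa hwb hab hn hE hO
  set O : Set V := (E ∪ {w, a, b})ᶜ with hOdef
  have hmN : ∀ z ∈ ({w, a, b} : Set V), z ∉ E := by
    intro z hz
    rw [← hN] at hz
    exact hz.1
  have hwE : w ∉ E := hmN w (Or.inl rfl)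
  have haE : a ∉ E := hmN a (Or.inr (Or.inl rfl))
  have hbE : b ∉ E := hmN b (Or.inr (Or.inr rfl))
  have h3 : ({w, a, b} : Set V).ncard = 3 := ncard_three hwa hwb hab
  have hwO : w ∉ O := fun h => h (Or.inr (Or.inl rfl))
  have haO : a ∉ O := fun h => h (Or.inr (Or.inr (Or.inl rfl)))
  have hbO : b ∉ O := fun h => h (Or.inr (Or.inr (Or.inr rfl)))
  have hEO : ∀ x ∈ E, ∀ y ∈ O, ¬ G.Adj x y := by
    intro x hx y hy hxy
    have h1 : y ∈ Nb G E := ⟨fun h => hy (Or.inl h), x, hx, hxy⟩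
    rw [hN] at h1
    exact hy (Or.inr h1)
  have hNO : Nb G O ⊆ {w, a, b} := by
    rintro y ⟨hy, x, hx, hxy⟩
    by_contra hcon
    have hyE : y ∈ E := by
      by_contra hyE
      exact hy (fun h => h.elim hyE hcon)
    exact hEO y hyE x hx hxy.symm
  have hEc : 3 ≤ Eᶜ.ncard := by
    rw [← h3]
    exact ncard_le_ncard (fun z hz => hmN z hz) (toFinite _)
  have hOc : 3 ≤ Oᶜ.ncard := by
    rw [← h3]
    exact ncard_le_ncard (fun z hz hz' => hz' (Or.inr hz)) (toFinite _)
  have rE : Rgn G E w := rgn_of_nb h hN.subset hwE hEc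
  have rO : Rgn G O w := rgn_of_nb h hNO hwO hOc
  have half : ∀ (U S : Set V), Rgn G U w → Nb G U ⊆ {w, a, b} → a ∉ U → b ∉ U → n ≤ U.ncard →
      St G U w S → S.ncard ≤ n → Half G (U \ S) S a b := by
    intro U S rU hNU haU hbU hU hS hSn
    have haS : a ∉ S := fun h' => (hS.sub h').elim (fun e => hwa e.symm) haU
    have hbS : b ∉ S := fun h' => (hS.sub h').elim (fun e => hwb e.symm) hbU
    refine ⟨St.diff_nonempty hS rU.cW hSn hU, fun x hx => hx.2, fun h' => haU h'.1,
      fun h' => hbU h'.1, haS, hbS, ?_, hS.two⟩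
    intro x hx y hxy
    by_cases hyS : y ∈ S
    · exact Or.inr (Or.inl hyS)
    by_cases hyU : y ∈ U
    · exact Or.inl ⟨hyU, hyS⟩
    · have h1 : y ∈ Nb G U := ⟨hyU, x, hx.1, hxy⟩
      rcases hNU h1 with rfl | h2 | h2
      · exact absurd hS.mem hyS
      · exact Or.inr (Or.inr (Or.inl h2))
      · exact Or.inr (Or.inr (Or.inr h2))
  have dis : Disjoint E O := disjoint_left.2 fun z hz hz' => hz' (Or.inl hz)
  refine ⟨rE, rO, dis, hEO, hE, hO, ?_⟩
  intro S S' hS hS' hSn hSn'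
  have h1 := half E S rE hN.subset haE hbE hE hS hSn
  have h2 := half O S' rO hNO haO hbO hO hS' hSn'
  have hcompl : (S ∪ S')ᶜ = (E \ S) ∪ (O \ S') ∪ {a, b} := by
    ext z
    constructor
    · intro hz
      have hzS : z ∉ S := fun h' => hz (Or.inl h')
      have hzS' : z ∉ S' := fun h' => hz (Or.inr h')
      by_cases hzE : z ∈ E
      · exact Or.inl (Or.inl ⟨hzE, hzS⟩)
      by_cases hzO : z ∈ O
      · exact Or.inl (Or.inr ⟨hzO, hzS'⟩)
      · have h4 : z ∈ E ∪ {w, a, b} := by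
          by_contra h5
          exact hzO h5
        rcases h4 with h4 | rfl | h4
        · exact absurd h4 hzE
        · exact absurd hS.mem hzS
        · exact Or.inr h4
    · rintro ((hz | hz) | hz) hz'
      · rcases hz' with h' | h'
        · exact hz.2 h'
        · rcases hS'.sub h' with rfl | h4
          · exact hwE hz.1
          · exact disjoint_left.1 dis hz.1 h4
      · rcases hz' with h' | h'
        · rcases hS.sub h' with rfl | h4
          · exact hwO hz.1
          · exact disjoint_left.1 dis h4 hz.1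
        · exact hz.2 h'
      · rcases hz with rfl | hz
        · rcases hz' with h' | h'
          · exact h1.haS h'
          · exact h2.haS h'
        · rw [mem_singleton_iff] at hz
          subst hz
          rcases hz' with h' | h'
          · exact h1.hbS h'
          · exact h2.hbS h'
  rw [hcompl]
  constructor
  · refine h1.sol (w := w) h2 (dis.mono sdiff_subset sdiff_subset) ?_
    rintro ((hz | hz) | hz | hz)
    · exact hwE hz.1
    · exact hwO hz.1
    · exact hwa hz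
    · exact hwb hz
  · obtain ⟨p, hp⟩ := h1.ne
    have h4 : ({p, a, b} : Set V) ⊆ (E \ S) ∪ (O \ S') ∪ {a, b} := by
      rintro z (rfl | hz)
      · exact Or.inl (Or.inl hp)
      · exact Or.inr hz
    have h5 := ncard_three (a := p) (b := a) (c := b) (fun e => haE (e ▸ hp.1))
      (fun e => hbE (e ▸ hp.1)) hab
    rw [← h5]
    exact ncard_le_ncard h4 (toFinite _)

/-! ### (A5) -/

theorem stJnII : StJnII := by
  intro V _ G B u v c n h hc hn hL hR
  have hc' : c ∈ Cut G Bᶜ v u := by rw [cut_comm]; exact hc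
  refine ⟨h.rgn hc, h.symm.rgn hc', disjoint_left.2 fun z h1 h2 => sd_disj hc h1 h2,
    fun x hx y hy => sd_nadj hc hx hy, hL, hR, ?_⟩
  intro S S' hS hS' _ _
  have hpos : 1 ≤ S.ncard := (ncard_pos (toFinite _)).2 ⟨c, hS.mem⟩
  have hg : Good G (S.ncard + S'.ncard - 1) (S' ∪ S) := by
    refine good_of_glue (L := Sd G B u c) (R := Sd G B v c) h.sol h.three hc.1
      (fun z => by
        by_cases hz : z ∈ B
        · exact Or.inl hz
        · exact Or.inr (h.side_cov hc hz))
      (fun z hz => ⟨notMem_B_of_sd hz, ne_of_sd hz, fun hz' => sd_disj hc hz hz'⟩)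
      (fun z hz => ⟨notMem_B_of_sd hz, ne_of_sd hz⟩)
      (fun a ha b hb => sd_nadj hc ha hb) hS'.con hS.con hS'.mem hS.mem hS'.sub hS.sub
      hS'.two hS.two (by omega)
  rw [union_comm] at hg
  exact ⟨hg.sol, hg.three⟩

/-! ### (A3) -/

theorem stJn_of : StCount → StJn := by
  classical
  intro hCount V _ G L R w n d h hn hd hreg
  have hLne : L.Nonempty := (ncard_pos (toFinite _)).1 (by have := h.cL; omega)
  have hRne : R.Nonempty := (ncard_pos (toFinite _)).1 (by have := h.cR; omega)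
  have hadj : ∀ U : Set V, Rgn G U w → U.Nonempty → ∃ x ∈ U, G.Adj w x := by
    rintro U hU ⟨x, hx⟩
    obtain ⟨p, hp, q, hq, -, hqU, hpq⟩ := hU.con.exists_edge (X := {w}) (x := w) rfl
      (Or.inl rfl) (y := x) (fun e => hU.cW (by
        rw [mem_singleton_iff] at e
        exact e ▸ hx)) (Or.inr hx)
    rw [mem_singleton_iff] at hp
    subst hp
    rcases hqU with h1 | h1
    · exact absurd h1 hq
    · exact ⟨q, h1, hpq⟩
  obtain ⟨l, hl, hwl⟩ := hadj L h.rL hLne
  obtain ⟨r, hr, hwr⟩ := hadj R h.rR hRne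
  obtain ⟨A, hA, hAc⟩ := hCount V G L R w r n d h.rL h.rR.cW h.dis h.nad hr hwr hd hreg hn h.cL
  obtain ⟨A', hA', hAc'⟩ := hCount V G R L w l n d h.rR h.rL.cW h.dis.symm
    (fun x hx y hy hxy => h.nad y hy x hx hxy.symm) hl hwl hd hreg hn h.cR
  have hsum : n + 1 ≤ A.card + A'.card := by
    by_cases h3 : d = 3
    · rw [if_pos h3] at hAc hAc'
      have h4 : ec G {w} L + ec G {w} R ≤ 3 := by
        rw [← ec_union_right h.dis, ← h3, ← hreg {w} (con_singleton w) rfl (by
          rw [ncard_singleton]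
          omega) w rfl]
        exact ec_mono_right (subset_univ _)
      have h5 : 1 ≤ ec G {w} L := ec_pos_of_adj rfl hl hwl
      have h6 : 1 ≤ ec G {w} R := ec_pos_of_adj rfl hr hwr
      omega
    · rw [if_neg h3] at hAc hAc'
      omega
  -- the pigeonhole
  obtain ⟨x, hx, y, hy, hxy⟩ : ∃ x ∈ A, ∃ y ∈ A', x + y = n + 1 := by
    by_contra hcon
    push Not at hcon
    have hinj : Set.InjOn (fun y => n + 1 - y) (A' : Set ℕ) := by
      intro i hi j hj hij
      have h1 := hA' i hi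
      have h2 := hA' j hj
      simp only at hij
      omega
    have h1 : Disjoint A (A'.image (fun y => n + 1 - y)) := by
      rw [Finset.disjoint_left]
      intro x hx hx'
      rw [Finset.mem_image] at hx'
      obtain ⟨y, hy, hxy⟩ := hx'
      have h2 := hA' y hy
      exact hcon x hx y hy (by omega)
    have h2 : A ∪ A'.image (fun y => n + 1 - y) ⊆ Finset.Icc 1 n := by
      intro x hx
      rw [Finset.mem_Icc]
      rcases Finset.mem_union.1 hx with h3 | h3
      · have := hA x h3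
        exact ⟨this.1, this.2.1⟩
      · rw [Finset.mem_image] at h3
        obtain ⟨y, hy, rfl⟩ := h3
        have := hA' y hy
        omega
    have h3 := Finset.card_le_card h2
    rw [Finset.card_union_of_disjoint h1, Finset.card_image_of_injOn hinj, Nat.card_Icc] at h3
    omega
  obtain ⟨-, hxn, S, hS, hSx⟩ := hA x hx
  obtain ⟨-, hyn, S', hS', hSy⟩ := hA' y hy
  obtain ⟨h1, h2⟩ := h.glue S S' hS hS' (by omega) (by omega)
  refine ⟨S ∪ S', ?_, hS.con.union hS'.con hS.mem hS'.mem, h1, h2⟩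
  have h3 : S ∩ S' = {w} := by
    ext z
    constructor
    · rintro ⟨hz, hz'⟩
      rcases hS.sub hz with h4 | h4
      · exact h4
      · rcases hS'.sub hz' with h5 | h5
        · exact h5
        · exact absurd h5 (disjoint_left.1 h.dis h4)
    · intro hz
      rw [mem_singleton_iff] at hz
      exact hz ▸ ⟨hS.mem, hS'.mem⟩
  have h4 := ncard_union_add_ncard_inter S S' (toFinite _) (toFinite _)
  rw [h3, ncard_singleton] at h4
  omega

end Pool.Agent.Lib.MP_d9512b_co.T3
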