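import Pool.Agent.Lib.MP_d9512b_co.T3.JnGood

set_option autoImplicit false
set_option linter.unusedSectionVars false

/-!
A junction near which all degrees are at least `(n + 5) / 2` gives a good set.
-/

namespace Pool.Agent.Lib.MP_d9512b_co

open Set

namespace T3

variable {V : Type*} {G : SimpleGraph V} {W S T F E K O L R S' : Set V} {c o x y z w : V} {n d : ℕ}

theorem ec_singleton_le_ncard [Finite V] (t : V) (S : Set V) : ec G {t} S ≤ S.ncard := by
  unfold ec
  refine (ncard_le_ncard (t := (fun y => (t, y)) '' S) ?_ (toFinite _)).trans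
    (ncard_image_le (toFinite _))
  rintro ⟨x, y⟩ ⟨h1, h2, -⟩
  rw [mem_singleton_iff] at h1
  simp only at h1 h2
  subst h1
  exact ⟨y, h2, rfl⟩

theorem exists_state_small {V : Type} [Finite V] {G : SimpleGraph V} {W : Set V} {c : V} {n : ℕ}
    (hR : Rgn G W c) (hn : n ≤ W.ncard)
    (hdeg : ∀ C : Set V, Con G C → c ∈ C → C.ncard ≤ n + 1 → ∀ x ∈ C, n + 5 ≤ 2 * ec G {x} univ)
    (m : ℕ) (h1 : 1 ≤ m) (h2 : 2 * m ≤ n + 2) (h3 : m ≤ n) : ∃ S, St G W c S ∧ S.ncard = m := by
  induction m with
  | zero => omega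
  | succ m ih =>
    rcases Nat.eq_zero_or_pos m with hm | hm
    · subst hm
      refine ⟨{c}, ⟨rfl, singleton_subset_iff.2 (mem_insert _ _), con_singleton c, ?_⟩,
        ncard_singleton c⟩
      intro E hE hne
      have h5 := hR.three E (hE.trans sdiff_subset) hne
      have h6 : Nb G E ⊆ insert c (Nb G E \ {c}) := fun y hy => by
        by_cases hyc : y = c
        · exact Or.inl hyc
        · exact Or.inr ⟨hy, hyc⟩
      have h7 := (ncard_le_ncard h6 (toFinite _)).trans (ncard_insert_le _ _)
      omega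
    · obtain ⟨S, hS, hSm⟩ := ih hm (by omega) (by omega)
      have hne : (W \ S).Nonempty := by
        by_contra hcon
        rw [not_nonempty_iff_eq_empty, sdiff_eq_empty] at hcon
        have h3 : insert c W ⊆ S := insert_subset hS.mem hcon
        have h4 := ncard_le_ncard h3 (toFinite _)
        rw [ncard_insert_of_notMem hR.cW (toFinite _)] at h4
        omega
      obtain ⟨T, hT, hST, hcase⟩ := stStep V G W c S hR hS hne
      rcases hcase with ⟨t, rfl, htN⟩ | ⟨hT2, hec, -, -⟩
      · refine ⟨S ∪ {t}, hST, ?_⟩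
        have hdis : Disjoint S {t} := disjoint_singleton_right.2 htN.1
        rw [ncard_union_eq hdis (toFinite _) (toFinite _), ncard_singleton, hSm]
      · exfalso
        obtain ⟨z, hz, hzN⟩ : ∃ z ∈ T, z ∈ Nb G S := by
          obtain ⟨z, hz⟩ : T.Nonempty := by
            rw [← ncard_pos (toFinite _)]
            omega
          obtain ⟨a, ha, b, hb, -, hbW, hab⟩ := hST.con.exists_edge (X := S) hS.mem
            (Or.inl hS.mem) (hT hz).2 (Or.inr hz)
          exact ⟨b, hbW.resolve_left hb, hb, a, ha, hab⟩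
        have h5 := hdeg (insert z S) (hS.con.nb_ins hzN) (Or.inr hS.mem)
          ((ncard_insert_le _ _).trans (by omega)) z (Or.inl rfl)
        have h6 : ec G {z} univ = ec G {z} S + ec G {z} Sᶜ := by
          rw [← ec_union_right disjoint_compl_right, union_compl_self]
        have h7 := ec_singleton_le_ncard (G := G) z S
        have h8 := hec z hz
        omega

/-- A junction near which all degrees are at least `(n + 5) / 2` gives a good set. -/
theorem jn_min {V : Type} [Finite V] {G : SimpleGraph V} {L R : Set V} {w : V} {n : ℕ}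
    (h : Jn G L R w n) (hn : 1 ≤ n)
    (hdeg : ∀ C : Set V, Con G C → w ∈ C → C.ncard ≤ n + 1 → ∀ x ∈ C, n + 5 ≤ 2 * ec G {x} univ) :
    ∃ S, Good G n S := by
  obtain ⟨S, hS, hSc⟩ := exists_state_small h.rL h.cL hdeg ((n + 1) / 2) (by omega) (by omega)
    (by omega)
  obtain ⟨S', hS', hSc'⟩ := exists_state_small h.rR h.cR hdeg (n + 1 - (n + 1) / 2) (by omega)
    (by omega) (by omega)
  exact ⟨S ∪ S', h.good hS hS' (by omega)⟩

end T3

end Pool.Agent.Lib.MP_d9512b_co
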