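import Pool.Agent.Lib.MP_d9512b_co.T3.Base

set_option autoImplicit false

/-!
(B1) Maximal solid sets, (B2) the first far situation.
-/

namespace Pool.Agent.Lib.MP_d9512b_co.T3

open Set

variable {V : Type*} {G : SimpleGraph V} {B C E F K L O Q R S S' U W : Set V}
  {a b c p u v w x y z : V} {n k : ℕ}

theorem stMax : StMax := by
  classical
  intro V _ G B0 M u v h hB0 h3 hu hv hvM hr
  obtain ⟨⟨B, x⟩, hBx, hmax⟩ := exists_max_image
    {q : Set V × V | B0 ⊆ q.1 ∧ Sol G q.1 ∧ u ∉ q.1 ∧ q.2 ∈ M ∧ Rc G q.1ᶜ u q.2}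
    (fun q => q.1.ncard) (toFinite _) ⟨(B0, v), Subset.rfl, hB0, hu, hvM, hr⟩
  obtain ⟨h0, hs, huB, hxM, hrx⟩ := hBx
  simp only at h0 hs huB hxM hrx
  have hB3 : 3 ≤ B.ncard := h3.trans (ncard_le_ncard h0 (toFinite _))
  have main : ∀ F : Set V, Con G F → F ⊆ Bᶜ → u ∉ F → (∃ x' ∈ M, Rc G (Bᶜ \ F) u x') →
      (Nb G F ∩ B).ncard ≤ 1 := by
    rintro F hF hFB huF ⟨x', hx'M, hr'⟩
    by_contra hcon
    obtain ⟨b, hb, b', hb', hne⟩ := exists_two (U := Nb G F ∩ B) (by omega)
    obtain ⟨C, hCF, ⟨c, hc⟩, hCs⟩ := hs.ear hF (fun z hz => hFB hz)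
      ⟨b, hb.2, b', hb'.2, hne, hb.1, hb'.1⟩
    have h1 := hmax (B ∪ C, x') ⟨h0.trans subset_union_left, hCs, fun h' =>
      h'.elim huB (fun h' => huF (hCF h')), hx'M, hr'.mono fun z hz hz' =>
        hz'.elim hz.1 (fun h' => hz.2 (hCF h'))⟩
    simp only at h1
    have h2 : B.ncard < (B ∪ C).ncard := by
      apply ncard_lt_ncard _ (toFinite _)
      exact ⟨subset_union_left, fun h' => hFB (hCF hc) (h' (Or.inr hc))⟩
    omega
  refine ⟨B, x, h0, hxM, ⟨h, hs, hB3, huB, hrx.right_mem, ?_, ?_⟩, main⟩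
  · have h1 : ∀ z ∈ Bᶜ, Rc G Bᶜ u z := by
      intro z hz
      by_contra hcon
      have huK : u ∉ cmp G Bᶜ z := fun h' => hcon (Rc.symm h')
      have h1 := main (cmp G Bᶜ z) (con_cmp hz) cmp_subset huK ⟨x, hxM, by
        refine (rc_cmp hrx).mono fun w hw => ⟨cmp_subset hw, fun hw' => huK ?_⟩
        exact Rc.trans hw' (Rc.symm hw)⟩
      have h2 := h.three_le_of (E := cmp G Bᶜ z) ⟨z, mem_cmp_self hz⟩ cmp_subset hB3
      have h4 : Nb G (cmp G Bᶜ z) ∩ B = Nb G (cmp G Bᶜ z) := by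
        rw [inter_eq_left]
        intro w hw
        by_contra hwB
        exact notMem_of_mem_nb_cmp hw hwB
      rw [h4] at h1
      omega
    exact ⟨⟨u, huB⟩, fun p hp q hq => (h1 p hp).symm.trans (h1 q hq)⟩
  · intro F hF hFB huF _ hr'
    exact main F hF hFB huF ⟨x, hxM, hr'⟩

theorem stFar0 : StStep → StFar0 := by
  classical
  intro hStep V _ G u b k h hnr hk
  have hub : u ≠ b := by
    rintro rfl
    exact hnr ⟨{u}, con_singleton u, rfl, rfl, by rw [ncard_singleton]; omega⟩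
  have hdeg : 3 ≤ (Nb G {b}).ncard := by
    refine h.three_le ⟨b, rfl⟩ ?_
    have h1 := ncard_add_ncard_compl ({b} : Set V)
    rw [ncard_singleton] at h1
    have := h.1
    omega
  obtain ⟨b1, hb1⟩ : (Nb G {b}).Nonempty := (ncard_pos (toFinite _)).1 (by omega)
  have hbb1 : G.Adj b b1 := by
    obtain ⟨-, c, hc, hcb⟩ := hb1
    rw [mem_singleton_iff] at hc
    exact hc ▸ hcb
  have hub1 : u ≠ b1 := by
    rintro rfl
    refine hnr ⟨{u, b}, con_pair hbb1.symm, Or.inl rfl, Or.inr rfl, ?_⟩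
    have := ncard_insert_le u ({b} : Set V)
    rw [ncard_singleton] at this
    omega
  set W : Set V := {u, b, b1}ᶜ with hWdef
  have huW : u ∉ W := fun h' => h' (Or.inl rfl)
  have hbW : b ∉ W := fun h' => h' (Or.inr (Or.inl rfl))
  have hb1W : b1 ∉ W := fun h' => h' (Or.inr (Or.inr rfl))
  have hW : Rgn G W u := by
    refine ⟨huW, ?_, ?_⟩
    · have h1 : insert u W = ({b, b1} : Set V)ᶜ := by
        ext z
        simp only [hWdef, mem_insert_iff, mem_compl_iff, mem_singleton_iff]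
        constructor
        · rintro (rfl | hz)
          · tauto
          · tauto
        · intro hz
          by_cases hzu : z = u
          · exact Or.inl hzu
          · right
            tauto
      rw [h1]
      have h2 : ({b, b1} : Set V).ncard ≤ 2 := by
        have := ncard_insert_le b ({b1} : Set V)
        rw [ncard_singleton] at this
        omega
      refine ⟨⟨u, ?_⟩, fun p hp q hq => h.2 _ h2 p q hp hq⟩
      rintro (h' | h')
      · exact hub h'
      · exact hub1 h'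
    · intro E hE hne
      refine h.three_le hne ?_
      rw [← ncard_three (a := u) (b := b) (c := b1) hub hub1 hbb1.ne]
      exact ncard_le_ncard (fun z hz hzE => hE hzE hz) (toFinite _)
  have hWne : W.Nonempty := by
    rw [← ncard_pos (toFinite _), hWdef]
    have h1 := ncard_add_ncard_compl ({u, b, b1} : Set V)
    have h2 := ncard_three_le u b b1
    have := h.1
    omega
  obtain ⟨S, ⟨hS, hSne⟩, hmax⟩ := exists_max_image {S | St G W u S ∧ (W \ S).Nonempty}
    (fun S => S.ncard) (toFinite _) ⟨{u}, hW.st_singleton, by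
      obtain ⟨z, hz⟩ := hWne
      exact ⟨z, hz, fun e => huW (by
        rw [mem_singleton_iff] at e
        exact e ▸ hz)⟩⟩
  obtain ⟨T, hT, hST, hTc⟩ := hStep V G W u S hW hS hSne
  have hTne : T.Nonempty := by
    rcases hTc with ⟨t, rfl, -⟩ | ⟨h2, -⟩
    · exact ⟨t, rfl⟩
    · exact (ncard_pos (toFinite _)).1 (by omega)
  have hTW : T = W \ S := by
    refine hT.antisymm fun z hz => ?_
    by_contra hzT
    have h1 := hmax (S ∪ T) ⟨hST, z, hz.1, fun h' => h'.elim hz.2 hzT⟩
    have h2 : S.ncard < (S ∪ T).ncard := by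
      apply ncard_lt_ncard _ (toFinite _)
      obtain ⟨t, ht⟩ := hTne
      exact ⟨subset_union_left, fun h' => (hT ht).2 (h' (Or.inr ht))⟩
    omega
  have hbS : b ∉ S := fun h' => (hS.sub h').elim (fun e => hub e.symm) hbW
  have hb1S : b1 ∉ S := fun h' => (hS.sub h').elim (fun e => hub1 e.symm) hb1W
  have hbT : b ∉ T := fun h' => hbW (hT h').1
  have hSc : Sᶜ = {b, b1} ∪ T := by
    ext z
    constructor
    · intro hz
      by_cases hzW : z ∈ W
      · right
        rw [hTW]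
        exact ⟨hzW, hz⟩
      · have h1 : z ∈ ({u, b, b1} : Set V) := by
          by_contra h1
          exact hzW h1
        rcases h1 with rfl | h1
        · exact absurd hS.mem hz
        · exact Or.inl h1
    · rintro ((rfl | hz) | hz)
      · exact hbS
      · rw [mem_singleton_iff] at hz
        exact hz ▸ hb1S
      · exact (hT hz).2
  have hsol : Sol G Sᶜ := by
    rw [hSc]
    refine Sol.union_of (sol_pair hbb1) fun E hE hne => ?_
    have h1 := hS.two E (hE.trans hT) hne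
    refine h1.trans (ncard_le_ncard (fun z hz => ⟨hz.1, ?_⟩) (toFinite _))
    rw [← hSc]
    exact hz.2
  have hS3 : 3 ≤ Sᶜ.ncard := by
    obtain ⟨t, ht⟩ := hTne
    rw [← ncard_three (a := b) (b := b1) (c := t) hbb1.ne (fun e => hbT (e ▸ ht))
      (fun e => hb1W (e ▸ (hT ht).1)), hSc]
    refine ncard_le_ncard ?_ (toFinite _)
    rintro z (rfl | rfl | hz)
    · exact Or.inl (Or.inl rfl)
    · exact Or.inl (Or.inr rfl)
    · rw [mem_singleton_iff] at hz
      exact Or.inr (hz ▸ ht)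
  -- a neighbour of `b` in `S`
  have hTb : ∀ t ∈ T, ∀ t' ∈ T, G.Adj t b → G.Adj t' b → t = t' := by
    intro t ht t' ht' htb htb'
    rcases hTc with ⟨t0, rfl, -⟩ | ⟨-, -, -, h1⟩
    · rw [mem_singleton_iff] at ht ht'
      exact ht.trans ht'.symm
    · have h2 := h1 b (fun h' => h'.elim hbS hbT)
      exact (ec_unique h2 ht rfl htb ht' rfl htb').1
  obtain ⟨v, hvN, hvS⟩ : ∃ v, G.Adj b v ∧ v ∈ S := by
    by_contra hcon
    push Not at hcon
    have h1 : ∃ t0, ∀ t ∈ T, G.Adj t b → t = t0 := by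
      by_cases h2 : ∃ t ∈ T, G.Adj t b
      · obtain ⟨t, ht, htb⟩ := h2
        exact ⟨t, fun t' ht' htb' => hTb t' ht' t ht htb' htb⟩
      · push Not at h2
        exact ⟨b, fun t ht htb => absurd htb (h2 t ht)⟩
    obtain ⟨t0, ht0⟩ := h1
    have h2 : Nb G {b} ⊆ {b1, t0} := by
      rintro z ⟨hzb, c, hc, hcz⟩
      rw [mem_singleton_iff] at hc
      subst hc
      have h3 : z ∈ Sᶜ := hcon z hcz
      rw [hSc] at h3
      rcases h3 with (h3 | h3) | h3
      · exact absurd h3 hzb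
      · exact Or.inl h3
      · exact Or.inr (ht0 z h3 hcz.symm)
    have h3 := ncard_le_ncard h2 (toFinite _)
    have h4 := ncard_insert_le b1 ({t0} : Set V)
    rw [ncard_singleton] at h4
    omega
  have hvk : ¬ Nr G u v k := fun h' => hnr (h'.adj hvN.symm)
  obtain ⟨B, x, hB, hx, hF, -⟩ := stMax V G Sᶜ {v} u v h hsol hS3 (fun h' => h' hS.mem)
    (fun h' => h' hvS) rfl (by
      rw [compl_compl]
      exact hS.con.2 u hS.mem v hvS)
  rw [mem_singleton_iff] at hx
  subst hx
  exact ⟨B, x, hF, hB hbS, hvk⟩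

end Pool.Agent.Lib.MP_d9512b_co.T3
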