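import Pool.Agent.Lib.MP_d9512b_co.T3.JnI
import Pool.Agent.Lib.MP_d9512b_co.T3.Max
import Pool.Agent.Lib.MP_d9512b_co.T3.Link
import Pool.Agent.Lib.MP_d9512b_co.T3.Anch

set_option autoImplicit false

/-!
(C1) The structure lemma: near each vertex of a 3-connected graph with a far vertex there is a
junction. The statement StSecond (B6) and the first far situation StFar0 (B2) are hypotheses.
-/

namespace Pool.Agent.Lib.MP_d9512b_co.T3

open Set

variable {V : Type*} {G : SimpleGraph V} {B C E F K L O Q R S S' U W : Set V}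
  {a a' b c c1 c' m1 m2 p u v w x y z : V} {n k M N : ℕ}

theorem Web3.symm (h : Web3 G W c c' m1 m2) : Web3 G W c' c m1 m2 where
  con := h.con
  nb := by
    rw [h.nb]
    ext z
    simp only [mem_insert_iff, mem_singleton_iff]
    tauto
  three := h.three
  nox := fun F F' hF hF' hFc hFc' hd h1 h2 h3 h4 => h.nox F F' hF hF' hFc hFc' hd h2 h1 h3 h4

theorem WL3.symm (h : WL3 G B u v W c c1 m1 m2) : WL3 G B v u W c1 c m1 m2 where
  web := h.web.symm
  hc := by
    rw [cut_comm]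
    exact h.hc1
  hc1 := by
    rw [cut_comm]
    exact h.hc
  ne := h.ne.symm
  WH := by
    rw [cut_comm]
    exact h.WH
  m1B := h.m1B
  m2B := h.m2B
  mne := h.mne
  nadj := fun h' => h.nadj h'.symm
  right := h.left
  left := h.right

/-- The other side of a separation of order three with a near vertex and a far vertex. -/
theorem other_side [Finite V] (hG : Cn3 G) (hN : Nb G E = {w, a, a'}) (hE : E.Nonempty)
    (hw : Nr G u w k) (hy : y ∉ E) (hyf : ¬ Nr G u y (k + n)) (h4 : 4 ≤ Eᶜ.ncard) :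
    n ≤ (E ∪ {w, a, a'})ᶜ.ncard := by
  by_contra hcon
  push Not at hcon
  have hO : (E ∪ {w, a, a'})ᶜ.Nonempty := by
    rw [nonempty_iff_ne_empty]
    intro h0
    rw [compl_empty_iff] at h0
    have h1 : Eᶜ ⊆ {w, a, a'} := by
      intro z hz
      have h2 : z ∈ E ∪ {w, a, a'} := by
        rw [h0]
        exact mem_univ z
      exact h2.resolve_left hz
    have h2 := ncard_le_ncard h1 (toFinite _)
    have h3 := ncard_three_le w a a'
    omega
  -- components of the other side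
  have key : ∀ z ∈ (E ∪ {w, a, a'})ᶜ, ∀ t ∈ ({w, a, a'} : Set V),
      t ∈ Nb G (cmp G (E ∪ {w, a, a'})ᶜ z) := by
    intro z hz t ht
    obtain ⟨e, he⟩ := hE
    have h1 : Nb G (cmp G (E ∪ {w, a, a'})ᶜ z) ⊆ {w, a, a'} := by
      intro s hs
      have h2 := notMem_of_mem_nb_cmp hs
      rw [mem_compl_iff, not_not] at h2
      rcases h2 with h2 | h2
      · exfalso
        obtain ⟨-, q, hq, hqs⟩ := hs
        have h3 := cmp_subset hq
        have h5 : q ∉ E := fun h' => h3 (Or.inl h')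
        have h6 : q ∈ Nb G E := ⟨h5, s, h2, hqs.symm⟩
        rw [hN] at h6
        exact h3 (Or.inr h6)
      · exact h2
    have h3 : 3 ≤ (Nb G (cmp G (E ∪ {w, a, a'})ᶜ z)).ncard := by
      refine hG.le_nb (z := e) (mem_cmp_self hz) (fun h' => cmp_subset h' (Or.inl he)) ?_
      intro h'
      have h5 := h1 h'
      rw [← hN] at h5
      exact h5.1 he
    rw [mem_of_three h1 h3]
    exact ht
  have hwt : w ∈ ({w, a, a'} : Set V) := Or.inl rfl
  by_cases hyN : y ∈ ({w, a, a'} : Set V)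
  · obtain ⟨z, hz⟩ := hO
    by_cases hyw : y = w
    · subst hyw
      exact hyf (hw.mono (by omega))
    · obtain ⟨D, h1, h2, h3, h5⟩ := hw
      refine hyf ⟨D ∪ insert y (cmp G (E ∪ {w, a, a'})ᶜ z), ?_, Or.inl h2, Or.inr (Or.inl rfl),
        ?_⟩
      · obtain ⟨-, q, hq, hqw⟩ := key z hz w hwt
        exact h1.union_adj ((con_cmp hz).nb_ins (key z hz y hyN)) h3 (Or.inr hq) hqw.symm
      · have h6 := ncard_union_le D (insert y (cmp G (E ∪ {w, a, a'})ᶜ z))
        have h7 := ncard_insert_le y (cmp G (E ∪ {w, a, a'})ᶜ z)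
        have h8 := ncard_le_ncard (cmp_subset (G := G) (U := (E ∪ {w, a, a'})ᶜ) (x := z))
          (toFinite _)
        omega
  · have hyO : y ∈ (E ∪ {w, a, a'})ᶜ := by
      rintro (h' | h')
      · exact hy h'
      · exact hyN h'
    obtain ⟨D, h1, h2, h3, h5⟩ := hw
    refine hyf ⟨D ∪ cmp G (E ∪ {w, a, a'})ᶜ y, ?_, Or.inl h2, Or.inr (mem_cmp_self hyO), ?_⟩
    · obtain ⟨-, q, hq, hqw⟩ := key y hyO w hwt
      exact h1.union_adj (con_cmp hyO) h3 hq hqw.symm
    · have h6 := ncard_union_le D (cmp G (E ∪ {w, a, a'})ᶜ y)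
      have h8 := ncard_le_ncard (cmp_subset (G := G) (U := (E ∪ {w, a, a'})ᶜ) (x := y))
        (toFinite _)
      omega

/-- Walk along the chain from a near end `x` to a far end `v`. -/
theorem walk {V : Type} [Finite V] {G : SimpleGraph V} {B : Set V} {u x v b : V} {n k M N : ℕ}
    (hn : 1 ≤ n) (h : FarG G B x v) (hx : Nr G u x k) (hb : b ∈ B)
    (hbf : ¬ Nr G u b N) (hvf : ¬ Nr G u v N) (hM : k + 2 * n + 1 ≤ M) (hN : M + n ≤ N) :
    (∃ w L R, Nr G u w M ∧ Jn G L R w n) ∨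
      ∃ W c c1 m1 m2, WL3 G B x v W c c1 m1 m2 ∧
        (∀ y ∈ insert c (Sd G B x c), Nr G u y (k + n)) ∧ ¬ Nr G u c1 M ∧ n ≤ W.ncard := by
  classical
  obtain ⟨c, ⟨hc, hcn⟩, hmax⟩ := (toFinite {c | c ∈ Cut G Bᶜ x v ∧
    (Sd G B x c).ncard < n}).exists_maximalFor (fun c => (Sd G B x c).ncard) _
    ⟨x, left_mem_cut h.hu, by rw [sd_self_empty, ncard_empty]; omega⟩
  have hmax' : ∀ d ∈ Cut G Bᶜ x v, (Sd G B x c).ncard < (Sd G B x d).ncard →
      n ≤ (Sd G B x d).ncard := by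
    intro d hd hlt
    by_contra hcon
    push Not at hcon
    have := hmax (j := d) ⟨hd, hcon⟩ hlt.le
    simp only at this
    omega
  have hcon := h.con_side hc
  have hcard : (insert c (Sd G B x c)).ncard ≤ n := by
    have := ncard_insert_le c (Sd G B x c)
    omega
  have hnear : ∀ y ∈ insert c (Sd G B x c), Nr G u y (k + n) := fun y hy =>
    hx.ext hcon.1 hcon.2 hy hcard
  have hcnear := hnear c (Or.inl rfl)
  have hcv : c ≠ v := by
    rintro rfl
    exact hvf (hcnear.mono (by omega))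
  obtain ⟨c1, hc1, hne, hsub, hcase⟩ := stLink3 V G B x v c h hc hcv
  have hL1 : n ≤ (Sd G B x c1).ncard := by
    refine hmax' c1 hc1 ?_
    have h1 := ncard_le_ncard hsub (toFinite _)
    rw [ncard_insert_of_notMem notMem_sd_self (toFinite _)] at h1
    omega
  by_cases hnr : Nr G u c1 M
  · left
    refine ⟨c1, _, _, hnr, stJnII V G B x v c1 n h hc1 hn hL1 ?_⟩
    by_contra hcon'
    push Not at hcon'
    have h1 := h.symm.con_side (c := c1) (by rw [cut_comm]; exact hc1)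
    refine hvf ((hnr.ext h1.1 (Or.inl rfl) h1.2 (n := n) ?_).mono (by omega))
    have := ncard_insert_le c1 (Sd G B v c1)
    omega
  · rcases hcase with hadj | ⟨K, m, hmB, hK, hKH, hKN⟩ | ⟨W, m1, m2, hW⟩
    · exact absurd ((hcnear.adj hadj).mono (by omega)) hnr
    · left
      have hKn : n ≤ K.ncard := by
        by_contra hcon'
        push Not at hcon'
        have hcK : c ∈ Nb G K := by rw [hKN]; exact Or.inl rfl
        have hc1K : c1 ∈ Nb G K := by rw [hKN]; exact Or.inr (Or.inl rfl)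
        have hcon1 : Con G (insert c1 K) := hK.nb_ins hc1K
        obtain ⟨D, h1, h2, h3, h5⟩ := hcnear
        obtain ⟨-, q, hq, hqc⟩ := hcK
        refine hnr ⟨D ∪ insert c1 K, h1.union_adj hcon1 h3 (Or.inr hq) hqc.symm, Or.inl h2,
          Or.inr (Or.inl rfl), ?_⟩
        have h6 := ncard_union_le D (insert c1 K)
        have h7 := ncard_insert_le c1 K
        omega
      have hcB : c ∉ B := hc.1
      have hc1B : c1 ∉ B := hc1.1
      have hbK : b ∉ K := fun h' => (hKH h').1 hb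
      have hKB : K ⊆ Bᶜ := fun z hz => (hKH hz).1
      have hcK : c ∉ K := fun h' => (hKH h').2 hc
      have h4 : 4 ≤ Kᶜ.ncard := by
        have h5 : insert c B ⊆ Kᶜ := insert_subset hcK fun z hz hz' => hKB hz' hz
        have h6 := ncard_le_ncard h5 (toFinite _)
        rw [ncard_insert_of_notMem hcB (toFinite _)] at h6
        have := h.three
        omega
      refine ⟨c, _, _, hcnear.mono (by omega), stJnI V G K c c1 m n h.cn hKN hne.symm
        (fun e => hcB (e ▸ hmB)) (fun e => hc1B (e ▸ hmB)) hn hKn ?_⟩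
      refine other_side h.cn hKN hK.1 hcnear hbK (fun h' => hbf (h'.mono (by omega))) h4
    · right
      refine ⟨W, c, c1, m1, m2, hW, hnear, hnr, ?_⟩
      by_contra hcon'
      push Not at hcon'
      have hcW : c ∈ Nb G W := by rw [hW.web.nb]; exact Or.inl rfl
      have hc1W : c1 ∈ Nb G W := by rw [hW.web.nb]; exact Or.inr (Or.inl rfl)
      have hcon1 : Con G (insert c1 W) := hW.web.con.nb_ins hc1W
      obtain ⟨D, h1, h2, h3, h5⟩ := hcnear
      obtain ⟨-, q, hq, hqc⟩ := hcW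
      refine hnr ⟨D ∪ insert c1 W, h1.union_adj hcon1 h3 (Or.inr hq) hqc.symm, Or.inl h2,
        Or.inr (Or.inl rfl), ?_⟩
      have h6 := ncard_union_le D (insert c1 W)
      have h7 := ncard_insert_le c1 W
      omega

/-- A junction from a separation of order three with a near vertex. -/
theorem jn_of_sep {V : Type} [Finite V] {G : SimpleGraph V} {E W' : Set V} {u w a a' y c : V}
    {B : Set V} {n k N : ℕ} (hn : 1 ≤ n) (hG : Cn3 G) (hN : Nb G E = {w, a, a'}) (h1 : w ≠ a)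
    (h2 : w ≠ a') (h3 : a ≠ a') (hEn : n ≤ E.ncard) (hw : Nr G u w k) (hEW : E ⊆ W')
    (hWB : W' ⊆ Bᶜ) (hcW : c ∉ W') (hcB : c ∉ B) (hB : 3 ≤ B.ncard) (hy : y ∈ B)
    (hyf : ¬ Nr G u y N) (hkN : k + n ≤ N) : ∃ w L R, Nr G u w k ∧ Jn G L R w n := by
  refine ⟨w, _, _, hw, stJnI V G E w a a' n hG hN h1 h2 h3 hn hEn ?_⟩
  refine other_side hG hN ((ncard_pos (toFinite _)).1 (by omega)) hw
    (fun h' => hWB (hEW h') hy) (fun h' => hyf (h'.mono hkN)) ?_
  have h5 : insert c B ⊆ Eᶜ := insert_subset (fun h' => hcW (hEW h'))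
    fun z hz hz' => hWB (hEW hz') hz
  have h6 := ncard_le_ncard h5 (toFinite _)
  rw [ncard_insert_of_notMem hcB (toFinite _)] at h6
  omega

/-- (C1) from (B2) and (B6). -/
theorem stSL_of (hFar : StFar0) (hSec : StSecond) : StSL := by
  intro n hn
  refine ⟨8 * n + 8, fun V _ G u b hG hbf => ?_⟩
  obtain ⟨B, v, h, hb, hvf⟩ := hFar V G u b (8 * n + 7) hG hbf (by omega)
  have hbf' : ¬ Nr G u b (8 * n + 7) := fun h' => hbf (h'.mono (by omega))
  have huu : Nr G u u 1 := ⟨{u}, con_singleton u, rfl, rfl, by rw [ncard_singleton]⟩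
  have fin : ∀ j, j ≤ 8 * n + 8 → (∃ w L R, Nr G u w j ∧ Jn G L R w n) →
      ∃ w L R, Nr G u w (8 * n + 8) ∧ Jn G L R w n := by
    rintro j hj ⟨w, L, R, h1, h2⟩
    exact ⟨w, L, R, h1.mono hj, h2⟩
  rcases walk (M := 7 * n + 7) hn h huu hb hbf' hvf (by omega) (by omega) with h1 | h1
  · exact fin _ (by omega) h1
  obtain ⟨W, c, c1, m1, m2, hW, hnear, hc1f, hWn⟩ := h1
  have hcnear := hnear c (Or.inl rfl)
  have hcB : c ∉ B := hW.hc.1
  have hc1B : c1 ∉ B := hW.hc1.1
  have hcm1 : c ≠ m1 := fun e => hcB (e ▸ hW.m1B)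
  have hcm2 : c ≠ m2 := fun e => hcB (e ▸ hW.m2B)
  have hc1m1 : c1 ≠ m1 := fun e => hc1B (e ▸ hW.m1B)
  have hc1m2 : c1 ≠ m2 := fun e => hc1B (e ▸ hW.m2B)
  by_cases hm : Nr G u m1 (4 * n + 4)
  · -- the near end of the second chain is a neighbour of `m1`
    obtain ⟨W', hWW', hW'B, hcase⟩ := stAnch V G B v u W c1 c m1 m2 h.symm hW.symm
    have hW'B' : W' ⊆ Bᶜ := fun z hz => (hW'B hz).1
    have hc1W' : c1 ∉ W' := fun h' => (hW'B h').2 (Or.inl rfl)
    rcases hcase with ⟨c', hweb, hc'c1, hc'm1, hc'm2, hsol⟩ | ⟨hWc, hWN⟩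
    · obtain ⟨Q, x, hQ, hxW, hxm, hF, hE⟩ := hSec V G W' c1 c' m1 m2 hG hweb hc'c1.symm hc1m1
        hc1m2 hc'm1 hc'm2 hW.mne hsol
      have hBQ : B ⊆ Q := fun z hz => hQ fun h' => h'.elim (fun e => hc1B (e ▸ hz))
        (fun h' => hW'B' h' hz)
      have hxn : Nr G u x (4 * n + 5) := (hm.adj hxm.symm).mono (by omega)
      rcases walk (M := 6 * n + 6) (N := 7 * n + 7) hn hF.symm hxn (hBQ hb)
        (fun h' => hbf' (h'.mono (by omega))) hc1f (by omega) (by omega) with h1 | h1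
      · exact fin _ (by omega) h1
      obtain ⟨W1, d, d1, k1, k2, hW1, hnear1, hd1f, hW1n⟩ := h1
      obtain ⟨E, hEW, hW1E, p0, hp0, p1, hp1, p2, hp2, h01, h02, h12, hEN⟩ :=
        hE W1 d1 d k1 k2 hW1.symm
      have hEn : n ≤ E.ncard := hW1n.trans (ncard_le_ncard hW1E (toFinite _))
      have hp1n : Nr G u p1 (5 * n + 5) := by
        rcases hp1 with rfl | hp1
        · exact hm.mono (by omega)
        · exact (hnear1 p1 hp1).mono (by omega)
      have hEN' : Nb G E = {p1, p0, p2} := by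
        rw [hEN]
        exact insert_comm _ _ _
      exact fin _ (by omega) (jn_of_sep hn hG hEN' h01.symm h12 h02 hEn hp1n hEW hW'B' hc1W' hc1B
        h.three hb hbf' (by omega))
    · have hWn' : n ≤ W'.ncard := hWn.trans (ncard_le_ncard hWW' (toFinite _))
      have hWN' : Nb G W' = {m1, c1, m2} := by
        rw [hWN]
        exact insert_comm _ _ _
      exact fin _ (by omega) (jn_of_sep hn hG hWN' hc1m1.symm hW.mne hc1m2 hWn' hm Subset.rfl
        hW'B' hc1W' hc1B h.three hb hbf' (by omega))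
  · -- the near end of the second chain is `c`
    obtain ⟨W', hWW', hW'B, hcase⟩ := stAnch V G B u v W c c1 m1 m2 h hW
    have hW'B' : W' ⊆ Bᶜ := fun z hz => (hW'B hz).1
    have hcW' : c ∉ W' := fun h' => (hW'B h').2 (Or.inl rfl)
    rcases hcase with ⟨c', hweb, hc'c, hc'm1, hc'm2, hsol⟩ | ⟨hWc, hWN⟩
    · obtain ⟨Q, x, hQ, hxW, hxm, hF, hE⟩ := hSec V G W' c c' m1 m2 hG hweb hc'c.symm hcm1
        hcm2 hc'm1 hc'm2 hW.mne hsol
      have hBQ : B ⊆ Q := fun z hz => hQ fun h' => h'.elim (fun e => hcB (e ▸ hz))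
        (fun h' => hW'B' h' hz)
      have hxf : ¬ Nr G u x (4 * n + 3) := fun h' => hm ((h'.adj hxm).mono (by omega))
      rcases walk (M := 3 * n + 2) (N := 4 * n + 3) hn hF hcnear (hBQ hb)
        (fun h' => hbf' (h'.mono (by omega))) hxf (by omega) (by omega) with h1 | h1
      · exact fin _ (by omega) h1
      obtain ⟨W1, d, d1, k1, k2, hW1, hnear1, hd1f, hW1n⟩ := h1
      obtain ⟨E, hEW, hW1E, p0, hp0, p1, hp1, p2, hp2, h01, h02, h12, hEN⟩ :=
        hE W1 d d1 k1 k2 hW1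
      have hEn : n ≤ E.ncard := hW1n.trans (ncard_le_ncard hW1E (toFinite _))
      exact fin _ (by omega) (jn_of_sep hn hG hEN h01 h02 h12 hEn (hnear1 p0 hp0) hEW hW'B' hcW'
        hcB h.three hb hbf' (by omega))
    · have hWn' : n ≤ W'.ncard := hWn.trans (ncard_le_ncard hWW' (toFinite _))
      exact fin _ (by omega) (jn_of_sep hn hG hWN hcm1 hcm2 hW.mne hWn' hcnear Subset.rfl
        hW'B' hcW' hcB h.three hb hbf' (by omega))

end Pool.Agent.Lib.MP_d9512b_co.T3
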