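import Pool.Agent.Lib.MP_d9512b_co.CC.Sub
import Pool.Agent.Lib.MP_d9512b_co.T3.Defs

set_option autoImplicit false
set_option linter.unusedSectionVars false

/-!
The step lemma for states in graphs without connectivity four: a state grows by a single vertex or
by a path of vertices which have exactly two neighbours outside of the state.
-/

namespace Pool.Agent.Lib.MP_d9512b_co

open Set

namespace T3

variable {V : Type*} {G : SimpleGraph V} {W S T F E K : Set V} {c x y z t u v p q r : V}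

/-- Connected sets which are minimal with respect to having two given neighbours. -/
structure Mp (G : SimpleGraph V) (T : Set V) (p q : V) : Prop where
  con : Con G T
  ne : p ≠ q
  hp : p ∈ Nb G T
  hq : q ∈ Nb G T
  min : ∀ F ⊆ T, Con G F → p ∈ Nb G F → q ∈ Nb G F → F = T

theorem Mp.symm (h : Mp G T p q) : Mp G T q p :=
  ⟨h.con, h.ne.symm, h.hq, h.hp, fun F hF hc h1 h2 => h.min F hF hc h2 h1⟩

theorem Mp.peel [Finite V] (h : Mp G T p q) (h2 : 2 ≤ T.ncard) :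
    ∃ x ∈ T, G.Adj x p ∧ (∀ y ∈ T, G.Adj y p → y = x) ∧ ¬ G.Adj x q ∧ p ∉ Nb G (T \ {x}) ∧
      Mp G (T \ {x}) x q := by
  obtain ⟨hpT, x, hxT, hxp⟩ := h.hp
  obtain ⟨hqT, w, hwT, hwq⟩ := h.hq
  have hnx : ¬ G.Adj x q := by
    intro hxq
    have h1 := h.min {x} (singleton_subset_iff.2 hxT) (con_singleton x)
      ⟨fun h' => hpT (h' ▸ hxT), x, rfl, hxp⟩ ⟨fun h' => hqT (h' ▸ hxT), x, rfl, hxq⟩
    rw [← h1, ncard_singleton] at h2
    omega
  have hwx : w ≠ x := fun h' => hnx (h' ▸ hwq)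
  have hwF : w ∈ cmp G (T \ {x}) w := mem_cmp_self ⟨hwT, hwx⟩
  have hxF : x ∉ cmp G (T \ {x}) w := fun h' => (cmp_subset h').2 rfl
  have hcF : Con G (cmp G (T \ {x}) w) := con_cmp ⟨hwT, hwx⟩
  obtain ⟨a, ha, b, hb, -, hbT, hab⟩ := h.con.exists_edge (X := cmp G (T \ {x}) w) hwF hwT hxF hxT
  have hbx : b = x := by
    by_contra hbx
    exact hb (cmp_closed ha ⟨hbT, hbx⟩ hab)
  rw [hbx] at hab
  have hFT : cmp G (T \ {x}) w ⊆ T := cmp_subset.trans sdiff_subset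
  have hins : insert x (cmp G (T \ {x}) w) = T := by
    refine h.min _ (insert_subset hxT hFT) (hcF.ins ha hab) ?_ ?_
    · exact ⟨fun h' => hpT (insert_subset hxT hFT h'), x, mem_insert _ _, hxp⟩
    · exact ⟨fun h' => hqT (insert_subset hxT hFT h'), w, mem_insert_of_mem _ hwF, hwq⟩
  have hFe : T \ {x} = cmp G (T \ {x}) w := by
    refine Subset.antisymm ?_ cmp_subset
    rintro y ⟨hy, hyx⟩
    rw [← hins] at hy
    exact hy.resolve_left hyx
  have hpF : p ∉ Nb G (cmp G (T \ {x}) w) := by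
    intro h'
    have := h.min _ hFT hcF h' ⟨fun h'' => hqT (hFT h''), w, hwF, hwq⟩
    rw [this] at hxF
    exact hxF hxT
  refine ⟨x, hxT, hxp, ?_, hnx, by rwa [hFe], ?_⟩
  rotate_left
  · rw [hFe]
    refine ⟨hcF, fun h' => hqT (h' ▸ hxT), ⟨hxF, a, ha, hab⟩,
      ⟨fun h'' => hqT (hFT h''), w, hwF, hwq⟩, ?_⟩
    intro F' hF' hc' hx' hq'
    obtain ⟨hx1, f, hf, hfx⟩ := hx'
    obtain ⟨hq1, g, hg, hgq⟩ := hq'
    have h3 := h.min (insert x F') (insert_subset hxT (hF'.trans hFT)) (hc'.ins hf hfx)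
      ⟨fun h' => hpT (insert_subset hxT (hF'.trans hFT) h'), x, mem_insert _ _, hxp⟩
      ⟨fun h' => hqT (insert_subset hxT (hF'.trans hFT) h'), g, mem_insert_of_mem _ hg, hgq⟩
    refine Subset.antisymm hF' fun y hy => ?_
    have h4 : y ∈ insert x F' := h3 ▸ hFT hy
    exact h4.resolve_left fun h5 => hxF (h5 ▸ hy)
  · intro y hy hyp
    by_contra hyx
    refine hpF ⟨fun h' => hpT (hFT h'), y, ?_, hyp⟩
    rw [← hFe]
    exact ⟨hy, hyx⟩

theorem ec_singleton_le [Finite V] (a b : V) : ec G {a} {b} ≤ 1 := by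
  unfold ec
  refine (ncard_le_ncard (t := {(a, b)}) ?_ (toFinite _)).trans (by rw [ncard_singleton])
  rintro ⟨x, y⟩ ⟨h1, h2, -⟩
  rw [mem_singleton_iff] at h1 h2
  simp only at h1 h2
  subst h1
  subst h2
  rfl

theorem ec_sing_self [Finite V] (a : V) : ec G {a} {a} = 0 := by
  rw [ec_eq_zero]
  rintro x hx y hy hxy
  rw [mem_singleton_iff] at hx hy
  subst hx
  subst hy
  exact G.loopless.irrefl _ hxy

theorem Mp.count [Finite V] (h : Mp G T p q) :
    ec G T {p} ≤ 1 ∧ ec G T {q} ≤ 1 ∧ ec G T T + 2 ≤ 2 * T.ncard := by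
  induction hn : T.ncard using Nat.strong_induction_on generalizing T p with
  | _ m ih =>
  by_cases h2 : 2 ≤ T.ncard
  · obtain ⟨x, hx, hxp, huniq, hxq, hpF, hF⟩ := h.peel h2
    have hlt : (T \ {x}).ncard < m := by
      rw [← hn, ncard_sdiff_singleton_of_mem hx]
      omega
    obtain ⟨h3, h4, h5⟩ := ih _ hlt hF rfl
    have hT : T = (T \ {x}) ∪ {x} := by
      rw [sdiff_union_self, union_eq_self_of_subset_right (singleton_subset_iff.2 hx)]
    have hd : Disjoint (T \ {x}) {x} := disjoint_sdiff_left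
    have hcard : (T \ {x}).ncard + 1 = m := by
      rw [← hn]
      exact ncard_sdiff_singleton_add_one hx (toFinite _)
    have e1 : ec G T {p} = ec G (T \ {x}) {p} + ec G {x} {p} := by
      conv_lhs => rw [hT]
      exact ec_union_left hd
    have e2 : ec G T {q} = ec G (T \ {x}) {q} + ec G {x} {q} := by
      conv_lhs => rw [hT]
      exact ec_union_left hd
    have e3 : ec G (T \ {x}) {p} = 0 := by
      rw [ec_eq_zero]
      intro a ha b hb hab
      rw [mem_singleton_iff] at hb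
      rw [hb] at hab
      exact ha.2 (huniq a ha.1 hab)
    have e4 : ec G {x} {q} = 0 := by
      rw [ec_eq_zero]
      intro a ha b hb hab
      rw [mem_singleton_iff] at ha hb
      rw [ha, hb] at hab
      exact hxq hab
    have e5 : ec G T T = ec G (T \ {x}) (T \ {x}) + ec G (T \ {x}) {x} +
        (ec G {x} (T \ {x}) + ec G {x} {x}) := by
      conv_lhs => rw [hT]
      rw [ec_union_left hd, ec_union_right hd, ec_union_right hd]
    have e6 : ec G {x} (T \ {x}) = ec G (T \ {x}) {x} := ec_symm _ _ _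
    have e7 := ec_sing_self (G := G) x
    have e8 := ec_singleton_le (G := G) x p
    refine ⟨by omega, by omega, by omega⟩
  · have h3 : 0 < T.ncard := (ncard_pos (toFinite _)).2 h.con.1
    obtain ⟨v, rfl⟩ := ncard_eq_one.1 (by omega : T.ncard = 1)
    rw [ncard_singleton] at hn
    refine ⟨ec_singleton_le _ _, ec_singleton_le _ _, ?_⟩
    rw [ec_sing_self]
    omega

/-- Admissible additions to a state. -/
structure Adm (G : SimpleGraph V) (W S T : Set V) : Prop where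
  sub : T ⊆ W \ S
  act : ∃ t ∈ T, t ∈ Nb G S
  two : ∀ E ⊆ W \ (S ∪ T), E.Nonempty → 2 ≤ (Nb G E \ (S ∪ T)).ncard

/-- Minimal admissible additions. -/
structure Amin (G : SimpleGraph V) (W S T : Set V) : Prop extends Adm G W S T where
  min : ∀ T', Adm G W S T' → T.ncard ≤ T'.ncard

theorem exists_amin (hz : z ∈ W \ S) (hzN : z ∈ Nb G S) : ∃ T, Amin G W S T := by
  classical
  have h : ∃ m, ∃ T, Adm G W S T ∧ T.ncard = m := by
    refine ⟨_, W \ S, ⟨Subset.rfl, ⟨z, hz, hzN⟩, ?_⟩, rfl⟩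
    rintro E hE ⟨e, he⟩
    exact absurd ⟨(hE he).1, fun h' => (hE he).2 (Or.inl h')⟩ fun h' => (hE he).2 (Or.inr h')
  obtain ⟨T, hT, hTm⟩ := Nat.find_spec h
  exact ⟨T, hT, fun T' hT' => hTm ▸ Nat.find_min' h ⟨T', hT', rfl⟩⟩

/-- Connected parts which miss an active vertex have at most one neighbour in the rest. -/
theorem Amin.ear [Finite V] (h : Amin G W S T) (hF : F ⊆ T) (hc : Con G F) (ht : t ∈ T)
    (htF : t ∉ F) (htN : t ∈ Nb G S) : (Nb G F \ (S ∪ T)).ncard ≤ 1 := by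
  by_contra hcon
  induction hn : F.ncard using Nat.strong_induction_on generalizing F with
  | _ m ih =>
  have hadm : Adm G W S (T \ F) := by
    refine ⟨sdiff_subset.trans h.sub, ⟨t, ⟨ht, htF⟩, htN⟩, ?_⟩
    intro E hE hne
    by_cases hEF : (E \ F).Nonempty
    · have h1 : E \ F ⊆ W \ (S ∪ T) := by
        rintro e ⟨he, heF⟩
        exact ⟨(hE he).1, fun h' => h'.elim (fun h' => (hE he).2 (Or.inl h'))
          fun h' => (hE he).2 (Or.inr ⟨h', heF⟩)⟩
      refine (h.two _ h1 hEF).trans (ncard_le_ncard ?_ (toFinite _))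
      rintro y ⟨⟨hy, e, he, hey⟩, hyST⟩
      have hyF : y ∉ F := fun h' => hyST (Or.inr (hF h'))
      exact ⟨⟨fun h' => hy ⟨h', hyF⟩, e, he.1, hey⟩, fun h' => h'.elim (fun h' => hyST (Or.inl h'))
        fun h' => hyST (Or.inr h'.1)⟩
    · by_contra hlt
      have hEsub : E ⊆ F := by
        intro e he
        by_contra heF
        exact hEF ⟨e, he, heF⟩
      have hEne : E ≠ F := by
        intro hEq
        rw [hEq] at hlt
        apply hcon
        have hle : (Nb G F \ (S ∪ T \ F)).ncard ≤ 1 := by omega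
        refine le_trans (ncard_le_ncard ?_ (toFinite _)) hle
        rintro y ⟨hy, hyST⟩
        exact ⟨hy, fun h' => h'.elim (fun h' => hyST (Or.inl h')) fun h' => hyST (Or.inr h'.1)⟩
      obtain ⟨f, hfF, hfE⟩ : ∃ f ∈ F, f ∉ E := by
        by_contra hcon'
        push Not at hcon'
        exact hEne (Subset.antisymm hEsub hcon')
      obtain ⟨e0, he0⟩ := hne
      have key : ∀ y ∈ Nb G E, y ∈ F → y ∈ Nb G E \ (S ∪ T \ F) := fun y hy hyF =>
        ⟨hy, fun h' => h'.elim (fun h' => (h.sub (hF hyF)).2 h') fun h' => h'.2 hyF⟩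
      obtain ⟨a, ha, y0, hy0, -, hy0F, hay⟩ := hc.exists_edge (X := E) he0 (hEsub he0) hfE hfF
      have hy0N : y0 ∈ Nb G E \ (S ∪ T \ F) := key y0 ⟨hy0, a, ha, hay⟩ hy0F
      have huniq : ∀ y ∈ Nb G E \ (S ∪ T \ F), y = y0 := by
        intro y hy
        by_contra hyy
        have : 1 < (Nb G E \ (S ∪ T \ F)).ncard :=
          (one_lt_ncard (toFinite _)).2 ⟨y, hy, y0, hy0N, hyy⟩
        omega
      have hreach : ∀ x ∈ F \ E, Rc G (F \ E) x y0 := by
        intro x hx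
        by_contra hno
        have hno' : y0 ∉ cmp G (F \ E) x := hno
        obtain ⟨p, hp, q, hq, -, hqF, hpq⟩ := hc.exists_edge (X := cmp G (F \ E) x)
          (mem_cmp_self hx) hx.1 hno' hy0F
        have hqE : q ∈ E := by
          by_contra hqE
          exact hq (cmp_closed hp ⟨hqF, hqE⟩ hpq)
        have hpFE := cmp_subset hp
        have := huniq p (key p ⟨hpFE.2, q, hqE, hpq.symm⟩ hpFE.1)
        exact hno' (this ▸ hp)
      have hconF' : Con G (F \ E) :=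
        ⟨⟨y0, hy0F, hy0⟩, fun x hx y hy => (hreach x hx).trans (hreach y hy).symm⟩
      refine ih (F \ E).ncard ?_ (sdiff_subset.trans hF) hconF' (fun h' => htF h'.1) ?_ rfl
      · rw [← hn]
        exact ncard_lt_ncard ⟨sdiff_subset, fun h' => (h' (hEsub he0)).2 he0⟩ (toFinite _)
      · intro hle
        apply hcon
        refine le_trans (ncard_le_ncard ?_ (toFinite _)) hle
        rintro y ⟨⟨hy, g, hg, hgy⟩, hyST⟩
        have hyE : y ∉ E := fun h' => hyST (Or.inr (hF (hEsub h')))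
        refine ⟨⟨fun h' => hy h'.1, g, ⟨hg, fun hgE => ?_⟩, hgy⟩, hyST⟩
        have := huniq y ⟨⟨hyE, g, hgE, hgy⟩, fun h' => h'.elim (fun h' => hyST (Or.inl h'))
          fun h' => hyST (Or.inr h'.1)⟩
        exact hyST (Or.inr (hF (this ▸ hy0F)))
  have h1 := h.min _ hadm
  obtain ⟨f, hf⟩ := hc.1
  have h2 : (T \ F).ncard < T.ncard :=
    ncard_lt_ncard ⟨sdiff_subset, fun h' => (h' (hF hf)).2 hf⟩ (toFinite _)
  omega

/-- Minimal admissible sets are connected. -/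
theorem Amin.con [Finite V] (h : Amin G W S T) (hS : St G W c S) : Con G T := by
  obtain ⟨t, ht, htN⟩ := h.act
  have h1 : ∀ y ∈ T, y ∈ cmp G T t := by
    intro y hy
    by_contra hyt
    have htF : t ∉ cmp G T y := fun h' => hyt (Rc.symm h')
    have h2 := h.ear (F := cmp G T y) cmp_subset (con_cmp hy) ht htF htN
    have h3 := hS.two (cmp G T y) (cmp_subset.trans h.sub) ⟨y, mem_cmp_self hy⟩
    have h4 : Nb G (cmp G T y) \ S ⊆ Nb G (cmp G T y) \ (S ∪ T) := by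
      rintro w ⟨hw, hwS⟩
      exact ⟨hw, fun h' => h'.elim hwS fun h' => notMem_of_mem_nb_cmp hw h'⟩
    have h5 := ncard_le_ncard h4 (toFinite _)
    omega
  exact ⟨⟨t, ht⟩, fun x hx y hy => (Rc.symm (h1 x hx)).trans (h1 y hy)⟩

theorem eq_of_ncard_le_one [Finite V] {A : Set V} (h : A.ncard ≤ 1) (hx : x ∈ A) (hy : y ∈ A) :
    x = y := by
  by_contra hne
  have := (one_lt_ncard (toFinite A)).2 ⟨x, hx, y, hy, hne⟩
  omega

/-- The two sides of an active vertex next to an inactive component. -/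
theorem Amin.side [Finite V] (h : Amin G W S T) (hS : St G W c S) {k u u' : V}
    (hk : k ∈ T \ Nb G S) (_hu : u ∈ Nb G (cmp G (T \ Nb G S) k)) (huT : u ∈ T)
    (huN : u ∈ Nb G S) (hu' : u' ∈ Nb G (cmp G (T \ Nb G S) k)) (huT' : u' ∈ T)
    (huN' : u' ∈ Nb G S) (hne : u ≠ u') :
    (∀ x ∈ Nb G (cmp G (T \ {u}) k) \ (S ∪ T), ∀ y ∈ Nb G (cmp G (T \ {u}) k) \ (S ∪ T), x = y) ∧
    (∀ x ∈ Nb G (T \ cmp G (T \ {u}) k) \ (S ∪ T), ∀ y ∈ Nb G (T \ cmp G (T \ {u}) k) \ (S ∪ T),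
      x = y) ∧
    u' ∈ cmp G (T \ {u}) k ∧ cmp G (T \ Nb G S) k ⊆ cmp G (T \ {u}) k ∧
    Con G (T \ cmp G (T \ {u}) k) := by
  have hkT : k ∈ T \ {u} := ⟨hk.1, fun h' => hk.2 (h' ▸ huN)⟩
  have hKC : cmp G (T \ Nb G S) k ⊆ cmp G (T \ {u}) k :=
    cmp_mono fun z hz => ⟨hz.1, fun h' => hz.2 (h' ▸ huN)⟩
  have huC : u' ∈ cmp G (T \ {u}) k := by
    obtain ⟨-, a, ha, hau⟩ := hu'
    exact cmp_closed (hKC ha) ⟨huT', fun h' => hne h'.symm⟩ hau
  have hucon : Con G (T \ cmp G (T \ {u}) k) :=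
    (h.con hS).diff_cmp (con_singleton u) (singleton_subset_iff.2 huT) k
  refine ⟨fun x hx y hy => ?_, fun x hx y hy => ?_, huC, hKC, hucon⟩
  · exact eq_of_ncard_le_one (h.ear (cmp_subset.trans sdiff_subset) (con_cmp hkT) huT
      (fun h' => (cmp_subset h').2 rfl) huN) hx hy
  · exact eq_of_ncard_le_one (h.ear sdiff_subset hucon huT' (fun h' => h'.2 huC) huN') hx hy

/-- All vertices of a minimal admissible set are active. -/
theorem Amin.active [Finite V] (h : Amin G W S T) (hS : St G W c S)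
    (h3 : ∀ E ⊆ W, E.Nonempty → 3 ≤ (Nb G E).ncard) : T ⊆ Nb G S := by
  intro k hkT
  by_contra hkN
  have hk : k ∈ T \ Nb G S := ⟨hkT, hkN⟩
  obtain ⟨t, ht, htN⟩ := h.act
  have hTcon := h.con hS
  set K := cmp G (T \ Nb G S) k with hKdef
  have hKsub : K ⊆ T \ Nb G S := cmp_subset
  have hKcon : Con G K := con_cmp hk
  have hK3 := h3 K (fun z hz => (h.sub (hKsub hz).1).1) ⟨k, mem_cmp_self hk⟩
  -- neighbours of K are active or outside
  have hNbK : ∀ y ∈ Nb G K, (y ∈ T ∧ y ∈ Nb G S) ∨ y ∉ S ∪ T := by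
    intro y hy
    by_cases hyT : y ∈ T
    · left
      refine ⟨hyT, ?_⟩
      by_contra hyN
      obtain ⟨hyK, a, ha, hay⟩ := hy
      exact hyK (cmp_closed ha ⟨hyT, hyN⟩ hay)
    · right
      rintro (hyS | hyT')
      · obtain ⟨-, a, ha, hay⟩ := hy
        exact (hKsub ha).2 ⟨(h.sub (hKsub ha).1).2, y, hyS, hay.symm⟩
      · exact hyT hyT'
  have htK : t ∉ K := fun h' => (hKsub h').2 htN
  have hout : (Nb G K \ (S ∪ T)).ncard ≤ 1 :=
    h.ear (hKsub.trans sdiff_subset) hKcon ht htK htN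
  -- neighbours of T
  have hT2 : 2 ≤ (Nb G T \ (S ∪ T)).ncard := by
    refine (hS.two T h.sub ⟨t, ht⟩).trans (ncard_le_ncard ?_ (toFinite _))
    rintro y ⟨hy, hyS⟩
    exact ⟨hy, fun h' => h'.elim hyS hy.1⟩
  obtain ⟨b1, hb1, b2, hb2, hb⟩ := (one_lt_ncard (toFinite _)).1 hT2
  -- b1, b2 are distributed
  have hdist : ∀ u u', u ∈ Nb G K → u ∈ T → u ∈ Nb G S → u' ∈ Nb G K → u' ∈ T → u' ∈ Nb G S →
      u ≠ u' → ∀ y ∈ Nb G T \ (S ∪ T),
        (y ∈ Nb G (cmp G (T \ {u}) k) \ (S ∪ T) ∨ y ∈ Nb G (T \ cmp G (T \ {u}) k) \ (S ∪ T)) := by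
    rintro u u' - - - - - - - y ⟨⟨hy, a, ha, hay⟩, hyST⟩
    by_cases haC : a ∈ cmp G (T \ {u}) k
    · exact Or.inl ⟨⟨fun h' => hy (cmp_subset h').1, a, haC, hay⟩, hyST⟩
    · exact Or.inr ⟨⟨fun h' => hy h'.1, a, ⟨ha, haC⟩, hay⟩, hyST⟩
  -- for two active neighbours the outer sides have different neighbours
  have hpair : ∀ u u', u ∈ Nb G K → u ∈ T → u ∈ Nb G S → u' ∈ Nb G K → u' ∈ T → u' ∈ Nb G S →
      u ≠ u' → ∀ y, y ∈ Nb G (T \ cmp G (T \ {u}) k) \ (S ∪ T) →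
        y ∈ Nb G (T \ cmp G (T \ {u'}) k) \ (S ∪ T) → False := by
    intro u u' h1 h2 h4 h5 h6 h7 hne y hy1 hy2
    obtain ⟨s1, s2, s3, s4, s5⟩ := h.side hS hk h1 h2 h4 h5 h6 h7 hne
    obtain ⟨r1, r2, r3, r4, r5⟩ := h.side hS hk h5 h6 h7 h1 h2 h4 hne.symm
    -- the outer side of `u'` lies in the inner side of `u`
    have hsub : T \ cmp G (T \ {u'}) k ⊆ cmp G (T \ {u}) k := by
      refine r5.subset_cmp ?_ (y := u') ⟨h6, fun h' => (cmp_subset h').2 rfl⟩ s3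
      intro z hz
      exact ⟨hz.1, fun h' => hz.2 (h' ▸ r3)⟩
    have hy3 : y ∈ Nb G (cmp G (T \ {u}) k) \ (S ∪ T) := by
      obtain ⟨⟨hyn, a, ha, hay⟩, hyST⟩ := hy2
      exact ⟨⟨fun h' => hyST (Or.inr (cmp_subset h').1), a, hsub ha, hay⟩, hyST⟩
    -- all neighbours of `T` are equal to `y`
    have hall : ∀ w ∈ Nb G T \ (S ∪ T), w = y := by
      intro w hw
      rcases hdist u u' h1 h2 h4 h5 h6 h7 hne w hw with h' | h'
      · exact s1 w h' y hy3
      · exact s2 w h' y hy1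
    exact hb ((hall b1 hb1).trans (hall b2 hb2).symm)
  have hsides : ∀ u u', u ∈ Nb G K → u ∈ T → u ∈ Nb G S → u' ∈ Nb G K → u' ∈ T → u' ∈ Nb G S →
      u ≠ u' → ∃ y, y ∈ Nb G (T \ cmp G (T \ {u}) k) \ (S ∪ T) ∧ (y = b1 ∨ y = b2) := by
    intro u u' h1 h2 h4 h5 h6 h7 hne
    obtain ⟨s1, s2, s3, s4, s5⟩ := h.side hS hk h1 h2 h4 h5 h6 h7 hne
    rcases hdist u u' h1 h2 h4 h5 h6 h7 hne b1 hb1 with h' | h'
    · rcases hdist u u' h1 h2 h4 h5 h6 h7 hne b2 hb2 with h'' | h''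
      · exact absurd (s1 b1 h' b2 h'') hb
      · exact ⟨b2, h'', Or.inr rfl⟩
    · exact ⟨b1, h', Or.inl rfl⟩
  -- two active neighbours and one outer neighbour, or three active neighbours
  by_cases hz : (Nb G K \ (S ∪ T)).Nonempty
  · obtain ⟨y, hy⟩ := hz
    have h4 : 1 < (Nb G K ∩ T).ncard := by
      have h5 : Nb G K ⊆ (Nb G K ∩ T) ∪ (Nb G K \ (S ∪ T)) := by
        intro w hw
        rcases hNbK w hw with h' | h'
        · exact Or.inl ⟨hw, h'.1⟩
        · exact Or.inr ⟨hw, h'⟩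
      have h6 := (ncard_le_ncard h5 (toFinite _)).trans (ncard_union_le _ _)
      omega
    obtain ⟨u, hu, u', hu', hne⟩ := (one_lt_ncard (toFinite _)).1 h4
    have huN : u ∈ Nb G S := (hNbK u hu.1).elim (fun h' => h'.2) fun h' => absurd (Or.inr hu.2) h'
    have huN' : u' ∈ Nb G S :=
      (hNbK u' hu'.1).elim (fun h' => h'.2) fun h' => absurd (Or.inr hu'.2) h'
    obtain ⟨s1, s2, s3, s4, s5⟩ := h.side hS hk hu.1 hu.2 huN hu'.1 hu'.2 huN' hne
    obtain ⟨r1, r2, r3, r4, r5⟩ := h.side hS hk hu'.1 hu'.2 huN' hu.1 hu.2 huN hne.symm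
    have hyC : ∀ w, K ⊆ cmp G (T \ {w}) k → y ∈ Nb G (cmp G (T \ {w}) k) \ (S ∪ T) := by
      intro w hw
      obtain ⟨⟨hyn, a, ha, hay⟩, hyST⟩ := hy
      exact ⟨⟨fun h' => hyST (Or.inr (cmp_subset h').1), a, hw ha, hay⟩, hyST⟩
    obtain ⟨e, he, -⟩ := hsides u u' hu.1 hu.2 huN hu'.1 hu'.2 huN' hne
    obtain ⟨e', he', -⟩ := hsides u' u hu'.1 hu'.2 huN' hu.1 hu.2 huN hne.symm
    -- `e'` is a neighbour of the inner side of `u`, so `e' = y`, and `e = y`
    have hsub : T \ cmp G (T \ {u'}) k ⊆ cmp G (T \ {u}) k := by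
      refine r5.subset_cmp ?_ (y := u') ⟨hu'.2, fun h' => (cmp_subset h').2 rfl⟩ s3
      intro z hz
      exact ⟨hz.1, fun h' => hz.2 (h' ▸ r3)⟩
    have hsub' : T \ cmp G (T \ {u}) k ⊆ cmp G (T \ {u'}) k := by
      refine s5.subset_cmp ?_ (y := u) ⟨hu.2, fun h' => (cmp_subset h').2 rfl⟩ r3
      intro z hz
      exact ⟨hz.1, fun h' => hz.2 (h' ▸ s3)⟩
    have he1 : e' ∈ Nb G (cmp G (T \ {u}) k) \ (S ∪ T) := by
      obtain ⟨⟨hyn, a, ha, hay⟩, hyST⟩ := he'
      exact ⟨⟨fun h' => hyST (Or.inr (cmp_subset h').1), a, hsub ha, hay⟩, hyST⟩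
    have he2 : e ∈ Nb G (cmp G (T \ {u'}) k) \ (S ∪ T) := by
      obtain ⟨⟨hyn, a, ha, hay⟩, hyST⟩ := he
      exact ⟨⟨fun h' => hyST (Or.inr (cmp_subset h').1), a, hsub' ha, hay⟩, hyST⟩
    have h7 := s1 e' he1 y (hyC u s4)
    have h8 := r1 e he2 y (hyC u' r4)
    exact hpair u u' hu.1 hu.2 huN hu'.1 hu'.2 huN' hne y (h8 ▸ he) (h7 ▸ he')
  · have h4 : 2 < (Nb G K ∩ T).ncard := by
      have h5 : Nb G K ⊆ Nb G K ∩ T := by
        intro w hw
        rcases hNbK w hw with h' | h'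
        · exact ⟨hw, h'.1⟩
        · exact absurd ⟨w, hw, h'⟩ hz
      have h6 := ncard_le_ncard h5 (toFinite _)
      omega
    obtain ⟨u1, u2, u3, hu1, hu2, hu3, h12, h13, h23⟩ := (two_lt_ncard_iff (toFinite _)).1 h4
    have hN : ∀ u ∈ Nb G K ∩ T, u ∈ Nb G S := fun u hu =>
      (hNbK u hu.1).elim (fun h' => h'.2) fun h' => absurd (Or.inr hu.2) h'
    obtain ⟨e1, he1, h1⟩ := hsides u1 u2 hu1.1 hu1.2 (hN _ hu1) hu2.1 hu2.2 (hN _ hu2) h12
    obtain ⟨e2, he2, h2⟩ := hsides u2 u3 hu2.1 hu2.2 (hN _ hu2) hu3.1 hu3.2 (hN _ hu3) h23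
    obtain ⟨e3, he3, h5⟩ := hsides u3 u1 hu3.1 hu3.2 (hN _ hu3) hu1.1 hu1.2 (hN _ hu1) h13.symm
    have p12 : e1 ≠ e2 := fun h' =>
      hpair u1 u2 hu1.1 hu1.2 (hN _ hu1) hu2.1 hu2.2 (hN _ hu2) h12 e1 he1 (h' ▸ he2)
    have p13 : e1 ≠ e3 := fun h' =>
      hpair u1 u3 hu1.1 hu1.2 (hN _ hu1) hu3.1 hu3.2 (hN _ hu3) h13 e1 he1 (h' ▸ he3)
    have p23 : e2 ≠ e3 := fun h' =>
      hpair u2 u3 hu2.1 hu2.2 (hN _ hu2) hu3.1 hu3.2 (hN _ hu3) h23 e2 he2 (h' ▸ he3)
    rcases h1 with rfl | rfl <;> rcases h2 with rfl | rfl <;> rcases h5 with rfl | rfl <;>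
      first
        | exact p12 rfl
        | exact p13 rfl
        | exact p23 rfl

/-- Minimal admissible sets with at least two vertices are paths. -/
theorem Amin.mp [Finite V] (h : Amin G W S T) (hS : St G W c S)
    (h3 : ∀ E ⊆ W, E.Nonempty → 3 ≤ (Nb G E).ncard) (hp : p ∈ Nb G T \ S) (hq : q ∈ Nb G T \ S)
    (hpq : p ≠ q) : Mp G T p q := by
  refine ⟨h.con hS, hpq, hp.1, hq.1, fun F hF hc hpF hqF => ?_⟩
  by_contra hne
  obtain ⟨t, ht, htF⟩ : ∃ t ∈ T, t ∉ F := by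
    by_contra hcon
    push Not at hcon
    exact hne (Subset.antisymm hF hcon)
  exact hpq (eq_of_ncard_le_one (h.ear hF hc ht htF (h.active hS h3 ht))
    ⟨hpF, fun h' => h'.elim hp.2 hp.1.1⟩ ⟨hqF, fun h' => h'.elim hq.2 hq.1.1⟩)

theorem ec_sum_ge [Finite V] {X B : Set V} {m : ℕ} (h : ∀ t ∈ X, m ≤ ec G {t} B) :
    m * X.ncard ≤ ec G X B := by
  induction X, toFinite X using Set.Finite.induction_on with
  | empty => simp
  | @insert a X ha hX ih =>
    have h1 : insert a X = {a} ∪ X := rfl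
    have h2 : Disjoint {a} X := disjoint_singleton_left.2 ha
    rw [h1, ec_union_left h2, ← h1, ncard_insert_of_notMem ha (toFinite _), Nat.mul_succ]
    have h3 := ih fun t ht => h t (Or.inr ht)
    have h4 := h a (Or.inl rfl)
    omega

theorem ec_sum_eq [Finite V] {X B : Set V} {m : ℕ} (h : ∀ t ∈ X, ec G {t} B = m) :
    ec G X B = m * X.ncard := by
  induction X, toFinite X using Set.Finite.induction_on with
  | empty => simp
  | @insert a X ha hX ih =>
    have h1 : insert a X = {a} ∪ X := rfl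
    have h2 : Disjoint {a} X := disjoint_singleton_left.2 ha
    rw [h1, ec_union_left h2, ← h1, ncard_insert_of_notMem ha (toFinite _), Nat.mul_succ]
    have h3 := ih fun t ht => h t (Or.inr ht)
    have h4 := h a (Or.inl rfl)
    omega

theorem ncard_nb_le_ec [Finite V] (X : Set V) : (Nb G X \ S).ncard ≤ ec G X (S ∪ X)ᶜ := by
  unfold ec
  have h1 : Nb G X \ S ⊆ Prod.snd '' {p : V × V | p.1 ∈ X ∧ p.2 ∈ (S ∪ X)ᶜ ∧ G.Adj p.1 p.2} := by
    rintro y ⟨⟨hy, x, hx, hxy⟩, hyS⟩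
    exact ⟨(x, y), ⟨hx, fun h => h.elim hyS hy, hxy⟩, rfl⟩
  exact (ncard_le_ncard h1 (toFinite _)).trans (ncard_image_le (toFinite _))

theorem ec_compl_split [Finite V] (hT : T ⊆ W \ S) (A : Set V) :
    ec G A Sᶜ = ec G A T + ec G A (S ∪ T)ᶜ := by
  have h1 : Sᶜ = T ∪ (S ∪ T)ᶜ := by
    ext z
    constructor
    · intro hz
      by_cases hzT : z ∈ T
      · exact Or.inl hzT
      · exact Or.inr fun h => h.elim hz hzT
    · rintro (hz | hz)
      · exact (hT hz).2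
      · exact fun h => hz (Or.inl h)
  have h2 : Disjoint T (S ∪ T)ᶜ := disjoint_left.2 fun z hz hz' => hz' (Or.inr hz)
  rw [h1, ec_union_right h2]

/-- The step lemma. -/
theorem step [Finite V] (h3 : ∀ E ⊆ W, E.Nonempty → 3 ≤ (Nb G E).ncard) (hS : St G W c S)
    (hz : z ∈ W \ S) (hzN : z ∈ Nb G S) :
    ∃ T ⊆ W \ S, T.Nonempty ∧ St G W c (S ∪ T) ∧ T ⊆ Nb G S ∧ ec G T T + 2 ≤ 2 * T.ncard ∧
      (2 ≤ T.ncard → ec G T (S ∪ T)ᶜ ≤ 2 ∧ ∀ z ∉ S ∪ T, ec G T {z} ≤ 1) := by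
  obtain ⟨T, h⟩ := exists_amin hz hzN
  obtain ⟨t, ht, htN⟩ := h.act
  have hact := h.active hS h3
  have hcon := h.con hS
  obtain ⟨-, s, hs, hst⟩ := htN
  have h2 := hS.two T h.sub ⟨t, ht⟩
  obtain ⟨p, hp, q, hq, hpq⟩ := (one_lt_ncard (toFinite _)).1 h2
  have hm := h.mp hS h3 hp hq hpq
  obtain ⟨c1, c2, c3⟩ := hm.count
  refine ⟨T, h.sub, ⟨t, ht⟩, hS.union hcon (fun z hz => (h.sub hz).1) hs ht hst h.two, hact, c3, ?_⟩
  intro hT2
  -- every other neighbour is `p` or `q`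
  obtain ⟨x, hx, hxp, hxu, -, hpF, hF⟩ := hm.peel hT2
  obtain ⟨x', hx', hxq', hxu', -, hqF', hF'⟩ := hm.symm.peel hT2
  have hxx : x ≠ x' := by
    intro h'
    have := hm.min {x} (singleton_subset_iff.2 hx) (con_singleton x)
      ⟨fun h'' => hm.hp.1 (h'' ▸ hx), x, rfl, hxp⟩
      ⟨fun h'' => hm.hq.1 (h'' ▸ hx), x, rfl, h' ▸ hxq'⟩
    rw [← this, ncard_singleton] at hT2
    omega
  have hN : ∀ r ∈ Nb G T \ S, r = p ∨ r = q := by
    intro r hr
    by_contra hcon'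
    push Not at hcon'
    obtain ⟨hr0, a, ha, har⟩ := hr.1
    -- the neighbours of `r` in `T` are equal to `x` and to `x'`
    have hax : a = x := by
      by_contra hne
      have h5 := h.mp hS h3 hr hq hcon'.2
      have h6 := h5.min (T \ {x}) sdiff_subset hF.con
        ⟨fun h'' => hr0 h''.1, a, ⟨ha, hne⟩, har⟩ hF.hq
      have h8 : x ∈ T \ {x} := by
        rw [h6]
        exact hx
      exact h8.2 rfl
    have hax' : a = x' := by
      by_contra hne
      have h5 := h.mp hS h3 hr hp hcon'.1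
      have h6 := h5.min (T \ {x'}) sdiff_subset hF'.con
        ⟨fun h'' => hr0 h''.1, a, ⟨ha, hne⟩, har⟩ hF'.hq
      have h8 : x' ∈ T \ {x'} := by
        rw [h6]
        exact hx'
      exact h8.2 rfl
    exact hxx (hax ▸ hax')
  constructor
  · have h7 : ec G T (S ∪ T)ᶜ ≤ ec G T {p} + ec G T {q} := by
      have h8 : ec G T (S ∪ T)ᶜ ≤ ec G T ({p} ∪ {q}) := by
        unfold ec
        refine ncard_le_ncard ?_ (toFinite _)
        rintro ⟨a, b⟩ ⟨ha, hb, hab⟩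
        refine ⟨ha, ?_, hab⟩
        exact hN b ⟨⟨fun h' => hb (Or.inr h'), a, ha, hab⟩, fun h' => hb (Or.inl h')⟩
      refine h8.trans ?_
      rw [ec_symm, ec_symm G T {p}, ec_symm G T {q}]
      exact ec_union_left_le
    omega
  · intro y hy
    by_cases hyN : y ∈ Nb G T
    · rcases hN y ⟨hyN, fun h' => hy (Or.inl h')⟩ with h' | h'
      · rw [h']
        exact c1
      · rw [h']
        exact c2
    · have : ec G T {y} = 0 := by
        rw [ec_eq_zero]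
        intro a ha b hb hab
        rw [mem_singleton_iff] at hb
        rw [hb] at hab
        exact hyN ⟨fun h' => hy (Or.inr h'), a, ha, hab⟩
      omega

theorem Rgn.exists_nb {V : Type*} {G : SimpleGraph V} {W S : Set V} {c : V} (h : Rgn G W c)
    (hS : St G W c S) (hne : (W \ S).Nonempty) : ∃ z ∈ W \ S, z ∈ Nb G S := by
  obtain ⟨w, hw⟩ := hne
  obtain ⟨a, ha, b, hb, -, hbW, hab⟩ := h.con.exists_edge (X := S) hS.mem (mem_insert _ _) hw.2
    (mem_insert_of_mem _ hw.1)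
  have hbc : b ≠ c := fun h' => hb (h' ▸ hS.mem)
  exact ⟨b, ⟨hbW.resolve_left hbc, hb⟩, hb, a, ha, hab⟩

/-- (A1) -/
theorem stStep : StStep := by
  intro V _ G W c S hR hS hne
  obtain ⟨z, hz, hzN⟩ := hR.exists_nb hS hne
  obtain ⟨T, hT, hTne, hST, hact, h1, h2⟩ := step hR.three hS hz hzN
  refine ⟨T, hT, hST, ?_⟩
  by_cases hc : 2 ≤ T.ncard
  · right
    obtain ⟨h4, h5⟩ := h2 hc
    refine ⟨hc, ?_, h4, h5⟩
    intro t ht
    have h6 : ∀ x ∈ T, 2 ≤ ec G {x} Sᶜ := by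
      intro x hx
      have h7 := hS.two {x} (singleton_subset_iff.2 (hT hx)) (singleton_nonempty x)
      refine h7.trans ((ncard_nb_le_ec _).trans (ec_mono_right ?_))
      exact compl_subset_compl.2 subset_union_left
    have h7 : ec G T Sᶜ = ec G {t} Sᶜ + ec G (T \ {t}) Sᶜ := by
      have h8 : T = {t} ∪ (T \ {t}) := by
        rw [union_sdiff_self, union_eq_self_of_subset_left (singleton_subset_iff.2 ht)]
      conv_lhs => rw [h8]
      exact ec_union_left disjoint_sdiff_right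
    have h8 := ec_sum_ge (G := G) (X := T \ {t}) (B := Sᶜ) (m := 2) fun x hx => h6 x hx.1
    have h9 : (T \ {t}).ncard + 1 = T.ncard := ncard_sdiff_singleton_add_one ht (toFinite _)
    have h10 := ec_compl_split (G := G) hT T
    omega
  · left
    have h4 : 0 < T.ncard := (ncard_pos (toFinite _)).2 hTne
    obtain ⟨t, rfl⟩ := ncard_eq_one.1 (by omega : T.ncard = 1)
    exact ⟨t, rfl, hact rfl⟩

end T3

end Pool.Agent.Lib.MP_d9512b_co
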